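import Mathlib

/-!
Definitions for the bound on Lehmer numbers: additive energies, mixed moments (number of solutions
of additive equations), Vinogradov's system.
-/

namespace Pool.Agent.Helper58.LT

open Finset

/-- The additive energy of the family `F` on the finite set `T`: the number of pairs in `T × T` with
the same value of `F`. -/
def en {τ A : Type*} [DecidableEq A] (T : Finset τ) (F : τ → A) : ℕ :=
  #{z ∈ T ×ˢ T | F z.1 = F z.2}

/-- `s`-tuples of elements of `I` -/
def tup {ι : Type*} (I : Finset ι) (s : ℕ) : Finset (Fin s → ι) :=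
  Fintype.piFinset (fun _ => I)

/-- the sum of `f` along a tuple -/
def sm' {ι A : Type*} [AddCommGroup A] (f : ι → A) {s : ℕ} (x : Fin s → ι) : A := ∑ i, f (x i)

/-- The `2s`-th moment: number of solutions of `f x₁ + ⋯ + f x_s = f y₁ + ⋯ + f y_s` in `I`. -/
def Js {ι A : Type*} [AddCommGroup A] [DecidableEq A] (I : Finset ι) (f : ι → A) (s : ℕ) : ℕ :=
  en (tup I s) (sm' f)

/-- The mixed moment: number of solutions of
`f x₁ + ⋯ + f x_a + g u₁ + ⋯ + g u_b = f y₁ + ⋯ + f y_a + g v₁ + ⋯ + g v_b`, `x, y` in `I` and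
`u, v` in `K`. -/
def mom {ι κ A : Type*} [AddCommGroup A] [DecidableEq A] (I : Finset ι) (f : ι → A)
    (K : Finset κ) (g : κ → A) (a b : ℕ) : ℕ :=
  en (tup I a ×ˢ tup K b) (fun z => sm' f z.1 + sm' g z.2)

/-- the Vinogradov curve `(x, x², …, x^k)` -/
def vino (k : ℕ) (x : ℤ) : Fin k → ℤ := fun j => x ^ ((j : ℕ) + 1)

/-- Vinogradov's mean value: number of solutions of `∑ x_i^m = ∑ y_i^m`, `1 ≤ m ≤ k`, in
`1, …, X`, with `s` variables on each side. -/
noncomputable def JV (s k X : ℕ) : ℕ := Js (Icc (1 : ℤ) X) (vino k) s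

theorem mem_tup {ι : Type*} {I : Finset ι} {s : ℕ} {x : Fin s → ι} : x ∈ tup I s ↔ ∀ i, x i ∈ I := by
  simp [tup]

theorem card_tup {ι : Type*} (I : Finset ι) (s : ℕ) : #(tup I s) = #I ^ s := by
  simp [tup]

end Pool.Agent.Helper58.LT
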