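import Mathlib
import Pool.Agent.Helper58.LT.Defs
import Pool.Agent.Helper6.LehmerCount.Basic

/-!
# KB1: the function `λ(d) = log (d / φ(d))`, its integer version `ψ_N(d) = ⌊N λ(d)⌋`
-/

namespace Pool.Agent.Helper58.LT

open Finset

/-- `λ(d) = log (d / φ(d))` -/
noncomputable def lam (d : ℕ) : ℝ := Real.log ((d : ℝ) / (d.totient : ℝ))

/-- `ψ_N(d) = ⌊N λ(d)⌋` -/
noncomputable def psi (N d : ℕ) : ℤ := ⌊(N : ℝ) * lam d⌋

/-- `⌊N log (q / (q - 1))⌋`, the extension of `ψ_N` from the primes to all integers -/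
noncomputable def psq (N q : ℕ) : ℤ := ⌊(N : ℝ) * Real.log ((q : ℝ) / ((q : ℝ) - 1))⌋

private theorem lamaux_ratio_ge (d : ℕ) (hd : 0 < d) : (1 : ℝ) ≤ (d : ℝ) / (d.totient : ℝ) := by
  have h1 : (0 : ℝ) < (d.totient : ℝ) := by exact_mod_cast Nat.totient_pos.2 hd
  rw [le_div_iff₀ h1, one_mul]
  exact_mod_cast Nat.totient_le d

private theorem lamaux_pos (d : ℕ) (hd : 0 < d) : (0 : ℝ) < (d : ℝ) / (d.totient : ℝ) :=
  lt_of_lt_of_le one_pos (lamaux_ratio_ge d hd)

theorem lam_nonneg (d : ℕ) : 0 ≤ lam d := by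
  rcases Nat.eq_zero_or_pos d with h | h
  · subst h
    simp [lam]
  · exact Real.log_nonneg (lamaux_ratio_ge d h)

theorem lam_one : lam 1 = 0 := by
  simp [lam]

theorem lam_mul {a b : ℕ} (ha : 0 < a) (hb : 0 < b) (hab : a.Coprime b) :
    lam (a * b) = lam a + lam b := by
  unfold lam
  rw [← Real.log_mul (lamaux_pos a ha).ne' (lamaux_pos b hb).ne', Nat.totient_mul hab]
  congr 1
  push_cast
  rw [div_mul_div_comm]

theorem lam_prime {p : ℕ} (hp : p.Prime) : lam p = Real.log ((p : ℝ) / ((p : ℝ) - 1)) := by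
  unfold lam
  rw [Nat.totient_prime hp, Nat.cast_sub hp.one_lt.le, Nat.cast_one]

theorem psi_prime {N p : ℕ} (hp : p.Prime) : psi N p = psq N p := by
  unfold psi psq
  rw [lam_prime hp]

/-- injective tuples of primes (by induction, or through `Finset.prod` over `univ` and
`Nat.Coprime.prod_right`) -/
theorem lam_prod {r : ℕ} (c : Fin r → ℕ) (hc : ∀ i, (c i).Prime) (hinj : Function.Injective c) :
    lam (∏ i, c i) = ∑ i, lam (c i) := by
  classical
  have key : ∀ s : Finset (Fin r), lam (∏ i ∈ s, c i) = ∑ i ∈ s, lam (c i) := by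
    intro s
    induction s using Finset.induction_on with
    | empty => simp [lam_one]
    | insert a s ha ih =>
      rw [Finset.prod_insert ha, Finset.sum_insert ha, lam_mul (hc a).pos
        (Finset.prod_pos fun i _ => (hc i).pos), ih]
      refine Nat.Coprime.prod_right fun i hi => ?_
      rw [Nat.coprime_primes (hc a) (hc i)]
      intro hcon
      exact ha (hinj hcon ▸ hi)
  exact key Finset.univ

/-- for a squarefree product the function `λ` is additive -/
theorem lam_mul_of_squarefree {a b : ℕ} (h : Squarefree (a * b)) :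
    lam (a * b) = lam a + lam b := by
  have h0 : a * b ≠ 0 := h.ne_zero
  exact lam_mul (Nat.pos_of_ne_zero (left_ne_zero_of_mul h0))
    (Nat.pos_of_ne_zero (right_ne_zero_of_mul h0)) (Nat.coprime_of_squarefree_mul h)

/-- rounding errors of a sum -/
theorem sum_psi_le {N s : ℕ} (x : Fin s → ℕ) :
    ((sm' (psi N) x : ℤ) : ℝ) ≤ (N : ℝ) * ∑ i, lam (x i) := by
  unfold sm'
  push_cast
  rw [Finset.mul_sum]
  exact Finset.sum_le_sum fun i _ => Int.floor_le _

theorem sum_psi_gt {N s : ℕ} (x : Fin s → ℕ) :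
    (N : ℝ) * ∑ i, lam (x i) - s ≤ ((sm' (psi N) x : ℤ) : ℝ) := by
  unfold sm'
  push_cast
  rw [Finset.mul_sum]
  have h : ∑ i : Fin s, ((N : ℝ) * lam (x i) - 1) ≤ ∑ i : Fin s, ((psi N (x i) : ℤ) : ℝ) :=
    Finset.sum_le_sum fun i _ => (Int.sub_one_lt_floor _).le
  rw [Finset.sum_sub_distrib, Finset.sum_const, Finset.card_univ, Fintype.card_fin] at h
  simpa using h

/-- `λ(n)` of a number with `n = k φ(n) + 1` -/
theorem lam_idx {n k : ℕ} (h : n = k * n.totient + 1) (hn : 2 ≤ n) :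
    Real.log k < lam n ∧ lam n ≤ Real.log k + 2 / n := by
  have hnpos : 0 < n := by omega
  have hφ : 0 < n.totient := Nat.totient_pos.2 hnpos
  have hk : 0 < k := by
    rcases Nat.eq_zero_or_pos k with hk | hk
    · subst hk; omega
    · exact hk
  have hφR : (0 : ℝ) < (n.totient : ℝ) := by exact_mod_cast hφ
  have hkR : (0 : ℝ) < (k : ℝ) := by exact_mod_cast hk
  have hnR : (n : ℝ) = (k : ℝ) * (n.totient : ℝ) + 1 := by exact_mod_cast h
  have hquot : (n : ℝ) / (n.totient : ℝ) = (k : ℝ) * (1 + 1 / ((k : ℝ) * (n.totient : ℝ))) := by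
    rw [hnR]
    field_simp
  have hlam : lam n = Real.log k + Real.log (1 + 1 / ((k : ℝ) * (n.totient : ℝ))) := by
    unfold lam
    rw [hquot, Real.log_mul hkR.ne' (by positivity)]
  have hpos : (0 : ℝ) < 1 / ((k : ℝ) * (n.totient : ℝ)) := by positivity
  constructor
  · rw [hlam]
    have := Real.log_pos (show (1 : ℝ) < 1 + 1 / ((k : ℝ) * (n.totient : ℝ)) by linarith)
    linarith
  · rw [hlam]
    have h1 : Real.log (1 + 1 / ((k : ℝ) * (n.totient : ℝ))) ≤ 1 / ((k : ℝ) * (n.totient : ℝ)) := by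
      have := Real.log_le_sub_one_of_pos (show (0 : ℝ) < 1 + 1 / ((k : ℝ) * (n.totient : ℝ)) by linarith)
      linarith
    have h2 : 1 / ((k : ℝ) * (n.totient : ℝ)) ≤ 2 / n := by
      have hkφ : (0 : ℝ) < (k : ℝ) * (n.totient : ℝ) := by positivity
      have hn0 : (0 : ℝ) < n := by exact_mod_cast hnpos
      have hn2 : (2 : ℝ) ≤ n := by exact_mod_cast hn
      rw [div_le_div_iff₀ hkφ hn0]
      linarith
    linarith

end Pool.Agent.Helper58.LT
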