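import Mathlib
import Pool.Agent.Helper58.LT.Lam
import Pool.Agent.Helper6.LehmerCount.Growth

/-!
Definitions for the counting part: possible initial products of a Lehmer number, the condition NS.
-/

namespace Pool.Agent.Helper58.LT

open Finset Pool.Agent.Helper6.LehmerCount

/-- sum of the logarithms of the elements of a set -/
noncomputable def ls (S : Finset ℕ) : ℝ := ∑ p ∈ S, Real.log p

/-- properties of an initial product `m` (the product of the prime factors below `p`) of a Lehmer
number of index `k` with at most `W` prime factors, where `H ≤ p` -/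
def IsInit (k W : ℕ) (H : ℝ) (m : ℕ) : Prop :=
  Squarefree m ∧ m.primeFactors.card ≤ W ∧ Real.log k - 2 * W / H < lam m ∧ lam m < Real.log k ∧
    ∀ Y : ℕ, 1 ≤ Y → Y < 2 * W * m → ∃ d, d ∣ m ∧ d ≤ Y ∧ Y < 2 * W * d

open scoped Classical in
/-- the possible initial products in `[a, 2a)` -/
noncomputable def Lset (k W : ℕ) (H : ℝ) (a : ℕ) : Finset ℕ := {m ∈ Ico a (2 * a) | IsInit k W H m}

/-- the condition NS with tolerance `t` fails for `n`, at the scale `2^l` -/
def NSfail (n l : ℕ) (t : ℝ) : Prop :=
  ∃ p ∈ n.primeFactors, ∃ g : ℕ, g ∣ lg p n ∧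
    |Real.log (sm p n) + Real.log g - l * Real.log 2 / 2| < Real.log p / 2 - t

end Pool.Agent.Helper58.LT
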