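import Mathlib
import Pool.Agent.Helper58.LT.Lam

/-!
# KB2: the product is determined by the sum of the `λ`'s

`ratio_tuple`: `x : Fin m → ℕ`, `y : Fin n → ℕ` with squarefree entries and
`(∏ x i) (∏ φ(y j)) = (∏ y j) (∏ φ(x i))`.  Then `∏ x i = ∏ y j`.

Proof.  Let `α p = #{i | p ∣ x i}`, `β p = #{j | p ∣ y j}` for `p` prime.  As the entries are
squarefree, `∏ x i = ∏_p p ^ α p`, `∏ φ(x i) = ∏_p (p-1) ^ α p` over the primes `p ≤ B` (any large
bound `B`); the same for `y`.  (Equivalently `(∏ x i).factorization p = α p`.)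
If `α ≠ β` let `P` be the largest prime with `α P ≠ β P`.  After cancelling the primes above `P`
(there `α = β`), `∏_{p ≤ P} p ^ α p (p-1) ^ β p = ∏_{p ≤ P} p ^ β p (p-1) ^ α p`; the multiplicity of
the prime `P` in `∏_{p ≤ P} (p-1)^…` is `0` (all `p - 1 < P`) so comparing multiplicities of `P`:
`α P = β P`, contradiction.

`spacing_tuple`: if moreover only `|∑ λ(x i) - ∑ λ(y j)| < 1 / Z` is known with
`(∏ x i) (∏ y j) ≤ Z`.  Put `U = (∏ x i) (∏ φ(y j))`, `V = (∏ y j) (∏ φ(x i))`, positive integers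
`≤ Z`, `∑ λ(x i) - ∑ λ(y j) = log (U / V)`.  If `U ≠ V`, say `U ≥ V + 1`, then
`log (U / V) ≥ 1 - V / U ≥ 1 / U ≥ 1 / Z` (`Real.one_sub_inv_le_log_of_pos`), a contradiction.
So `U = V` and `ratio_tuple` applies.
-/

namespace Pool.Agent.Helper58.LT

open Finset

theorem ratio_pow {P a b u v : ℕ} (hP : P.Prime) (hu : ¬ P ∣ u) (hv : ¬ P ∣ v)
    (h : P ^ a * u = P ^ b * v) : a = b := by
  have key : ∀ {a b u v : ℕ}, ¬ P ∣ u → P ^ a * u = P ^ b * v → ¬ a < b := by
    intro a b u v hu h hab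
    obtain ⟨c, rfl⟩ : ∃ c, b = a + c + 1 := ⟨b - a - 1, by omega⟩
    apply hu
    have h1 : P ^ a * u = P ^ a * (P * (P ^ c * v)) := by
      rw [h]
      ring
    have h2 := Nat.eq_of_mul_eq_mul_left (pow_pos hP.pos a) h1
    rw [h2]
    exact dvd_mul_right _ _
  rcases lt_trichotomy a b with h1 | h1 | h1
  · exact absurd h1 (key hu h)
  · exact h1
  · exact absurd h1 (key hv h.symm)

theorem ratio_core (S : Finset ℕ) (hS : ∀ p ∈ S, p.Prime) (α β : ℕ → ℕ)
    (h : ∏ p ∈ S, (p ^ α p * (p - 1) ^ β p) = ∏ p ∈ S, (p ^ β p * (p - 1) ^ α p)) :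
    ∀ p ∈ S, α p = β p := by
  induction S using Finset.induction_on_max with
  | empty => simp
  | insert P S hlt ih =>
    have hPS : P ∉ S := fun hmem => lt_irrefl P (hlt P hmem)
    have hP := hS P (mem_insert_self _ _)
    have hS' : ∀ p ∈ S, p.Prime := fun p hp => hS p (mem_insert_of_mem hp)
    have hPP : ¬ P ∣ P - 1 := by
      intro hd
      have := Nat.le_of_dvd (by have := hP.two_le; omega) hd
      have := hP.pos
      omega
    have hnd : ∀ γ δ : ℕ → ℕ, ¬ P ∣ ∏ p ∈ S, (p ^ γ p * (p - 1) ^ δ p) := by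
      intro γ δ hd
      obtain ⟨p, hp, hd⟩ := (Prime.dvd_finsetProd_iff hP.prime _).1 hd
      have hp2 := (hS' p hp).two_le
      have hpP := hlt p hp
      rcases (Nat.Prime.dvd_mul hP).1 hd with h1 | h1
      · have := Nat.le_of_dvd (by omega) (hP.dvd_of_dvd_pow h1)
        omega
      · have := Nat.le_of_dvd (by omega) (hP.dvd_of_dvd_pow h1)
        omega
    rw [prod_insert hPS, prod_insert hPS] at h
    have h1 : α P = β P := by
      refine ratio_pow (u := (P - 1) ^ β P * ∏ p ∈ S, (p ^ α p * (p - 1) ^ β p))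
        (v := (P - 1) ^ α P * ∏ p ∈ S, (p ^ β p * (p - 1) ^ α p)) hP ?_ ?_ ?_
      · intro hd
        rcases (Nat.Prime.dvd_mul hP).1 hd with h1 | h1
        · exact hPP (hP.dvd_of_dvd_pow h1)
        · exact hnd _ _ h1
      · intro hd
        rcases (Nat.Prime.dvd_mul hP).1 hd with h1 | h1
        · exact hPP (hP.dvd_of_dvd_pow h1)
        · exact hnd _ _ h1
      · rw [← mul_assoc, ← mul_assoc]
        exact h
    have hpos : 0 < P ^ β P * (P - 1) ^ β P := by
      have := hP.two_le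
      have h2 : 0 < P - 1 := by omega
      have h3 := hP.pos
      positivity
    rw [h1] at h
    have h2 := Nat.eq_of_mul_eq_mul_left hpos h
    intro p hp
    rcases mem_insert.1 hp with rfl | hp
    · exact h1
    · exact ih hS' h2 p hp

theorem ratio_phi (S : Finset ℕ) (x : ℕ) (hx : Squarefree x) (hxS : x.primeFactors ⊆ S) :
    x.totient = ∏ p ∈ S, (p - 1) ^ x.factorization p := by
  have h0 : x ≠ 0 := hx.ne_zero
  have hz : ∀ p, p ∉ x.primeFactors → x.factorization p = 0 := by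
    intro p hp
    rw [← Nat.support_factorization] at hp
    exact Finsupp.notMem_support_iff.1 hp
  rw [Nat.totient_eq_prod_factorization h0, Finsupp.prod, Nat.support_factorization]
  rw [← prod_subset hxS (f := fun p => (p - 1) ^ x.factorization p) (fun p _ hp => by
    beta_reduce
    rw [hz p hp, pow_zero])]
  refine prod_congr rfl fun p hp => ?_
  have h1 : x.factorization p = 1 := by
    have h2 := hx.natFactorization_le_one p
    have h3 : x.factorization p ≠ 0 := by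
      rw [← Finsupp.mem_support_iff, Nat.support_factorization]
      exact hp
    omega
  rw [h1, Nat.sub_self, pow_zero, one_mul, pow_one]

theorem ratio_self (S : Finset ℕ) (x : ℕ) (h0 : x ≠ 0) (hxS : x.primeFactors ⊆ S) :
    x = ∏ p ∈ S, p ^ x.factorization p := by
  have hz : ∀ p, p ∉ x.primeFactors → x.factorization p = 0 := by
    intro p hp
    rw [← Nat.support_factorization] at hp
    exact Finsupp.notMem_support_iff.1 hp
  conv_lhs => rw [← Nat.prod_factorization_pow_eq_self h0, Finsupp.prod, Nat.support_factorization]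
  exact prod_subset hxS (f := fun p => p ^ x.factorization p) (fun p _ hp => by
    beta_reduce
    rw [hz p hp, pow_zero])

theorem ratio_side {m : ℕ} (S : Finset ℕ) (x : Fin m → ℕ) (hx : ∀ i, Squarefree (x i))
    (hS : (∏ i, x i).primeFactors ⊆ S) :
    ∏ i, (x i).totient = ∏ p ∈ S, (p - 1) ^ (∏ i, x i).factorization p := by
  have h0 : ∀ i, x i ≠ 0 := fun i => (hx i).ne_zero
  have hsub : ∀ i, (x i).primeFactors ⊆ S := by
    intro i
    refine subset_trans ?_ hS
    exact Nat.primeFactors_mono (dvd_prod_of_mem x (mem_univ i)) (prod_ne_zero_iff.2 fun i _ => h0 i)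
  rw [prod_congr rfl fun i _ => ratio_phi S (x i) (hx i) (hsub i), prod_comm]
  refine prod_congr rfl fun p _ => ?_
  rw [prod_pow_eq_pow_sum, Nat.factorization_prod fun i _ => h0 i]
  congr 1
  rw [Finsupp.finsetSum_apply]

theorem ratio_tuple {m n : ℕ} (x : Fin m → ℕ) (y : Fin n → ℕ) (hx : ∀ i, Squarefree (x i))
    (hy : ∀ j, Squarefree (y j))
    (h : (∏ i, x i) * (∏ j, (y j).totient) = (∏ j, y j) * (∏ i, (x i).totient)) :
    ∏ i, x i = ∏ j, y j := by
  have hX0 : ∏ i, x i ≠ 0 := prod_ne_zero_iff.2 fun i _ => (hx i).ne_zero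
  have hY0 : ∏ j, y j ≠ 0 := prod_ne_zero_iff.2 fun j _ => (hy j).ne_zero
  set S := (∏ i, x i).primeFactors ∪ (∏ j, y j).primeFactors with hS
  have hS1 : (∏ i, x i).primeFactors ⊆ S := subset_union_left
  have hS2 : (∏ j, y j).primeFactors ⊆ S := subset_union_right
  have hSp : ∀ p ∈ S, p.Prime := by
    intro p hp
    rcases mem_union.1 hp with hp | hp
    · exact Nat.prime_of_mem_primeFactors hp
    · exact Nat.prime_of_mem_primeFactors hp
  have h1 := ratio_side S x hx hS1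
  have h2 := ratio_side S y hy hS2
  have h3 := ratio_self S _ hX0 hS1
  have h4 := ratio_self S _ hY0 hS2
  have h5 := ratio_core S hSp (fun p => (∏ i, x i).factorization p)
    (fun p => (∏ j, y j).factorization p) (by
      rw [prod_mul_distrib, prod_mul_distrib, ← h1, ← h2, ← h3, ← h4]
      exact h)
  rw [h3, h4]
  exact prod_congr rfl fun p hp => by rw [h5 p hp]

theorem spacing_tuple {m n : ℕ} (x : Fin m → ℕ) (y : Fin n → ℕ) (hx : ∀ i, Squarefree (x i))
    (hy : ∀ j, Squarefree (y j)) {Z : ℝ} (hZ : ((∏ i, x i : ℕ) : ℝ) * ((∏ j, y j : ℕ) : ℝ) ≤ Z)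
    (h : |∑ i, lam (x i) - ∑ j, lam (y j)| < 1 / Z) : ∏ i, x i = ∏ j, y j := by
  have hx0 : ∀ i, 0 < x i := fun i => Nat.pos_of_ne_zero (hx i).ne_zero
  have hy0 : ∀ j, 0 < y j := fun j => Nat.pos_of_ne_zero (hy j).ne_zero
  have hX : 0 < ∏ i, x i := prod_pos fun i _ => hx0 i
  have hY : 0 < ∏ j, y j := prod_pos fun j _ => hy0 j
  have hFX : 0 < ∏ i, (x i).totient := prod_pos fun i _ => Nat.totient_pos.2 (hx0 i)
  have hFY : 0 < ∏ j, (y j).totient := prod_pos fun j _ => Nat.totient_pos.2 (hy0 j)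
  have hFX2 : ∏ i, (x i).totient ≤ ∏ i, x i := prod_le_prod' fun i _ => Nat.totient_le _
  have hFY2 : ∏ j, (y j).totient ≤ ∏ j, y j := prod_le_prod' fun j _ => Nat.totient_le _
  have e1 : ∑ i, lam (x i) = Real.log (((∏ i, x i : ℕ) : ℝ) / ((∏ i, (x i).totient : ℕ) : ℝ)) := by
    rw [Nat.cast_prod, Nat.cast_prod, ← prod_div_distrib, Real.log_prod]
    · rfl
    · intro i _
      have h1 : (0 : ℝ) < x i := by exact_mod_cast hx0 i
      have h2 : (0 : ℝ) < (x i).totient := by exact_mod_cast Nat.totient_pos.2 (hx0 i)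
      positivity
  have e2 : ∑ j, lam (y j) = Real.log (((∏ j, y j : ℕ) : ℝ) / ((∏ j, (y j).totient : ℕ) : ℝ)) := by
    rw [Nat.cast_prod, Nat.cast_prod, ← prod_div_distrib, Real.log_prod]
    · rfl
    · intro j _
      have h1 : (0 : ℝ) < y j := by exact_mod_cast hy0 j
      have h2 : (0 : ℝ) < (y j).totient := by exact_mod_cast Nat.totient_pos.2 (hy0 j)
      positivity
  apply ratio_tuple x y hx hy
  rw [e1, e2] at h
  generalize ∏ i, x i = X at *
  generalize ∏ j, y j = Y at *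
  generalize ∏ i, (x i).totient = FX at *
  generalize ∏ j, (y j).totient = FY at *
  have hXR : (0 : ℝ) < X := by exact_mod_cast hX
  have hYR : (0 : ℝ) < Y := by exact_mod_cast hY
  have hFXR : (0 : ℝ) < FX := by exact_mod_cast hFX
  have hFYR : (0 : ℝ) < FY := by exact_mod_cast hFY
  have hU : ((X * FY : ℕ) : ℝ) ≤ Z := by
    refine le_trans ?_ hZ
    rw [← Nat.cast_mul]
    exact_mod_cast Nat.mul_le_mul_left X hFY2
  have hV : ((Y * FX : ℕ) : ℝ) ≤ Z := by
    refine le_trans ?_ hZ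
    rw [← Nat.cast_mul, mul_comm X Y]
    exact_mod_cast Nat.mul_le_mul_left Y hFX2
  have e3 : Real.log ((X : ℝ) / FX) - Real.log ((Y : ℝ) / FY) =
      Real.log (((X * FY : ℕ) : ℝ) / ((Y * FX : ℕ) : ℝ)) := by
    rw [← Real.log_div (by positivity) (by positivity)]
    congr 1
    push_cast
    field_simp
  rw [e3] at h
  have key : ∀ U V : ℕ, 0 < U → 0 < V → (U : ℝ) ≤ Z → V < U →
      1 / Z ≤ Real.log ((U : ℝ) / V) := by
    intro U V hU0 hV0 hUZ hVU
    have hUR : (0 : ℝ) < U := by exact_mod_cast hU0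
    have hVR : (0 : ℝ) < V := by exact_mod_cast hV0
    have h1 := Real.one_sub_inv_le_log_of_pos (x := (U : ℝ) / V) (by positivity)
    have h2 : (V : ℝ) + 1 ≤ U := by exact_mod_cast hVU
    have h3 : 1 / (U : ℝ) ≤ 1 - ((U : ℝ) / V)⁻¹ := by
      rw [inv_div, div_le_iff₀ hUR, sub_mul, div_mul_cancel₀ _ hUR.ne']
      linarith
    have h4 : 1 / Z ≤ 1 / (U : ℝ) := one_div_le_one_div_of_le hUR hUZ
    linarith
  have hU0 : 0 < X * FY := Nat.mul_pos hX hFY
  have hV0 : 0 < Y * FX := Nat.mul_pos hY hFX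
  rcases lt_trichotomy (X * FY) (Y * FX) with h1 | h1 | h1
  · have h2 := key _ _ hV0 hU0 hV h1
    rw [← neg_neg (Real.log (((X * FY : ℕ) : ℝ) / ((Y * FX : ℕ) : ℝ))), abs_neg,
      ← Real.log_inv, inv_div] at h
    have h3 := le_abs_self (Real.log (((Y * FX : ℕ) : ℝ) / ((X * FY : ℕ) : ℝ)))
    linarith
  · exact h1
  · have h2 := key _ _ hU0 hV0 hU h1
    have h3 := le_abs_self (Real.log (((X * FY : ℕ) : ℝ) / ((Y * FX : ℕ) : ℝ)))
    linarith

/-- two numbers -/
theorem spacing_two {a b : ℕ} (ha : Squarefree a) (hb : Squarefree b) {Z : ℝ}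
    (hZ : (a : ℝ) * b ≤ Z) (h : |lam a - lam b| < 1 / Z) : a = b := by
  have h1 := spacing_tuple (m := 1) (n := 1) (fun _ => a) (fun _ => b) (fun _ => ha) (fun _ => hb)
    (Z := Z) (by simpa using hZ) (by simpa using h)
  simpa using h1

/-- equality of the integer versions -/
theorem spacing_psi {s N : ℕ} (x y : Fin s → ℕ) (hx : ∀ i, Squarefree (x i))
    (hy : ∀ j, Squarefree (y j)) (hs : 1 ≤ s) {Z : ℝ}
    (hZ : ((∏ i, x i : ℕ) : ℝ) * ((∏ j, y j : ℕ) : ℝ) ≤ Z) (hN : 2 * s * Z ≤ N)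
    (h : sm' (psi N) x = sm' (psi N) y) : ∏ i, x i = ∏ j, y j := by
  have hX : 0 < ∏ i, x i := prod_pos fun i _ => Nat.pos_of_ne_zero (hx i).ne_zero
  have hY : 0 < ∏ j, y j := prod_pos fun j _ => Nat.pos_of_ne_zero (hy j).ne_zero
  have hXR : (0 : ℝ) < ((∏ i, x i : ℕ) : ℝ) := by exact_mod_cast hX
  have hYR : (0 : ℝ) < ((∏ j, y j : ℕ) : ℝ) := by exact_mod_cast hY
  have hZ0 : 0 < Z := lt_of_lt_of_le (mul_pos hXR hYR) hZ
  have hsR : (1 : ℝ) ≤ s := by exact_mod_cast hs
  have hsZ : 0 < s * Z := by positivity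
  have hN0 : (0 : ℝ) < N := by linarith
  apply spacing_tuple x y hx hy hZ
  have h1 := sum_psi_le (N := N) x
  have h2 := sum_psi_gt (N := N) x
  have h3 := sum_psi_le (N := N) y
  have h4 := sum_psi_gt (N := N) y
  rw [h] at h1 h2
  have h5 : |(N : ℝ) * (∑ i, lam (x i) - ∑ j, lam (y j))| ≤ s := by
    rw [abs_le]
    constructor
    · linarith
    · linarith
  rw [abs_mul, abs_of_pos hN0] at h5
  rw [lt_div_iff₀ hZ0]
  have h6 : 0 ≤ |∑ i, lam (x i) - ∑ j, lam (y j)| := abs_nonneg _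
  generalize |∑ i, lam (x i) - ∑ j, lam (y j)| = w at h5 h6 ⊢
  by_contra hcon
  push Not at hcon
  have h7 : (N : ℝ) * w ≥ (2 * s * Z) * w := mul_le_mul_of_nonneg_right hN h6
  have h8 : 2 * (s : ℝ) * 1 ≤ 2 * s * (w * Z) := mul_le_mul_of_nonneg_left hcon (by positivity)
  have h9 : (2 * s * Z) * w = 2 * s * (w * Z) := by ring
  linarith

end Pool.Agent.Helper58.LT
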