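import Mathlib
import Pool.Agent.Helper58.LT.LDefs
import Pool.Agent.Helper58.LT.Ratio
import Pool.Agent.Helper6.LehmerCount.Dense

/-!
# LC1: the number of initial products; a Lehmer number and a divisor

`sm_mem`: membership in `Lset` (`Idx.basic2`, `Idx.lt_mul_totient`, `Idx.sm_lt`, `Idx.dense`):
`m = sm p n`, `k φ(m) p < m p + 2W m` gives `log k < lam m + log (1 + 2W/p) ≤ lam m + 2W/p`.

`card_Lset`: put `L = 2W`, `M = 2a`, `Y = ⌈M L^(3/2) / √H⌉ ≥ 1`.  The `m ∈ Lset` with `L m ≤ Y` are at
most `Y` in number.  The others have a divisor `u ≤ Y < L u`, `m = u v`, `v < M L / Y`.  For given `u`,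
`lam v = lam m - lam u` lies in an interval of length `L / H`, and two different squarefree
`v, v' < B = M L / Y` have `|lam v - lam v'| ≥ 1 / (v v') > 1 / B^2 ≥ L / H` (`spacing_two`), so `v` is
determined by `u`: at most `Y` such `m`.  Total `2 Y ≤ 2 (2 a L^(3/2)/√H + 1)`, and
`1 ≤ √(2 L) a / √H` because `H ≤ 2 L a`; `L ≥ 2`.

`card_divisor`: the number of `n ≤ X` with `Idx n k` and `D ∣ n` is at most `2 X / D^2 + 1`: all these `n`
are congruent modulo `D * (k φ(D))` (`D ∣ n`, `k φ(D) ∣ n - 1`, coprime; compare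
`modEq_of_dvd`, `card_le_of_modEq`), and `k φ(D) ≥ D - 1`, so the modulus is at least `D^2 / 2` if
`D ≥ 2` (`Idx.lt_mul_totient` if `D < n`; if `D = n` then `k φ(D) = D - 1`).
-/

namespace Pool.Agent.Helper58.LT

open Finset Pool.Agent.Helper6.Lehmer Pool.Agent.Helper6.LehmerCount

theorem sm_mem {n k W p a : ℕ} {H : ℝ} (h : Idx n k) (hW : n.primeFactors.card ≤ W)
    (hp : p ∈ n.primeFactors) (hp2 : 2 * W ≤ p) (hH : 0 < H) (hHp : H ≤ p) (ha : a ≤ sm p n)
    (ha2 : sm p n < 2 * a) : sm p n ∈ Lset k W H a := by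
  classical
  have hpp := Nat.prime_of_mem_primeFactors hp
  have hm0 : 0 < sm p n := sm_pos p n
  have hφ0 : 0 < (sm p n).totient := Nat.totient_pos.2 hm0
  unfold Lset
  rw [mem_filter, mem_Ico]
  refine ⟨⟨ha, ha2⟩, sm_squarefree p n, ?_, ?_, ?_, ?_⟩
  · rw [primeFactors_sm]
    exact (Finset.card_filter_le _ _).trans hW
  · have h1 := h.basic2 (H := p) (L := 2 * W) (Nat.mul_le_mul_left 2 hW) hp2 hpp.pos
    have hk := h.two_le
    obtain ⟨m, hm⟩ : ∃ m, m = sm p n := ⟨_, rfl⟩
    rw [← hm] at h1 hm0 hφ0 ⊢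
    have hmR : (0 : ℝ) < m := by exact_mod_cast hm0
    have hφR : (0 : ℝ) < m.totient := by exact_mod_cast hφ0
    have hpR : (0 : ℝ) < p := by exact_mod_cast hpp.pos
    have hkR : (0 : ℝ) < k := by exact_mod_cast (show 0 < k by omega)
    have h1R : (k : ℝ) * m.totient * p < m * p + 2 * W * m := by exact_mod_cast h1
    have h2 : (k : ℝ) < (m : ℝ) / m.totient * (1 + 2 * W / p) := by
      have : (m : ℝ) / m.totient * (1 + 2 * W / p) = (m * p + 2 * W * m) / (m.totient * p) := by
        field_simp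
      rw [this, lt_div_iff₀ (by positivity)]
      linarith
    have h3 : Real.log k < lam m + Real.log (1 + 2 * W / p) := by
      unfold lam
      rw [← Real.log_mul (by positivity) (by positivity)]
      exact Real.log_lt_log hkR h2
    have h4 : Real.log (1 + 2 * W / p) ≤ 2 * W / p := by
      have := Real.log_le_sub_one_of_pos (show (0 : ℝ) < 1 + 2 * W / p by positivity)
      linarith
    have h5 : (2 : ℝ) * W / p ≤ 2 * W / H := div_le_div_of_nonneg_left (by positivity) hH hHp
    linarith
  · have h1 := h.lt_mul_totient (sm_dvd p) (h.sm_lt hp le_rfl)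
    obtain ⟨m, hm⟩ : ∃ m, m = sm p n := ⟨_, rfl⟩
    rw [← hm] at h1 hm0 hφ0 ⊢
    have hmR : (0 : ℝ) < m := by exact_mod_cast hm0
    have hφR : (0 : ℝ) < m.totient := by exact_mod_cast hφ0
    have h1R : (m : ℝ) < k * m.totient := by exact_mod_cast h1
    unfold lam
    apply Real.log_lt_log (by positivity)
    rwa [div_lt_iff₀ hφR]
  · exact h.dense (Nat.mul_le_mul_left 2 hW) p

private theorem spc_vin {k W a Y u m : ℕ} {H : ℝ} (hm : m ∈ Lset k W H a) (hu : u ∣ m) :
    ∃ v, m = u * v ∧ Squarefree v ∧ 0 < u ∧ 0 < v ∧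
      Real.log k - lam u - 2 * W / H < lam v ∧ lam v < Real.log k - lam u := by
  classical
  unfold Lset at hm
  rw [mem_filter] at hm
  obtain ⟨v, hv⟩ := hu
  have hsq := hm.2.1
  have hm0 : m ≠ 0 := hsq.ne_zero
  have hlam : lam m = lam u + lam v := by
    rw [hv] at hsq ⊢
    exact lam_mul_of_squarefree hsq
  refine ⟨v, hv, hsq.squarefree_of_dvd (Dvd.intro_left u hv.symm), ?_, ?_, ?_, ?_⟩
  · rcases Nat.eq_zero_or_pos u with h0 | h0
    · subst h0; simp at hv; exact absurd hv hm0
    · exact h0
  · rcases Nat.eq_zero_or_pos v with h0 | h0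
    · subst h0; simp at hv; exact absurd hv hm0
    · exact h0
  · have := hm.2.2.2.1; linarith
  · have := hm.2.2.2.2.1; linarith

theorem card_Lset (k W a : ℕ) (H : ℝ) (hW : 1 ≤ W) (hH : 1 ≤ H) (hHa : H ≤ 4 * W * a) :
    (#(Lset k W H a) : ℝ) ≤ 24 * (W : ℝ) ^ 2 * a / Real.sqrt H := by
  classical
  have hWR : (1 : ℝ) ≤ W := by exact_mod_cast hW
  have ha1 : 1 ≤ a := by
    rcases Nat.eq_zero_or_pos a with h0 | h0
    · subst h0; simp at hHa; linarith
    · exact h0
  have haR : (1 : ℝ) ≤ a := by exact_mod_cast ha1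
  set L : ℝ := 2 * W with hL
  have hL2 : (2 : ℝ) ≤ L := by rw [hL]; linarith
  set sH := Real.sqrt H with hsH
  set sL := Real.sqrt L with hsL
  have hsH0 : 0 < sH := Real.sqrt_pos.2 (by linarith)
  have hsL0 : 0 < sL := Real.sqrt_pos.2 (by linarith)
  have hsH2 : sH * sH = H := Real.mul_self_sqrt (by linarith)
  have hsL2 : sL * sL = L := Real.mul_self_sqrt (by linarith)
  set Y : ℕ := ⌈2 * a * L * sL / sH⌉₊ with hY
  have hYge : 2 * a * L * sL / sH ≤ (Y : ℝ) := Nat.le_ceil _
  have hYpos : 0 < 2 * (a : ℝ) * L * sL / sH := by positivity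
  have hY1 : 1 ≤ Y := by
    rw [hY]; exact Nat.one_le_ceil_iff.2 hYpos
  have hYR : (0 : ℝ) < Y := by exact_mod_cast hY1
  have hYlt : (Y : ℝ) < 2 * a * L * sL / sH + 1 := Nat.ceil_lt_add_one hYpos.le
  -- split
  have hsplit := Finset.card_filter_add_card_filter_not (s := Lset k W H a) (fun m => 2 * W * m ≤ Y)
  have hc1 : #((Lset k W H a).filter (fun m => 2 * W * m ≤ Y)) ≤ Y := by
    calc #((Lset k W H a).filter (fun m => 2 * W * m ≤ Y)) ≤ #(Icc 1 Y) := by
          apply Finset.card_le_card
          intro m hm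
          rw [mem_filter] at hm
          have h1 := hm.1
          unfold Lset at h1
          rw [mem_filter, mem_Ico] at h1
          rw [mem_Icc]
          refine ⟨by omega, ?_⟩
          have : m ≤ 2 * W * m := Nat.le_mul_of_pos_left m (by omega)
          exact this.trans hm.2
      _ = Y := by simp
  have hc2 : #((Lset k W H a).filter (fun m => ¬ 2 * W * m ≤ Y)) ≤ Y := by
    have hex : ∀ m ∈ (Lset k W H a).filter (fun m => ¬ 2 * W * m ≤ Y),
        ∃ d, d ∣ m ∧ d ≤ Y ∧ Y < 2 * W * d := by
      intro m hm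
      rw [mem_filter] at hm
      have h1 := hm.1
      unfold Lset at h1
      rw [mem_filter] at h1
      exact h1.2.2.2.2.2 Y hY1 (by omega)
    choose! f hf using hex
    calc #((Lset k W H a).filter (fun m => ¬ 2 * W * m ≤ Y)) ≤ #(Icc 1 Y) := by
          apply Finset.card_le_card_of_injOn f
          · intro m hm
            rw [Finset.mem_coe] at hm
            obtain ⟨h1, h2, h3⟩ := hf m hm
            rw [Finset.mem_coe, mem_Icc]
            refine ⟨?_, h2⟩
            rcases Nat.eq_zero_or_pos (f m) with h0 | h0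
            · rw [h0] at h3; simp at h3
            · exact h0
          · intro m hm m' hm' hmm
            rw [Finset.mem_coe] at hm hm'
            obtain ⟨h1, h2, h3⟩ := hf m hm
            obtain ⟨h1', h2', h3'⟩ := hf m' hm'
            rw [← hmm] at h1' h2' h3'
            rw [mem_filter] at hm hm'
            obtain ⟨v, hv, hvsq, hu0, hv0, hl1, hl2⟩ := spc_vin (Y := Y) hm.1 h1
            obtain ⟨v', hv', hvsq', -, hv0', hl1', hl2'⟩ := spc_vin (Y := Y) hm'.1 h1'
            have hm2 : m < 2 * a := by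
              have := hm.1; unfold Lset at this; rw [mem_filter, mem_Ico] at this; exact this.1.2
            have hm2' : m' < 2 * a := by
              have := hm'.1; unfold Lset at this; rw [mem_filter, mem_Ico] at this; exact this.1.2
            have hu0R : (0 : ℝ) < f m := by exact_mod_cast hu0
            have h3R : (Y : ℝ) < L * f m := by
              rw [hL]; exact_mod_cast h3
            have hB : ∀ w : ℕ, f m * w < 2 * a → (w : ℝ) * sL < sH := by
              intro w hw
              have hwR : (f m : ℝ) * w < 2 * a := by exact_mod_cast hw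
              have hw0 : (0 : ℝ) ≤ w := by positivity
              -- 2 a L sL ≤ Y sH < L f sH
              have e1 : 2 * a * L * sL ≤ Y * sH := by
                rwa [div_le_iff₀ hsH0] at hYge
              have e2 : (Y : ℝ) * sH < L * f m * sH := mul_lt_mul_of_pos_right h3R hsH0
              have e3 : 2 * a * sL < f m * sH := by
                have : L * (2 * a * sL) < L * (f m * sH) := by nlinarith
                exact lt_of_mul_lt_mul_left this (by linarith)
              have e4 : (f m : ℝ) * (w * sL) < f m * sH := by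
                calc (f m : ℝ) * (w * sL) = (f m * w) * sL := by ring
                  _ ≤ 2 * a * sL := mul_le_mul_of_nonneg_right hwR.le hsL0.le
                  _ < _ := e3
              exact lt_of_mul_lt_mul_left e4 hu0R.le
            have hb := hB v (by rw [← hv]; exact hm2)
            have hb' := hB v' (by rw [← hv']; exact hm2')
            have hvR : (0 : ℝ) < v := by exact_mod_cast hv0
            have hvR' : (0 : ℝ) < v' := by exact_mod_cast hv0'
            have hZ : (v : ℝ) * v' ≤ H / L := by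
              rw [le_div_iff₀ (by linarith)]
              calc (v : ℝ) * v' * L = (v * sL) * (v' * sL) := by rw [← hsL2]; ring
                _ ≤ sH * sH := mul_le_mul hb.le hb'.le (by positivity) hsH0.le
                _ = H := hsH2
            have hab : |lam v - lam v'| < 1 / (H / L) := by
              rw [one_div_div, abs_lt]
              constructor <;> linarith
            have := spacing_two hvsq hvsq' hZ hab
            rw [hv, hv', this]
      _ = Y := by simp
  have htot : (#(Lset k W H a) : ℝ) ≤ 2 * Y := by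
    have : #(Lset k W H a) ≤ 2 * Y := by omega
    exact_mod_cast this
  have hone : 1 ≤ 2 * (W : ℝ) * a / sH := by
    rw [one_le_div hsH0]
    have h1 : sH * sH ≤ (2 * W * a) * (2 * W * a) := by
      rw [hsH2]
      calc H ≤ 4 * W * a := hHa
        _ ≤ 4 * (W * W) * (a * a) := by
            have : (W : ℝ) * a ≤ (W * W) * (a * a) := by
              have e1 : (1 : ℝ) ≤ W * a := one_le_mul_of_one_le_of_one_le hWR haR
              calc (W : ℝ) * a = (W * a) * 1 := by ring
                _ ≤ (W * a) * (W * a) := mul_le_mul_of_nonneg_left e1 (by positivity)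
                _ = _ := by ring
            linarith
        _ = _ := by ring
    exact abs_le_of_sq_le_sq' (by nlinarith) (by positivity) |>.2
  have hsLW : sL ≤ 3 / 2 * W := by
    rw [hsL]
    apply Real.sqrt_le_iff.2
    constructor
    · positivity
    · rw [hL]; nlinarith
  calc (#(Lset k W H a) : ℝ) ≤ 2 * Y := htot
    _ ≤ 2 * (2 * a * L * sL / sH + 2 * (W : ℝ) * a / sH) := by linarith
    _ = (8 * W * sL + 4 * W) * a / sH := by rw [hL]; ring
    _ ≤ 24 * (W : ℝ) ^ 2 * a / sH := by
        apply div_le_div_of_nonneg_right _ hsH0.le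
        apply mul_le_mul_of_nonneg_right _ (by linarith)
        nlinarith

private theorem spc_modEq {n n' k D : ℕ} (h : Idx n k) (h' : Idx n' k) (hD : D ∣ n) (hD' : D ∣ n') :
    n ≡ n' [MOD D * (k * D.totient)] := by
  have hF : k * D.totient ∣ n - 1 := by
    have : n - 1 = k * n.totient := by have := h.eq; omega
    rw [this]
    exact Nat.mul_dvd_mul_left k (Nat.totient_dvd_of_dvd hD)
  have hF' : k * D.totient ∣ n' - 1 := by
    have : n' - 1 = k * n'.totient := by have := h'.eq; omega
    rw [this]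
    exact Nat.mul_dvd_mul_left k (Nat.totient_dvd_of_dvd hD')
  have hcop : D.Coprime (k * D.totient) := by
    have h2 : (n - 1).Coprime n := by
      have := h.lehmer.one_lt
      obtain ⟨m, rfl⟩ : ∃ m, n = m + 1 := ⟨n - 1, by omega⟩
      simp
    exact (Nat.Coprime.coprime_dvd_left hF (h2.coprime_dvd_right hD)).symm
  rw [← Nat.modEq_and_modEq_iff_modEq_mul hcop]
  constructor
  · exact ((Nat.modEq_zero_iff_dvd.mpr hD).trans (Nat.modEq_zero_iff_dvd.mpr hD').symm)
  · have h1 : 1 ≡ n [MOD (k * D.totient)] := (Nat.modEq_iff_dvd' h.lehmer.one_lt.le).mpr hF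
    have h2 : 1 ≡ n' [MOD (k * D.totient)] := (Nat.modEq_iff_dvd' h'.lehmer.one_lt.le).mpr hF'
    exact h1.symm.trans h2

theorem card_divisor {S : Finset ℕ} {k D X : ℕ} (hD : 2 ≤ D)
    (hS : ∀ n ∈ S, Idx n k ∧ n ≤ X ∧ D ∣ n) : (#S : ℝ) ≤ 2 * X / (D : ℝ) ^ 2 + 1 := by
  have hDR : (2 : ℝ) ≤ D := by exact_mod_cast hD
  rcases S.eq_empty_or_nonempty with he | ⟨n, hn⟩
  · subst he
    simp only [card_empty, Nat.cast_zero]
    positivity
  · have hF : D - 1 ≤ k * D.totient := by
      obtain ⟨h1, -, h3⟩ := hS n hn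
      have hle : D ≤ n := Nat.le_of_dvd (by have := h1.lehmer.one_lt; omega) h3
      rcases hle.lt_or_eq with h4 | h4
      · have := h1.lt_mul_totient h3 h4
        omega
      · have := h1.eq
        rw [← h4] at this
        omega
    have h1 := card_le_of_modEq (S := S) (X := X) (q := D * (k * D.totient)) (fun n hn => (hS n hn).2.1)
      (fun n hn n' hn' => spc_modEq (hS n hn).1 (hS n' hn').1 (hS n hn).2.2 (hS n' hn').2.2)
    have h2 : (#S : ℝ) ≤ ((X / (D * (k * D.totient)) : ℕ) : ℝ) + 1 := by exact_mod_cast h1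
    have h3 : ((X / (D * (k * D.totient)) : ℕ) : ℝ) ≤ (X : ℝ) / ((D * (k * D.totient) : ℕ) : ℝ) :=
      Nat.cast_div_le
    have hFR : (D : ℝ) - 1 ≤ ((k * D.totient : ℕ) : ℝ) := by
      have : ((D - 1 : ℕ) : ℝ) ≤ ((k * D.totient : ℕ) : ℝ) := by exact_mod_cast hF
      rwa [Nat.cast_sub (by omega), Nat.cast_one] at this
    have h4 : (D : ℝ) ^ 2 / 2 ≤ ((D * (k * D.totient) : ℕ) : ℝ) := by
      rw [Nat.cast_mul]
      nlinarith
    have h5 : (X : ℝ) / ((D * (k * D.totient) : ℕ) : ℝ) ≤ X / ((D : ℝ) ^ 2 / 2) :=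
      div_le_div_of_nonneg_left (by positivity) (by positivity) h4
    have h6 : (X : ℝ) / ((D : ℝ) ^ 2 / 2) = 2 * X / (D : ℝ) ^ 2 := by
      field_simp
    linarith

/-- if `D ^ 2 ≥ 2 X`... a Lehmer number `n ≤ X` of index `k` is determined by a proper divisor `D`
with `X ≤ D ^ 2` -/
theorem eq_of_divisor {n n' k D X : ℕ} (h : Idx n k) (h' : Idx n' k) (hX : n ≤ X) (hX' : n' ≤ X)
    (hD : D ∣ n) (hD' : D ∣ n') (hDn : D < n) (hDn' : D < n') (hDX : X ≤ D ^ 2) : n = n' := by
  have h1 := h.lt_mul_totient hD hDn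
  have hD0 : 0 < D := by
    rcases Nat.eq_zero_or_pos D with h0 | h0
    · subst h0; simp at h1
    · exact h0
  have h2 : D ^ 2 < D * (k * D.totient) := by
    rw [sq]
    exact Nat.mul_lt_mul_of_pos_left h1 hD0
  exact Nat.ModEq.eq_of_lt_of_lt (spc_modEq h h' hD hD') (by omega) (by omega)

end Pool.Agent.Helper58.LT
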