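import Mathlib
import Pool.Agent.Helper58.LT.LDefs

/-!
The three kinds of data of a Lehmer number `n ≤ 2^l` satisfying NS with `t = W`, and the numerical
constraints on the (dyadic) parameters.  Everywhere `X = l log 2`.
-/

namespace Pool.Agent.Helper58.LT

open Finset Pool.Agent.Helper6.LehmerCount

/-- Case A: `n = a * (c₁ ⋯ c_r) * f` with the cluster primes `c_i ∈ [2^β e^{-4W}, 2^{β+1})` -/
def DataA (n l W k r α β : ℕ) : Prop :=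
  ∃ (a f : ℕ) (c : Fin r → ℕ), n = a * (∏ i, c i) * f ∧
    a ∈ Lset k W ((2 : ℝ) ^ β * Real.exp (-4 * W)) (2 ^ α) ∧
    (∀ i, (c i).Prime ∧ (2 : ℝ) ^ β * Real.exp (-4 * W) ≤ c i ∧ c i < 2 ^ (β + 1)) ∧
    Function.Injective c ∧ 1 < f ∧ 2 ^ l ≤ (a * ∏ i, c i) ^ 2 ∧
    (f : ℝ) ≤ (2 : ℝ) ^ ((l : ℝ) / 2 - (β : ℝ) / 2) * Real.exp (W + 1)

/-- Case `r = 1`: `n = a * p * q` with primes `p < q` -/
def DataR (n W k α β : ℕ) : Prop :=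
  ∃ a p q : ℕ, n = a * p * q ∧
    a ∈ Lset k W ((2 : ℝ) ^ β * Real.exp (-4 * W)) (2 ^ α) ∧
    p.Prime ∧ q.Prime ∧ p < q ∧ 2 ^ β ≤ p

/-- numerical constraints in case A (`r ≥ 2`) and in the case `r = 1` -/
structure ConA (l W r α β : ℕ) : Prop where
  size : |(l : ℝ) * Real.log 2 - 2 * α * Real.log 2 - (2 * r - 1) * β * Real.log 2| ≤ 40 * (W : ℝ) ^ 2
  up : (α : ℝ) * Real.log 2 ≤ (1 + 1 / (512 * (W : ℝ) ^ 4)) * (β * Real.log 2) + 3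
  lo : (β : ℝ) * Real.log 2 - 10 * W ≤ α * Real.log 2
  big : l ≤ 4 * W * β
  grow : (2 : ℝ) ^ β * Real.exp (-4 * W) ≤ 4 * W * 2 ^ α

/-- Case B: `n = m * g * q * b₁ * b₂ * f` -/
def DataB (n l W k μ ν θ β : ℕ) : Prop :=
  ∃ m g q b₁ b₂ f : ℕ, n = m * g * q * b₁ * b₂ * f ∧ m ∈ Lset k W ((2 : ℝ) ^ θ) (2 ^ μ) ∧
    2 ^ ν ≤ g ∧ g < 2 ^ (ν + 1) ∧ q.Prime ∧ 2 ^ θ ≤ q ∧ q < 2 ^ (θ + 1) ∧
    (b₁ : ℝ) ≤ (2 : ℝ) ^ (((β : ℝ) - θ) / 2) * Real.exp (2 * W + 1) ∧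
    (b₂ : ℝ) ≤ (2 : ℝ) ^ (((β : ℝ) - θ) / 2) * Real.exp (2 * W + 1) ∧
    1 < f ∧ 2 ^ l ≤ (m * g * q * b₁ * b₂) ^ 2 ∧
    Real.log k - 2 * W / (2 : ℝ) ^ β < lam (m * g * q * b₁ * b₂)

/-- numerical constraints in case B -/
structure ConB (l W μ ν θ β : ℕ) : Prop where
  size : ((μ : ℝ) + ν) * Real.log 2 ≤ ((l : ℝ) / 2 - (β : ℝ) / 2) * Real.log 2 + 20 * W
  theta : β ≤ 2048 * W ^ 5 * θ
  third : 3 * (θ : ℝ) * Real.log 2 ≤ β * Real.log 2 + 10 * W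
  big : l ≤ 4 * W * β
  grow : (2 : ℝ) ^ θ ≤ 4 * W * 2 ^ μ

end Pool.Agent.Helper58.LT
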