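import Mathlib
import Pool.Agent.Helper58.LT.Defs

/-!
# FW2: energies over a finite group by characters

`G` finite commutative group, `χ : AddChar G ℂ` (Mathlib: `AddChar.sum_apply_eq_ite`,
`AddChar.card_eq`, `Fintype (AddChar G ℂ)`), `Sf T F χ = ∑ x ∈ T, χ (F x)`.

* `en_eq`: `‖S‖^2 = S * conj S = ∑_{x,y} χ (F x) * conj (χ (F y)) = ∑_{x,y} χ (F x - F y)`
  (`AddChar.map_sub_eq_conj`/`AddChar.map_neg_eq_conj`, unitary), sum over `χ` by
  `AddChar.sum_apply_eq_ite`.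
* `Sf_tup`: `∑ x ∈ piFinset, ∏ i, χ (f (x i)) = ∏ i, ∑ y ∈ I, χ (f y)` (`Finset.prod_univ_sum`).
-/

namespace Pool.Agent.Helper58.LT

open Finset

variable {τ υ ι κ G : Type*} [AddCommGroup G] [Fintype G] [DecidableEq G]

/-- character sum of a family -/
noncomputable def Sf (T : Finset τ) (F : τ → G) (χ : AddChar G ℂ) : ℂ := ∑ x ∈ T, χ (F x)

/-- the square of the norm -/
theorem norm_sq_Sf (T : Finset τ) (F : τ → G) (χ : AddChar G ℂ) :
    ((‖Sf T F χ‖ ^ 2 : ℝ) : ℂ) = ∑ z ∈ T ×ˢ T, χ (F z.1 - F z.2) := by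
  rw [← Complex.normSq_eq_norm_sq, ← Complex.mul_conj, Sf, map_sum, sum_mul_sum, ← sum_product']
  refine sum_congr rfl fun z _ => ?_
  rw [sub_eq_add_neg, AddChar.map_add_eq_mul, AddChar.map_neg_eq_conj]

theorem en_eq (T : Finset τ) (F : τ → G) :
    (en T F : ℝ) = (Fintype.card G : ℝ)⁻¹ * ∑ χ : AddChar G ℂ, ‖Sf T F χ‖ ^ 2 := by
  have hG : (Fintype.card G : ℂ) ≠ 0 := Nat.cast_ne_zero.2 Fintype.card_ne_zero
  have h : ((∑ χ : AddChar G ℂ, ‖Sf T F χ‖ ^ 2 : ℝ) : ℂ) = (Fintype.card G : ℂ) * (en T F : ℂ) := by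
    rw [Complex.ofReal_sum]
    simp only [norm_sq_Sf]
    rw [sum_comm]
    simp only [AddChar.sum_apply_eq_ite, sub_eq_zero]
    rw [← sum_filter, sum_const, nsmul_eq_mul, mul_comm]
    rfl
  have h2 : (((Fintype.card G : ℝ)⁻¹ * ∑ χ : AddChar G ℂ, ‖Sf T F χ‖ ^ 2 : ℝ) : ℂ) =
      ((en T F : ℝ) : ℂ) := by
    rw [Complex.ofReal_mul, h, Complex.ofReal_inv, Complex.ofReal_natCast, Complex.ofReal_natCast,
      inv_mul_cancel_left₀ hG]
  exact (Complex.ofReal_injective h2).symm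

theorem Sf_tup (I : Finset ι) (f : ι → G) (s : ℕ) (χ : AddChar G ℂ) :
    Sf (tup I s) (sm' f) χ = Sf I f χ ^ s := by
  classical
  unfold Sf tup sm'
  have h0 : ∀ (t : Finset (Fin s)) (x : Fin s → ι), χ (∑ i ∈ t, f (x i)) = ∏ i ∈ t, χ (f (x i)) := by
    intro t x
    induction t using Finset.induction_on with
    | empty => rw [sum_empty, prod_empty, AddChar.map_zero_eq_one]
    | insert i t hi ih => rw [sum_insert hi, prod_insert hi, AddChar.map_add_eq_mul, ih]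
  have h1 : ∀ x : Fin s → ι, χ (∑ i, f (x i)) = ∏ i, χ (f (x i)) := fun x => h0 _ x
  simp only [h1]
  rw [← prod_univ_sum (fun _ : Fin s => I) (fun _ y => χ (f y)), prod_const, card_univ,
    Fintype.card_fin]

theorem Sf_prod (T : Finset τ) (F : τ → G) (U : Finset υ) (H : υ → G) (χ : AddChar G ℂ) :
    Sf (T ×ˢ U) (fun z => F z.1 + H z.2) χ = Sf T F χ * Sf U H χ := by
  unfold Sf
  rw [sum_mul_sum, ← sum_product']
  refine sum_congr rfl fun z _ => ?_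
  rw [AddChar.map_add_eq_mul]

theorem mom_eq (I : Finset ι) (f : ι → G) (K : Finset κ) (g : κ → G) (a b : ℕ) :
    (mom I f K g a b : ℝ) = (Fintype.card G : ℝ)⁻¹ *
      ∑ χ : AddChar G ℂ, (‖Sf I f χ‖ ^ 2) ^ a * (‖Sf K g χ‖ ^ 2) ^ b := by
  unfold mom
  rw [en_eq]
  congr 1
  refine sum_congr rfl fun χ _ => ?_
  rw [Sf_prod, Sf_tup, Sf_tup, norm_mul, norm_pow, norm_pow, mul_pow, ← pow_mul, ← pow_mul,
    ← pow_mul, ← pow_mul, mul_comm a 2, mul_comm b 2]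

/-- `∑_χ 1 = |G|` -/
theorem card_char : (Fintype.card (AddChar G ℂ) : ℝ) = Fintype.card G := by
  rw [AddChar.card_eq]

end Pool.Agent.Helper58.LT
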