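import Mathlib

/-!
# FW3: Hölder's inequality for three functions (finite sums)

Proof of `holder3`.  Let `U = ∑ u`, `V = ∑ v`, `Z = ∑ w`.  If `U, V, Z > 0`: for every `i`, by
`Real.geom_mean_le_arith_mean3_weighted` with `u i / U`, `v i / V`, `w i / Z`:
`(u i/U)^a (v i/V)^b (w i/Z)^c ≤ a u i/U + b v i/V + c w i/Z`; sum over `i`: the right side sums to
`a + b + c = 1`; multiply by `U^a V^b Z^c` (`Real.div_rpow`, `Real.mul_rpow`).
If for example `U = 0` then all `u i = 0`; if `a ≠ 0` the left side is `0` (`Real.zero_rpow`), and the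
right side is `≥ 0`; if `a = 0` then `u i ^ a = 1 = U ^ a` and the inequality is the same with `u`
replaced by the constant function `1` on a nonempty set (or do the case distinction as follows:
replace each function with zero sum and zero exponent by the function `1`; if the index set is empty
the left side is `0`).  An alternative: apply the positive case to `u + ε`, `v + ε`, `w + ε` and let
`ε → 0` (all powers are continuous at `0` as the exponents are `≥ 0`... for exponent `0` the function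
`t ^ 0` is constantly `1`); `S` empty is trivial.
-/

namespace Pool.Agent.Helper58.LT

open Finset

private theorem normalise {ι : Type*} (S : Finset ι) (u : ι → ℝ) (hu : ∀ i ∈ S, 0 ≤ u i) (a : ℝ)
    (h : 0 < ∑ i ∈ S, u i ∨ a = 0) :
    ∃ u' : ι → ℝ, (∀ i ∈ S, 0 ≤ u' i) ∧ ∑ i ∈ S, u' i ≤ 1 ∧
      ∀ i ∈ S, u i ^ a = (∑ i ∈ S, u i) ^ a * u' i ^ a := by
  rcases h with h | h
  · refine ⟨fun i => u i / ∑ i ∈ S, u i, fun i hi => div_nonneg (hu i hi) h.le, ?_, ?_⟩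
    · rw [← Finset.sum_div, div_self h.ne']
    · intro i hi
      rw [← Real.mul_rpow h.le (div_nonneg (hu i hi) h.le), mul_div_cancel₀ _ h.ne']
  · subst h
    refine ⟨fun _ => 0, fun i _ => le_rfl, by simp, ?_⟩
    intro i _
    simp

private theorem zero_case {ι : Type*} (S : Finset ι) (u : ι → ℝ) (hu : ∀ i ∈ S, 0 ≤ u i) (a : ℝ)
    (h : ¬ (0 < ∑ i ∈ S, u i ∨ a = 0)) : ∀ i ∈ S, u i ^ a = 0 := by
  rw [not_or, not_lt] at h
  have h1 : ∑ i ∈ S, u i = 0 := le_antisymm h.1 (Finset.sum_nonneg hu)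
  intro i hi
  rw [(Finset.sum_eq_zero_iff_of_nonneg hu).1 h1 i hi, Real.zero_rpow h.2]

theorem holder3 {ι : Type*} (S : Finset ι) (u v w : ι → ℝ) (hu : ∀ i ∈ S, 0 ≤ u i)
    (hv : ∀ i ∈ S, 0 ≤ v i) (hw : ∀ i ∈ S, 0 ≤ w i) (a b c : ℝ) (ha : 0 ≤ a) (hb : 0 ≤ b)
    (hc : 0 ≤ c) (habc : a + b + c = 1) :
    ∑ i ∈ S, u i ^ a * v i ^ b * w i ^ c ≤
      (∑ i ∈ S, u i) ^ a * (∑ i ∈ S, v i) ^ b * (∑ i ∈ S, w i) ^ c := by
  have hU : 0 ≤ ∑ i ∈ S, u i := Finset.sum_nonneg hu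
  have hV : 0 ≤ ∑ i ∈ S, v i := Finset.sum_nonneg hv
  have hW : 0 ≤ ∑ i ∈ S, w i := Finset.sum_nonneg hw
  have hR : 0 ≤ (∑ i ∈ S, u i) ^ a * (∑ i ∈ S, v i) ^ b * (∑ i ∈ S, w i) ^ c :=
    mul_nonneg (mul_nonneg (Real.rpow_nonneg hU a) (Real.rpow_nonneg hV b))
      (Real.rpow_nonneg hW c)
  by_cases h1 : 0 < ∑ i ∈ S, u i ∨ a = 0
  swap
  · rw [Finset.sum_eq_zero]
    · exact hR
    · intro i hi
      rw [zero_case S u hu a h1 i hi]
      ring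
  by_cases h2 : 0 < ∑ i ∈ S, v i ∨ b = 0
  swap
  · rw [Finset.sum_eq_zero]
    · exact hR
    · intro i hi
      rw [zero_case S v hv b h2 i hi]
      ring
  by_cases h3 : 0 < ∑ i ∈ S, w i ∨ c = 0
  swap
  · rw [Finset.sum_eq_zero]
    · exact hR
    · intro i hi
      rw [zero_case S w hw c h3 i hi]
      ring
  obtain ⟨u', hu0, hu1, hu2⟩ := normalise S u hu a h1
  obtain ⟨v', hv0, hv1, hv2⟩ := normalise S v hv b h2
  obtain ⟨w', hw0, hw1, hw2⟩ := normalise S w hw c h3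
  have key : ∑ i ∈ S, u' i ^ a * v' i ^ b * w' i ^ c ≤ 1 := by
    calc ∑ i ∈ S, u' i ^ a * v' i ^ b * w' i ^ c
        ≤ ∑ i ∈ S, (a * u' i + b * v' i + c * w' i) := by
          apply Finset.sum_le_sum
          intro i hi
          exact Real.geom_mean_le_arith_mean3_weighted ha hb hc (hu0 i hi) (hv0 i hi) (hw0 i hi)
            habc
      _ = a * ∑ i ∈ S, u' i + b * ∑ i ∈ S, v' i + c * ∑ i ∈ S, w' i := by
          rw [Finset.sum_add_distrib, Finset.sum_add_distrib, Finset.mul_sum, Finset.mul_sum,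
            Finset.mul_sum]
      _ ≤ a * 1 + b * 1 + c * 1 :=
          add_le_add (add_le_add (mul_le_mul_of_nonneg_left hu1 ha)
            (mul_le_mul_of_nonneg_left hv1 hb)) (mul_le_mul_of_nonneg_left hw1 hc)
      _ = 1 := by linarith
  have heq : ∑ i ∈ S, u i ^ a * v i ^ b * w i ^ c =
      ((∑ i ∈ S, u i) ^ a * (∑ i ∈ S, v i) ^ b * (∑ i ∈ S, w i) ^ c) *
        ∑ i ∈ S, u' i ^ a * v' i ^ b * w' i ^ c := by
    rw [Finset.mul_sum]
    apply Finset.sum_congr rfl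
    intro i hi
    rw [hu2 i hi, hv2 i hi, hw2 i hi]
    ring
  rw [heq]
  exact mul_le_of_le_one_right hR key

/-- normalised form -/
theorem holder3' {ι : Type*} (S : Finset ι) (M : ℝ) (hM : 0 < M) (u v w : ι → ℝ)
    (hu : ∀ i ∈ S, 0 ≤ u i)
    (hv : ∀ i ∈ S, 0 ≤ v i) (hw : ∀ i ∈ S, 0 ≤ w i) (a b c : ℝ) (ha : 0 ≤ a) (hb : 0 ≤ b)
    (hc : 0 ≤ c) (habc : a + b + c = 1) :
    M⁻¹ * ∑ i ∈ S, u i ^ a * v i ^ b * w i ^ c ≤
      (M⁻¹ * ∑ i ∈ S, u i) ^ a * (M⁻¹ * ∑ i ∈ S, v i) ^ b * (M⁻¹ * ∑ i ∈ S, w i) ^ c := by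
  have hM' : 0 < M⁻¹ := inv_pos.2 hM
  have hU : 0 ≤ ∑ i ∈ S, u i := Finset.sum_nonneg hu
  have hV : 0 ≤ ∑ i ∈ S, v i := Finset.sum_nonneg hv
  have hW : 0 ≤ ∑ i ∈ S, w i := Finset.sum_nonneg hw
  rw [Real.mul_rpow hM'.le hU, Real.mul_rpow hM'.le hV, Real.mul_rpow hM'.le hW]
  have h1 : M⁻¹ ^ a * M⁻¹ ^ b * M⁻¹ ^ c = M⁻¹ := by
    rw [← Real.rpow_add hM', ← Real.rpow_add hM', habc, Real.rpow_one]
  have h2 := mul_le_mul_of_nonneg_left (holder3 S u v w hu hv hw a b c ha hb hc habc) hM'.le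
  refine h2.trans (le_of_eq ?_)
  calc M⁻¹ * ((∑ i ∈ S, u i) ^ a * (∑ i ∈ S, v i) ^ b * (∑ i ∈ S, w i) ^ c)
      = (M⁻¹ ^ a * M⁻¹ ^ b * M⁻¹ ^ c) *
        ((∑ i ∈ S, u i) ^ a * (∑ i ∈ S, v i) ^ b * (∑ i ∈ S, w i) ^ c) := by rw [h1]
    _ = _ := by ring

/-- power mean: `(∑ u)^n ≤ |S|^(n-1) ∑ u^n` for `u ≥ 0` (Mathlib: `inner_le_nnorm_mul_nnorm`,
`Real.inner_le_...`, or `inv_pow_le...`: `Finset.pow_arith_mean_le_arith_mean_pow`,
`inner_le..`, `Real.pow_sum_div_card_le_sum_pow`) -/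
theorem pow_sum_le {ι : Type*} (S : Finset ι) (u : ι → ℝ) (hu : ∀ i ∈ S, 0 ≤ u i) (n : ℕ)
    (hn : 1 ≤ n) : (∑ i ∈ S, u i) ^ n ≤ (#S : ℝ) ^ (n - 1) * ∑ i ∈ S, u i ^ n := by
  obtain ⟨m, rfl⟩ : ∃ m, n = m + 1 := ⟨n - 1, by omega⟩
  exact pow_sum_le_card_mul_sum_pow hu m

end Pool.Agent.Helper58.LT
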