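import Mathlib
import Pool.Agent.Helper58.LT.Defs

/-!
# FW1: positivity of the energy (elementary; no characters)

Everything follows from `r u := #{x ∈ T | F x = u}`:
`en T F = ∑ y ∈ T, r (F y)`; more generally `#{z ∈ T ×ˢ T | F z.1 = F z.2 + v} = ∑ y ∈ T, r (F y + v)
= ∑_{u} r u * r (u + v)` (sum over `u ∈ T.image F`), and `2 r u r (u+v) ≤ r u ^ 2 + r (u+v) ^ 2`,
and `∑_u r u ^ 2 = en T F` over any finite set of `u` is at most `en T F`
(for a finite set `V` of values, `∑ u ∈ V, r u ^ 2 = #{z ∈ T ×ˢ T | F z.1 = F z.2 ∧ F z.1 ∈ V}`).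

* `card_sum_sq_le`: `#{z ∈ T ×ˢ U | F z.1 + G z.2 = u} = ∑_{v ∈ T.image F} r_F v * r_G (u - v)`, then
  Cauchy-Schwarz (`Finset.sum_mul_sq_le_sq_mul_sq`).
* `en_prod_le`: for fixed `x, x' ∈ T` the number of `(y,y')` with `F x + G y = F x' + G y'` is
  `#{z ∈ U ×ˢ U | G z.1 = G z.2 + (F x' - F x)} ≤ en U G`; sum over `#T ^ 2` pairs.
-/

namespace Pool.Agent.Helper58.LT

open Finset

variable {τ υ A : Type*} [AddCommGroup A] [DecidableEq A]

theorem en_mono {T T' : Finset τ} (h : T ⊆ T') (F : τ → A) : en T F ≤ en T' F := by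
  unfold en
  exact card_le_card (filter_subset_filter _ (product_subset_product h h))

omit [AddCommGroup A] in
theorem pos_sum_sq (T : Finset τ) (F : τ → A) (V : Finset A) :
    ∑ w ∈ V, #{x ∈ T | F x = w} ^ 2 ≤ en T F := by
  have h1 : #{z ∈ T ×ˢ T | F z.1 = F z.2 ∧ F z.1 ∈ V} = ∑ w ∈ V, #{x ∈ T | F x = w} ^ 2 := by
    rw [card_eq_sum_card_fiberwise (f := fun z : τ × τ => F z.1) (t := V)]
    · refine sum_congr rfl fun w hw => ?_
      rw [sq, ← card_product]
      congr 1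
      ext ⟨x, y⟩
      simp only [mem_filter, mem_product]
      constructor
      · rintro ⟨⟨⟨hx, hy⟩, h2, h3⟩, h4⟩
        exact ⟨⟨hx, h4⟩, hy, h2.symm.trans h4⟩
      · rintro ⟨⟨hx, h4⟩, hy, h5⟩
        exact ⟨⟨⟨hx, hy⟩, h4.trans h5.symm, by rw [h4]; exact hw⟩, h4⟩
    · intro z hz
      exact (mem_filter.1 hz).2.2
  rw [← h1]
  unfold en
  refine card_le_card ?_
  intro z hz
  rw [mem_filter] at hz ⊢
  exact ⟨hz.1, hz.2.1⟩

omit [AddCommGroup A] in
theorem pos_card_product (T : Finset τ) (U : Finset υ) (P : τ → υ → Prop)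
    [∀ x y, Decidable (P x y)] :
    #{z ∈ T ×ˢ U | P z.1 z.2} = ∑ x ∈ T, #{y ∈ U | P x y} := by
  rw [card_filter, sum_product]
  refine sum_congr rfl fun x _ => ?_
  rw [card_filter]

theorem pos_conv (T : Finset τ) (F : τ → A) (U : Finset υ) (G : υ → A) (u : A) :
    #{z ∈ T ×ˢ U | F z.1 + G z.2 = u} =
      ∑ w ∈ T.image F, #{x ∈ T | F x = w} * #{y ∈ U | G y = u - w} := by
  rw [pos_card_product T U (fun x y => F x + G y = u)]
  have h1 : ∀ x ∈ T, #{y ∈ U | F x + G y = u} = #{y ∈ U | G y = u - F x} := by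
    intro x _
    congr 1
    refine filter_congr fun y _ => ?_
    rw [eq_sub_iff_add_eq, add_comm]
  rw [sum_congr rfl h1, sum_comp (fun w => #{y ∈ U | G y = u - w}) F]
  refine sum_congr rfl fun w _ => ?_
  rw [smul_eq_mul]

theorem en_shift_le (T : Finset τ) (F : τ → A) (v : A) :
    #{z ∈ T ×ˢ T | F z.1 = F z.2 + v} ≤ en T F := by
  have h0 : #{z ∈ T ×ˢ T | F z.1 = F z.2 + v} =
      #{z ∈ T ×ˢ T | F z.1 + (fun y => - F y) z.2 = v} := by
    congr 1
    refine filter_congr fun z _ => ?_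
    rw [← sub_eq_add_neg, sub_eq_iff_eq_add, add_comm]
  rw [h0, pos_conv T F T (fun y => - F y) v]
  have h1 : ∀ w : A, #{y ∈ T | (fun y => - F y) y = v - w} = #{y ∈ T | F y = w - v} := by
    intro w
    congr 1
    refine filter_congr fun y _ => ?_
    rw [neg_eq_iff_eq_neg, neg_sub]
  simp only [h1]
  have h2 : 2 * ∑ w ∈ T.image F, #{x ∈ T | F x = w} * #{y ∈ T | F y = w - v} ≤
      ∑ w ∈ T.image F, #{x ∈ T | F x = w} ^ 2 + ∑ w ∈ T.image F, #{x ∈ T | F x = w - v} ^ 2 := by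
    rw [mul_sum, ← sum_add_distrib]
    refine sum_le_sum fun w _ => ?_
    rw [← mul_assoc]
    exact two_mul_le_add_sq _ _
  have h3 := pos_sum_sq T F (T.image F)
  have h4 : ∑ w ∈ T.image F, #{x ∈ T | F x = w - v} ^ 2 ≤ en T F := by
    have h5 := pos_sum_sq T F ((T.image F).image (fun w => w - v))
    rw [sum_image (fun x _ y _ h => sub_left_injective h)] at h5
    exact h5
  omega

theorem card_fiber_sq_le (T : Finset τ) (F : τ → A) (u : A) :
    #{x ∈ T | F x = u} ^ 2 ≤ en T F := by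
  have h := pos_sum_sq T F {u}
  rwa [sum_singleton] at h

theorem card_sum_sq_le (T : Finset τ) (F : τ → A) (U : Finset υ) (G : υ → A) (u : A) :
    #{z ∈ T ×ˢ U | F z.1 + G z.2 = u} ^ 2 ≤ en T F * en U G := by
  rw [pos_conv]
  refine (sum_mul_sq_le_sq_mul_sq (T.image F) (fun w => #{x ∈ T | F x = w})
    (fun w => #{y ∈ U | G y = u - w})).trans ?_
  refine Nat.mul_le_mul (pos_sum_sq T F _) ?_
  have h5 := pos_sum_sq U G ((T.image F).image (fun w => u - w))
  rw [sum_image (fun x _ y _ h => sub_right_injective h)] at h5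
  exact h5

theorem en_prod_le (T : Finset τ) (F : τ → A) (U : Finset υ) (G : υ → A) :
    en (T ×ˢ U) (fun z => F z.1 + G z.2) ≤ #T ^ 2 * en U G := by
  classical
  unfold en
  have h := card_le_mul_card_image_of_maps_to
    (s := {z ∈ (T ×ˢ U) ×ˢ (T ×ˢ U) | F z.1.1 + G z.1.2 = F z.2.1 + G z.2.2})
    (t := T ×ˢ T) (f := fun z : (τ × υ) × (τ × υ) => (z.1.1, z.2.1)) (by
      intro z hz
      rw [mem_filter, mem_product, mem_product, mem_product] at hz
      exact mem_product.2 ⟨hz.1.1.1, hz.1.2.1⟩) (en U G) (by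
      rintro ⟨x, x'⟩ _
      refine le_trans ?_ (en_shift_le U G (F x' - F x))
      refine card_le_card_of_injOn (fun z : (τ × υ) × (τ × υ) => (z.1.2, z.2.2)) ?_ ?_
      · rintro ⟨⟨a, b⟩, a', b'⟩ hz
        simp only [coe_filter, mem_filter, mem_product, Set.mem_ofPred_eq, Prod.mk.injEq] at hz ⊢
        obtain ⟨⟨⟨⟨h1, h2⟩, h3, h4⟩, h5⟩, rfl, rfl⟩ := hz
        refine ⟨⟨h2, h4⟩, ?_⟩
        have h6 : G b = F a' + G b' - F a := by
          rw [← h5]
          abel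
        rw [h6]
        abel
      · rintro ⟨⟨a, b⟩, a', b'⟩ hz ⟨⟨c, d⟩, c', d'⟩ hw heq
        simp only [coe_filter, mem_filter, mem_product, Set.mem_ofPred_eq, Prod.mk.injEq] at hz hw heq
        obtain ⟨-, rfl, rfl⟩ := hz
        obtain ⟨-, rfl, rfl⟩ := hw
        obtain ⟨rfl, rfl⟩ := heq
        rfl)
  rw [card_product] at h
  refine h.trans (le_of_eq ?_)
  unfold en
  ring

/-- the diagonal -/
theorem card_le_en (T : Finset τ) (F : τ → A) : #T ≤ en T F := by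
  unfold en
  refine card_le_card_of_injOn (fun x => (x, x)) ?_ ?_
  · intro x hx
    simp only [coe_filter, mem_product, Set.mem_ofPred_eq, and_true]
    exact ⟨hx, hx⟩
  · intro x _ y _ h
    exact congrArg Prod.fst h

theorem en_le_card_sq (T : Finset τ) (F : τ → A) : en T F ≤ #T ^ 2 := by
  unfold en
  refine (card_filter_le _ _).trans ?_
  rw [card_product, sq]

/-- composition with an injective homomorphism does not change the energy -/
theorem en_comp_injective {B : Type*} [AddCommGroup B] [DecidableEq B] (φ : A →+ B)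
    (hφ : Function.Injective φ) (T : Finset τ) (F : τ → A) : en T (fun x => φ (F x)) = en T F := by
  unfold en
  congr 1
  refine filter_congr fun z _ => ?_
  exact hφ.eq_iff

theorem mom_zero_left {ι κ : Type*} (I : Finset ι) (f : ι → A) (K : Finset κ) (g : κ → A) (b : ℕ) :
    mom I f K g 0 b = Js K g b := by
  unfold mom Js en
  have h0 : ∀ x : Fin 0 → ι, sm' f x = 0 := fun x => by simp [sm']
  have hm : ∀ x : Fin 0 → ι, x ∈ tup I 0 := fun x => mem_tup.2 fun i => i.elim0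
  refine card_nbij' (fun z => (z.1.2, z.2.2))
    (fun w => ((Fin.elim0, w.1), (Fin.elim0, w.2))) ?_ ?_ ?_ ?_
  · rintro ⟨⟨a, b⟩, a', b'⟩ hz
    simp only [coe_filter, mem_product, Set.mem_ofPred_eq, h0, zero_add] at hz ⊢
    exact ⟨⟨hz.1.1.2, hz.1.2.2⟩, hz.2⟩
  · rintro ⟨b, b'⟩ hz
    simp only [coe_filter, mem_product, Set.mem_ofPred_eq, h0, zero_add] at hz ⊢
    exact ⟨⟨⟨hm _, hz.1.1⟩, hm _, hz.1.2⟩, hz.2⟩
  · rintro ⟨⟨a, b⟩, a', b'⟩ hz
    simp only [Prod.mk.injEq, and_true]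
    exact ⟨Subsingleton.elim _ _, Subsingleton.elim _ _⟩
  · rintro ⟨b, b'⟩ hz
    rfl

theorem mom_zero_right {ι κ : Type*} (I : Finset ι) (f : ι → A) (K : Finset κ) (g : κ → A) (a : ℕ) :
    mom I f K g a 0 = Js I f a := by
  unfold mom Js en
  have h0 : ∀ x : Fin 0 → κ, sm' g x = 0 := fun x => by simp [sm']
  have hm : ∀ x : Fin 0 → κ, x ∈ tup K 0 := fun x => mem_tup.2 fun i => i.elim0
  refine card_nbij' (fun z => (z.1.1, z.2.1))
    (fun w => ((w.1, Fin.elim0), (w.2, Fin.elim0))) ?_ ?_ ?_ ?_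
  · rintro ⟨⟨a, b⟩, a', b'⟩ hz
    simp only [coe_filter, mem_product, Set.mem_ofPred_eq, h0, add_zero] at hz ⊢
    exact ⟨⟨hz.1.1.1, hz.1.2.1⟩, hz.2⟩
  · rintro ⟨b, b'⟩ hz
    simp only [coe_filter, mem_product, Set.mem_ofPred_eq, h0, add_zero] at hz ⊢
    exact ⟨⟨⟨hz.1.1, hm _⟩, hz.1.2, hm _⟩, hz.2⟩
  · rintro ⟨⟨a, b⟩, a', b'⟩ hz
    simp only [Prod.mk.injEq, true_and]
    exact ⟨Subsingleton.elim _ _, Subsingleton.elim _ _⟩
  · rintro ⟨b, b'⟩ hz
    rfl

end Pool.Agent.Helper58.LT
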