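import Mathlib
import Pool.Agent.Helper58.LT.Defs

/-!
# FW4: from `ℤ^k` to a finite group

Reduction modulo a large integer is injective on a given finite set of vectors, so energies can be
computed in a finite group.
-/

namespace Pool.Agent.Helper58.LT

open Finset

/-- reduction modulo `M`, coordinate by coordinate -/
def red (k M : ℕ) : (Fin k → ℤ) →+ (Fin k → ZMod M) where
  toFun v := fun j => (v j : ZMod M)
  map_zero' := by ext j; simp
  map_add' v w := by ext j; simp

theorem exists_red {k : ℕ} (B : Finset (Fin k → ℤ)) :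
    ∃ M : ℕ, M ≠ 0 ∧ ∀ v ∈ B, red k M v = 0 → v = 0 := by
  refine ⟨1 + ∑ v ∈ B, ∑ j, (v j).natAbs, by omega, ?_⟩
  intro v hv h
  funext j
  have h1 : ((v j : ℤ) : ZMod (1 + ∑ v ∈ B, ∑ j, (v j).natAbs)) = 0 := congrFun h j
  rw [ZMod.intCast_zmod_eq_zero_iff_dvd] at h1
  have h2 : (v j).natAbs ≤ ∑ j, (v j).natAbs :=
    Finset.single_le_sum (f := fun j => (v j).natAbs) (fun _ _ => Nat.zero_le _) (mem_univ j)
  have h3 : ∑ j, (v j).natAbs ≤ ∑ v ∈ B, ∑ j, (v j).natAbs :=
    Finset.single_le_sum (f := fun v : Fin k → ℤ => ∑ j, (v j).natAbs)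
      (fun _ _ => Nat.zero_le _) hv
  have h4 : (v j).natAbs < 1 + ∑ v ∈ B, ∑ j, (v j).natAbs := by omega
  have h5 := Int.natCast_dvd.mp h1
  have h6 := Nat.eq_zero_of_dvd_of_lt h5 h4
  simpa using h6

theorem en_red {τ : Type*} {k M : ℕ} (T : Finset τ) (F : τ → Fin k → ℤ)
    (h : ∀ x ∈ T, ∀ y ∈ T, red k M (F x - F y) = 0 → F x = F y) :
    en T (fun x => red k M (F x)) = en T F := by
  unfold en
  congr 1
  apply Finset.filter_congr
  rintro ⟨x, y⟩ hz
  rw [mem_product] at hz
  constructor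
  · intro h1
    apply h x hz.1 y hz.2
    rw [map_sub]
    exact sub_eq_zero.mpr h1
  · intro h1
    show red k M (F x) = red k M (F y)
    have : F x = F y := h1
    rw [this]

/-- the reduction commutes with sums along tuples -/
theorem red_sm' {ι : Type*} {k M s : ℕ} (f : ι → Fin k → ℤ) (x : Fin s → ι) :
    red k M (sm' f x) = sm' (fun i => red k M (f i)) x := by
  unfold sm'
  rw [map_sum]

end Pool.Agent.Helper58.LT
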