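import Mathlib
import Pool.Agent.Helper58.LT.Pos
import Pool.Agent.Helper58.LT.FourG
import Pool.Agent.Helper58.LT.Holder3
import Pool.Agent.Helper58.LT.Transfer

/-!
# FW5: convexity of the mixed moments

The mixed moments are averages over the characters of a finite group, so they are logarithmically
convex in the two exponents (Hölder's inequality for three functions).  Over `ℤ^k` and `ℤ` this
follows by reduction modulo a large integer.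
-/

namespace Pool.Agent.Helper58.LT

open Finset

theorem pow_split {u : ℝ} (hu : 0 ≤ u) (a a1 a2 a3 : ℕ) (c1 c2 c3 : ℝ) (h1 : 0 ≤ c1)
    (h2 : 0 ≤ c2) (h3 : 0 ≤ c3) (ha : (a : ℝ) = c1 * a1 + c2 * a2 + c3 * a3) :
    u ^ a = (u ^ a1) ^ c1 * (u ^ a2) ^ c2 * (u ^ a3) ^ c3 := by
  have key : ∀ (n : ℕ) (c : ℝ), (u ^ n) ^ c = u ^ ((c : ℝ) * n) := by
    intro n c
    rw [← Real.rpow_natCast, ← Real.rpow_mul hu, mul_comm]
  rw [key, key, key, ← Real.rpow_natCast, ha]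
  have e1 : 0 ≤ c1 * (a1 : ℝ) := mul_nonneg h1 (Nat.cast_nonneg _)
  have e2 : 0 ≤ c2 * (a2 : ℝ) := mul_nonneg h2 (Nat.cast_nonneg _)
  have e3 : 0 ≤ c3 * (a3 : ℝ) := mul_nonneg h3 (Nat.cast_nonneg _)
  rw [Real.rpow_add_of_nonneg hu (add_nonneg e1 e2) e3, Real.rpow_add_of_nonneg hu e1 e2]

theorem mom_convex_G {ι κ G : Type*} [AddCommGroup G] [Fintype G] [DecidableEq G]
    (I : Finset ι) (f : ι → G) (K : Finset κ) (g : κ → G)
    (a b a1 b1 a2 b2 a3 b3 : ℕ) (c1 c2 c3 : ℝ) (h1 : 0 ≤ c1) (h2 : 0 ≤ c2) (h3 : 0 ≤ c3)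
    (hc : c1 + c2 + c3 = 1) (ha : (a : ℝ) = c1 * a1 + c2 * a2 + c3 * a3)
    (hb : (b : ℝ) = c1 * b1 + c2 * b2 + c3 * b3) :
    (mom I f K g a b : ℝ) ≤ (mom I f K g a1 b1 : ℝ) ^ c1 * (mom I f K g a2 b2 : ℝ) ^ c2 *
      (mom I f K g a3 b3 : ℝ) ^ c3 := by
  rw [mom_eq, mom_eq, mom_eq, mom_eq]
  have hG : (0 : ℝ) < (Fintype.card G : ℝ) := by
    have : Nonempty G := ⟨0⟩
    exact_mod_cast Fintype.card_pos
  have hpt : ∀ χ : AddChar G ℂ, (‖Sf I f χ‖ ^ 2) ^ a * (‖Sf K g χ‖ ^ 2) ^ b =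
      ((‖Sf I f χ‖ ^ 2) ^ a1 * (‖Sf K g χ‖ ^ 2) ^ b1) ^ c1 *
      ((‖Sf I f χ‖ ^ 2) ^ a2 * (‖Sf K g χ‖ ^ 2) ^ b2) ^ c2 *
      ((‖Sf I f χ‖ ^ 2) ^ a3 * (‖Sf K g χ‖ ^ 2) ^ b3) ^ c3 := by
    intro χ
    have hu : (0 : ℝ) ≤ ‖Sf I f χ‖ ^ 2 := by positivity
    have hv : (0 : ℝ) ≤ ‖Sf K g χ‖ ^ 2 := by positivity
    rw [pow_split hu a a1 a2 a3 c1 c2 c3 h1 h2 h3 ha, pow_split hv b b1 b2 b3 c1 c2 c3 h1 h2 h3 hb,
      Real.mul_rpow (pow_nonneg hu _) (pow_nonneg hv _),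
      Real.mul_rpow (pow_nonneg hu _) (pow_nonneg hv _),
      Real.mul_rpow (pow_nonneg hu _) (pow_nonneg hv _)]
    ring
  rw [Finset.sum_congr rfl (fun χ _ => hpt χ)]
  exact holder3' univ (Fintype.card G : ℝ) hG
    (fun χ : AddChar G ℂ => (‖Sf I f χ‖ ^ 2) ^ a1 * (‖Sf K g χ‖ ^ 2) ^ b1)
    (fun χ : AddChar G ℂ => (‖Sf I f χ‖ ^ 2) ^ a2 * (‖Sf K g χ‖ ^ 2) ^ b2)
    (fun χ : AddChar G ℂ => (‖Sf I f χ‖ ^ 2) ^ a3 * (‖Sf K g χ‖ ^ 2) ^ b3)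
    (fun _ _ => by positivity) (fun _ _ => by positivity) (fun _ _ => by positivity)
    c1 c2 c3 h1 h2 h3 hc

private theorem cvx_mom_red {ι κ : Type*} {k M : ℕ} (I : Finset ι) (f : ι → Fin k → ℤ)
    (K : Finset κ) (g : κ → Fin k → ℤ) (a b : ℕ) (B : Finset (Fin k → ℤ))
    (hM : ∀ v ∈ B, red k M v = 0 → v = 0)
    (hB : ((tup I a ×ˢ tup K b) ×ˢ (tup I a ×ˢ tup K b)).image
      (fun z => (sm' f z.1.1 + sm' g z.1.2) - (sm' f z.2.1 + sm' g z.2.2)) ⊆ B) :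
    mom I (fun i => red k M (f i)) K (fun i => red k M (g i)) a b = mom I f K g a b := by
  unfold mom
  rw [← en_red (M := M) (tup I a ×ˢ tup K b) (fun z => sm' f z.1 + sm' g z.2)]
  · congr 1
    funext z
    rw [map_add, red_sm', red_sm']
  · intro x hx y hy h
    have := hM _ (hB (mem_image.mpr ⟨(x, y), mem_product.mpr ⟨hx, hy⟩, rfl⟩)) h
    exact sub_eq_zero.mp this

theorem mom_convex {ι κ : Type*} {k : ℕ}
    (I : Finset ι) (f : ι → Fin k → ℤ) (K : Finset κ) (g : κ → Fin k → ℤ)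
    (a b a1 b1 a2 b2 a3 b3 : ℕ) (c1 c2 c3 : ℝ) (h1 : 0 ≤ c1) (h2 : 0 ≤ c2) (h3 : 0 ≤ c3)
    (hc : c1 + c2 + c3 = 1) (ha : (a : ℝ) = c1 * a1 + c2 * a2 + c3 * a3)
    (hb : (b : ℝ) = c1 * b1 + c2 * b2 + c3 * b3) :
    (mom I f K g a b : ℝ) ≤ (mom I f K g a1 b1 : ℝ) ^ c1 * (mom I f K g a2 b2 : ℝ) ^ c2 *
      (mom I f K g a3 b3 : ℝ) ^ c3 := by
  classical
  let D : ℕ → ℕ → Finset (Fin k → ℤ) := fun a b =>
    ((tup I a ×ˢ tup K b) ×ˢ (tup I a ×ˢ tup K b)).image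
      (fun z => (sm' f z.1.1 + sm' g z.1.2) - (sm' f z.2.1 + sm' g z.2.2))
  obtain ⟨M, hM0, hM⟩ := exists_red (D a b ∪ D a1 b1 ∪ D a2 b2 ∪ D a3 b3)
  haveI : NeZero M := ⟨hM0⟩
  have h := mom_convex_G I (fun i => red k M (f i)) K (fun i => red k M (g i))
    a b a1 b1 a2 b2 a3 b3 c1 c2 c3 h1 h2 h3 hc ha hb
  have e0 := cvx_mom_red I f K g a b _ hM (by
    show D a b ⊆ _
    intro x hx
    simp only [mem_union]
    exact Or.inl (Or.inl (Or.inl hx)))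
  have e1 := cvx_mom_red I f K g a1 b1 _ hM (by
    show D a1 b1 ⊆ _
    intro x hx
    simp only [mem_union]
    exact Or.inl (Or.inl (Or.inr hx)))
  have e2 := cvx_mom_red I f K g a2 b2 _ hM (by
    show D a2 b2 ⊆ _
    intro x hx
    simp only [mem_union]
    exact Or.inl (Or.inr hx))
  have e3 := cvx_mom_red I f K g a3 b3 _ hM (by
    show D a3 b3 ⊆ _
    intro x hx
    simp only [mem_union]
    exact Or.inr hx)
  have f0 : (mom I (fun i => red k M (f i)) K (fun i => red k M (g i)) a b : ℝ) =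
      (mom I f K g a b : ℝ) := by rw [← e0]
  have f1 : (mom I (fun i => red k M (f i)) K (fun i => red k M (g i)) a1 b1 : ℝ) =
      (mom I f K g a1 b1 : ℝ) := by rw [← e1]
  have f2 : (mom I (fun i => red k M (f i)) K (fun i => red k M (g i)) a2 b2 : ℝ) =
      (mom I f K g a2 b2 : ℝ) := by rw [← e2]
  have f3 : (mom I (fun i => red k M (f i)) K (fun i => red k M (g i)) a3 b3 : ℝ) =
      (mom I f K g a3 b3 : ℝ) := by rw [← e3]
  rw [f0, f1, f2, f3] at h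
  exact h

private theorem cvx_sm'_comp {ι A B : Type*} [AddCommGroup A] [AddCommGroup B] (φ : A →+ B)
    (f : ι → A) {s : ℕ} (x : Fin s → ι) : φ (sm' f x) = sm' (fun i => φ (f i)) x := by
  unfold sm'
  rw [map_sum]

theorem mom_convex_int {ι κ : Type*}
    (I : Finset ι) (f : ι → ℤ) (K : Finset κ) (g : κ → ℤ)
    (a b a1 b1 a2 b2 a3 b3 : ℕ) (c1 c2 c3 : ℝ) (h1 : 0 ≤ c1) (h2 : 0 ≤ c2) (h3 : 0 ≤ c3)
    (hc : c1 + c2 + c3 = 1) (ha : (a : ℝ) = c1 * a1 + c2 * a2 + c3 * a3)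
    (hb : (b : ℝ) = c1 * b1 + c2 * b2 + c3 * b3) :
    (mom I f K g a b : ℝ) ≤ (mom I f K g a1 b1 : ℝ) ^ c1 * (mom I f K g a2 b2 : ℝ) ^ c2 *
      (mom I f K g a3 b3 : ℝ) ^ c3 := by
  classical
  let φ : ℤ →+ (Fin 1 → ℤ) :=
    { toFun := fun n _ => n
      map_zero' := rfl
      map_add' := fun _ _ => rfl }
  have hφ : Function.Injective φ := fun m n h => congrFun h 0
  have key : ∀ a b : ℕ, mom I (fun i => φ (f i)) K (fun i => φ (g i)) a b = mom I f K g a b := by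
    intro a b
    unfold mom
    rw [← en_comp_injective φ hφ (tup I a ×ˢ tup K b) (fun z => sm' f z.1 + sm' g z.2)]
    congr 1
    funext z
    rw [map_add, cvx_sm'_comp, cvx_sm'_comp]
  have h := mom_convex I (fun i => φ (f i)) K (fun i => φ (g i))
    a b a1 b1 a2 b2 a3 b3 c1 c2 c3 h1 h2 h3 hc ha hb
  have key' : ∀ a b : ℕ, (mom I (fun i => φ (f i)) K (fun i => φ (g i)) a b : ℝ) =
      (mom I f K g a b : ℝ) := by
    intro a b
    rw [← key a b]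
  rw [key', key', key', key'] at h
  exact h

end Pool.Agent.Helper58.LT
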