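import Mathlib
import Pool.Agent.Helper58.LT.Ratio

/-!
# KB3: Sidon property of the primes, and the count for products of squarefree numbers

`sidon_primes`: `spacing_psi` with `Z = P^(2r)` gives `∏ x i = ∏ y i`; both are products of `r` primes, so
the multisets agree (`Nat.factors`/`UniqueFactorizationMonoid`: `Nat.primeFactorsList_prod`,
`Nat.primeFactorsList_unique`, or `Multiset` version `PrimeMultiset`/`normalizedFactors`; e.g. the
multiset `univ.val.map x` consists of primes and has product `∏ x i`).
`Js_primes`: for `x` fixed the number of `y` with the same multiset is at most `r!`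
(`y` is determined by the permutation `σ` with `y = x ∘ σ`: injection of the set of such `y` into
`Equiv.Perm (Fin r)`).
`Js_sqfree`: `Λ` a set of squarefree numbers `≤ a` with at most `W` prime factors.  For `x, y ∈ Λ^r` with
`∑ ψ(x i) = ∑ ψ(y i)`, `spacing_psi` with `Z = a^(2r)` gives `∏ x i = ∏ y i =: m`.  For `x` fixed, `y` is
determined by the function `p ↦ {i | p ∣ y i}` on the set of prime factors of `m`
(`y i = ∏_{p ∣ y i} p`, all prime factors of `y i` divide `m`), and `m` has at most `r W` prime factors;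
so there are at most `(2^r)^(r W)` such `y`.
-/

namespace Pool.Agent.Helper58.LT

open Finset

private theorem prod_le_pow {r P : ℕ} (x : Fin r → ℕ) (hx : ∀ i, x i ≤ P) : ∏ i, x i ≤ P ^ r := by
  calc ∏ i, x i ≤ ∏ _i : Fin r, P := Finset.prod_le_prod' (fun i _ => hx i)
    _ = P ^ r := by simp

theorem sidon_primes {r N P : ℕ} (hr : 1 ≤ r) (hN : 2 * r * P ^ (2 * r) ≤ N) (x y : Fin r → ℕ)
    (hx : ∀ i, (x i).Prime ∧ x i ≤ P) (hy : ∀ i, (y i).Prime ∧ y i ≤ P)
    (h : sm' (psi N) x = sm' (psi N) y) :
    (univ : Finset (Fin r)).val.map x = (univ : Finset (Fin r)).val.map y := by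
  have hZ : ((∏ i, x i : ℕ) : ℝ) * ((∏ j, y j : ℕ) : ℝ) ≤ ((P ^ (2 * r) : ℕ) : ℝ) := by
    have h1 := prod_le_pow x (fun i => (hx i).2)
    have h2 := prod_le_pow y (fun i => (hy i).2)
    have h3 : (∏ i, x i) * (∏ j, y j) ≤ P ^ (2 * r) := by
      calc (∏ i, x i) * (∏ j, y j) ≤ P ^ r * P ^ r := Nat.mul_le_mul h1 h2
        _ = P ^ (2 * r) := by rw [two_mul, pow_add]
    exact_mod_cast h3
  have hN' : 2 * (r : ℝ) * ((P ^ (2 * r) : ℕ) : ℝ) ≤ N := by exact_mod_cast hN
  have hprod := spacing_psi x y (fun i => (hx i).1.squarefree) (fun i => (hy i).1.squarefree) hr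
    hZ hN' h
  rw [Fin.univ_val_map, Fin.univ_val_map, Multiset.coe_eq_coe]
  have e1 : List.Perm (List.ofFn x) (Nat.primeFactorsList (∏ i, x i)) := by
    apply Nat.primeFactorsList_unique
    · rw [List.prod_ofFn]
    · intro p hp
      rw [List.mem_ofFn] at hp
      obtain ⟨i, rfl⟩ := hp
      exact (hx i).1
  have e2 : List.Perm (List.ofFn y) (Nat.primeFactorsList (∏ i, y i)) := by
    apply Nat.primeFactorsList_unique
    · rw [List.prod_ofFn]
    · intro p hp
      rw [List.mem_ofFn] at hp
      obtain ⟨i, rfl⟩ := hp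
      exact (hy i).1
  rw [hprod] at e1
  exact e1.trans e2.symm

private theorem exists_perm {ι : Type*} [DecidableEq ι] {r : ℕ} (x y : Fin r → ι)
    (h : (univ : Finset (Fin r)).val.map x = (univ : Finset (Fin r)).val.map y) :
    ∃ σ : Equiv.Perm (Fin r), y = x ∘ σ := by
  classical
  have h1 : ∀ v, Fintype.card {i // y i = v} = Fintype.card {i // x i = v} := by
    intro v
    have h2 := congrArg (Multiset.count v) h
    rw [Multiset.count_map, Multiset.count_map] at h2
    rw [Fintype.card_subtype, Fintype.card_subtype]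
    have e1 : ∀ z : Fin r → ι, #{i | z i = v} =
        Multiset.card (Multiset.filter (fun a => v = z a) (univ : Finset (Fin r)).val) := by
      intro z
      rw [Finset.card_def, Finset.filter_val]
      congr 1
      apply Multiset.filter_congr
      intro a _
      exact eq_comm
    rw [e1 x, e1 y]
    exact h2.symm
  let σ : Equiv.Perm (Fin r) := (Equiv.sigmaFiberEquiv y).symm.trans
    ((Equiv.sigmaCongrRight (fun v => Fintype.equivOfCardEq (h1 v))).trans
      (Equiv.sigmaFiberEquiv x))
  refine ⟨σ, ?_⟩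
  funext i
  have h2 : x (σ i) = y i := (Fintype.equivOfCardEq (h1 (y i)) ⟨i, rfl⟩).2
  exact h2.symm

/-- at most `r!` tuples have a given multiset of values -/
theorem card_same_multiset {ι : Type*} [DecidableEq ι] {r : ℕ} (I : Finset ι) (x : Fin r → ι) :
    #{y ∈ tup I r | (univ : Finset (Fin r)).val.map x = (univ : Finset (Fin r)).val.map y} ≤
      r.factorial := by
  classical
  have h1 : ∀ y : Fin r → ι,
      (univ : Finset (Fin r)).val.map x = (univ : Finset (Fin r)).val.map y →
      ∃ σ : Equiv.Perm (Fin r), y = x ∘ σ := by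
    intro y hy
    exact exists_perm x y hy
  have h2 : ({y ∈ tup I r | (univ : Finset (Fin r)).val.map x =
      (univ : Finset (Fin r)).val.map y} : Finset (Fin r → ι)) ⊆
      (univ : Finset (Equiv.Perm (Fin r))).image
        (fun σ : Equiv.Perm (Fin r) => (x ∘ (σ : Fin r → Fin r) : Fin r → ι)) := by
    intro y hy
    rw [mem_filter] at hy
    obtain ⟨σ, hσ⟩ := h1 y hy.2
    rw [mem_image]
    exact ⟨σ, mem_univ _, hσ.symm⟩
  refine (Finset.card_le_card h2).trans (Finset.card_image_le.trans ?_)
  rw [Finset.card_univ, Fintype.card_perm, Fintype.card_fin]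

private theorem en_le_of_fiber {τ A : Type*} [DecidableEq A] (T : Finset τ) (F : τ → A) (C : ℕ)
    (h : ∀ x ∈ T, #{y ∈ T | F x = F y} ≤ C) : en T F ≤ #T * C := by
  classical
  unfold en
  have h1 : #{z ∈ T ×ˢ T | F z.1 = F z.2} = ∑ x ∈ T, #{y ∈ T | F x = F y} := by
    rw [Finset.card_filter, Finset.sum_product]
    apply Finset.sum_congr rfl
    intro x _
    rw [Finset.card_filter]
  rw [h1]
  calc ∑ x ∈ T, #{y ∈ T | F x = F y} ≤ ∑ _x ∈ T, C := Finset.sum_le_sum h
    _ = #T * C := by rw [Finset.sum_const, smul_eq_mul]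

theorem Js_primes {r N P : ℕ} (hr : 1 ≤ r) (hN : 2 * r * P ^ (2 * r) ≤ N) (K : Finset ℕ)
    (hK : ∀ p ∈ K, p.Prime ∧ p ≤ P) : Js K (psi N) r ≤ r.factorial * #K ^ r := by
  classical
  have h1 := en_le_of_fiber (tup K r) (sm' (psi N)) r.factorial (by
    intro x hx
    rw [mem_tup] at hx
    refine le_trans (Finset.card_le_card ?_) (card_same_multiset K x)
    intro y hy
    rw [mem_filter] at hy ⊢
    refine ⟨hy.1, ?_⟩
    have hy1 := mem_tup.mp hy.1
    exact sidon_primes hr hN x y (fun i => hK _ (hx i)) (fun i => hK _ (hy1 i)) hy.2)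
  rw [card_tup, mul_comm] at h1
  exact h1

theorem Js_sqfree {r N a W : ℕ} (hr : 1 ≤ r) (hN : 2 * r * a ^ (2 * r) ≤ N) (I : Finset ℕ)
    (hI : ∀ m ∈ I, Squarefree m ∧ m ≤ a ∧ m.primeFactors.card ≤ W) :
    Js I (psi N) r ≤ #I ^ r * 2 ^ (r * r * W) := by
  classical
  have h1 := en_le_of_fiber (tup I r) (sm' (psi N)) (2 ^ (r * r * W)) (by
    intro x hx
    rw [mem_tup] at hx
    obtain ⟨m, hm⟩ : ∃ m, m = ∏ i, x i := ⟨_, rfl⟩
    have hm0 : m ≠ 0 := by
      rw [hm]
      exact Finset.prod_ne_zero_iff.mpr (fun i _ => (hI _ (hx i)).1.ne_zero)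
    -- number of prime factors of `m`
    have hcard : #m.primeFactors ≤ r * W := by
      have h2 : m.primeFactors ⊆ (univ : Finset (Fin r)).biUnion (fun i => (x i).primeFactors) := by
        intro p hp
        have hpp := Nat.prime_of_mem_primeFactors hp
        have hpm := Nat.dvd_of_mem_primeFactors hp
        rw [hm, hpp.prime.dvd_finsetProd_iff] at hpm
        obtain ⟨i, _, hi⟩ := hpm
        rw [mem_biUnion]
        exact ⟨i, mem_univ _, Nat.mem_primeFactors.mpr ⟨hpp, hi, (hI _ (hx i)).1.ne_zero⟩⟩
      calc #m.primeFactors ≤ _ := Finset.card_le_card h2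
        _ ≤ ∑ i : Fin r, #(x i).primeFactors := Finset.card_biUnion_le
        _ ≤ ∑ _i : Fin r, W := Finset.sum_le_sum (fun i _ => (hI _ (hx i)).2.2)
        _ = r * W := by simp
    -- products agree
    have hprod : ∀ y ∈ ({y ∈ tup I r | sm' (psi N) x = sm' (psi N) y} : Finset (Fin r → ℕ)),
        ∏ i, y i = m := by
      intro y hy
      rw [mem_filter] at hy
      have hy1 := mem_tup.mp hy.1
      rw [hm]
      refine (spacing_psi x y (fun i => (hI _ (hx i)).1) (fun i => (hI _ (hy1 i)).1) hr
        (Z := ((a ^ (2 * r) : ℕ) : ℝ)) ?_ ?_ hy.2).symm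
      · have h2 := prod_le_pow x (fun i => (hI _ (hx i)).2.1)
        have h3 := prod_le_pow y (fun i => (hI _ (hy1 i)).2.1)
        have h4 : (∏ i, x i) * (∏ j, y j) ≤ a ^ (2 * r) := by
          calc (∏ i, x i) * (∏ j, y j) ≤ a ^ r * a ^ r := Nat.mul_le_mul h2 h3
            _ = a ^ (2 * r) := by rw [two_mul, pow_add]
        exact_mod_cast h4
      · exact_mod_cast hN
    -- the injection
    have h5 : #{y ∈ tup I r | sm' (psi N) x = sm' (psi N) y} ≤
        #(m.primeFactors.pi (fun _ => (univ : Finset (Finset (Fin r))))) := by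
      apply Finset.card_le_card_of_injOn
        (fun y => fun p _ => (univ : Finset (Fin r)).filter (fun i => p ∣ y i))
      · intro y _
        rw [Finset.mem_coe, Finset.mem_pi]
        intro p _
        exact mem_univ _
      · intro y hy y' hy' h
        rw [Finset.mem_coe] at hy hy'
        have e1 := hprod y hy
        have e2 := hprod y' hy'
        rw [mem_filter] at hy hy'
        have hy1 := mem_tup.mp hy.1
        have hy1' := mem_tup.mp hy'.1
        funext i
        have key : ∀ p, p.Prime → (p ∣ y i ↔ p ∣ y' i) := by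
          intro p hp
          by_cases hpm : p ∈ m.primeFactors
          · have h6 := congrFun (congrFun h p) hpm
            simp only at h6
            have h7 : i ∈ (univ : Finset (Fin r)).filter (fun i => p ∣ y i) ↔
                i ∈ (univ : Finset (Fin r)).filter (fun i => p ∣ y' i) := by rw [h6]
            simpa using h7
          · have h6 : ¬ p ∣ m := fun h7 => hpm (Nat.mem_primeFactors.mpr ⟨hp, h7, hm0⟩)
            constructor
            · intro h7
              exact absurd (e1 ▸ h7.trans (Finset.dvd_prod_of_mem y (mem_univ i))) h6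
            · intro h7
              exact absurd (e2 ▸ h7.trans (Finset.dvd_prod_of_mem y' (mem_univ i))) h6
        have s1 := Nat.prod_primeFactors_of_squarefree (hI _ (hy1 i)).1
        have s2 := Nat.prod_primeFactors_of_squarefree (hI _ (hy1' i)).1
        have s3 : (y i).primeFactors = (y' i).primeFactors := by
          ext p
          rw [Nat.mem_primeFactors, Nat.mem_primeFactors]
          constructor
          · rintro ⟨h7, h8, _⟩
            exact ⟨h7, (key p h7).mp h8, (hI _ (hy1' i)).1.ne_zero⟩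
          · rintro ⟨h7, h8, _⟩
            exact ⟨h7, (key p h7).mpr h8, (hI _ (hy1 i)).1.ne_zero⟩
        rw [← s1, ← s2, s3]
    refine h5.trans ?_
    rw [Finset.card_pi, Finset.prod_const, Finset.card_univ, Fintype.card_finset,
      Fintype.card_fin, ← pow_mul]
    apply Nat.pow_le_pow_right (by norm_num)
    calc r * #m.primeFactors ≤ r * (r * W) := Nat.mul_le_mul_left _ hcard
      _ = r * r * W := by ring)
  rw [card_tup] at h1
  exact h1

end Pool.Agent.Helper58.LT
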