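import Mathlib
import Pool.Agent.Helper58.LT.Pos
import Pool.Agent.Helper58.LT.Sidon

/-!
# KB4: the recursive inequality

`A` any commutative group, `f` on `I`, `g` on `K`, `r = h + 2`; Sidon hypothesis `hS`: two
`r`-tuples of `K` with the same sum of `g` have the same multiset of values.  Then

`mom I f K g r (h+1) ≤ (h+1)^2 * #K * mom I f K g r h + #I^(2r) * (h+1)! * #K^h`.

Proof.  Solutions `(x, u), (y, v)` (`x, y ∈ I^r`, `u, v ∈ K^(h+1)`) of `∑f(x)+∑g(u) = ∑f(y)+∑g(v)`.
(1) Those with `u i = v j` for some `i, j`: for fixed `i, j` remove the coordinate `i` of `u` and `j` of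
`v` (`Fin.removeNth`/`Fin.succAbove`, `Fin.sum_univ_succAbove`); the value `u i ∈ K` (`#K`
possibilities) and the remaining solution of the system with `h` variables determine the solution: at
most `#K * mom I f K g r h` for each of the `(h+1)^2` pairs `(i,j)`.
(2) Those with `u i ≠ v j` for all `i, j`: fix `x, y` (`#I^(2r)` choices) and `u 0, …, u (h-1)` (the first
`h` coordinates, `#K^h` choices).  Then `(u (last), v)` satisfies `g (u last) - ∑ g(v) = c` with
`c` fixed.  If `(u', v')` is a second solution with the same data then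
`g (u last) + ∑ g(v') = g (u' last) + ∑ g(v)`: two `r`-tuples (`Fin.cons (u last) v'` and
`Fin.cons (u' last) v`, `1 + (h+1) = r` coordinates) with the same sum, so the
multisets `{u last} ∪ v'` and `{u' last} ∪ v` agree.  As `u last` is not a value of `v`,
`u last = u' last`, and then the multisets of `v` and `v'` agree.  So all solutions have the same
`u last` and the same multiset of values of `v`: at most `(h+1)!` of them (`card_same_multiset`).
-/

namespace Pool.Agent.Helper58.LT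

open Finset

private theorem sm_cons {κ A : Type*} [AddCommGroup A] (g : κ → A) {n : ℕ} (a : κ)
    (v : Fin n → κ) : sm' g (Fin.cons a v : Fin (n + 1) → κ) = g a + sm' g v := by
  unfold sm'
  rw [Fin.sum_univ_succ]
  simp

private theorem sm_succAbove {κ A : Type*} [AddCommGroup A] (g : κ → A) {n : ℕ}
    (v : Fin (n + 1) → κ) (i : Fin (n + 1)) :
    sm' g v = g (v i) + sm' g (fun j => v (i.succAbove j)) := by
  unfold sm'
  exact Fin.sum_univ_succAbove (fun j => g (v j)) i

private theorem sm_last {κ A : Type*} [AddCommGroup A] (g : κ → A) {n : ℕ}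
    (v : Fin (n + 1) → κ) :
    sm' g v = sm' g (fun j : Fin n => v j.castSucc) + g (v (Fin.last n)) := by
  unfold sm'
  exact Fin.sum_univ_castSucc (fun j => g (v j))

private theorem ms_cons {κ : Type*} {n : ℕ} (a : κ) (v : Fin n → κ) :
    (univ : Finset (Fin (n + 1))).val.map (Fin.cons a v : Fin (n + 1) → κ) =
      a ::ₘ (univ : Finset (Fin n)).val.map v := by
  rw [Fin.univ_succ, Finset.cons_val, Multiset.map_cons, Finset.map_val, Multiset.map_map]
  rfl

private theorem eq_of_succAbove {κ : Type*} {n : ℕ} (u v : Fin (n + 1) → κ) (i : Fin (n + 1))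
    (h0 : u i = v i) (h1 : (fun j => u (i.succAbove j)) = fun j => v (i.succAbove j)) : u = v := by
  funext j
  rcases Fin.eq_self_or_eq_succAbove i j with rfl | ⟨k, rfl⟩
  · exact h0
  · exact congrFun h1 k

private theorem part_one {ι κ A : Type*} [DecidableEq κ] [AddCommGroup A] [DecidableEq A]
    (I : Finset ι) (f : ι → A) (K : Finset κ) (g : κ → A) (r h : ℕ) (i j : Fin (h + 1)) :
    #{w ∈ (tup I r ×ˢ tup K (h + 1)) ×ˢ (tup I r ×ˢ tup K (h + 1)) |
      sm' f w.1.1 + sm' g w.1.2 = sm' f w.2.1 + sm' g w.2.2 ∧ w.1.2 i = w.2.2 j} ≤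
      #K * mom I f K g r h := by
  classical
  unfold mom en
  rw [← card_product]
  refine card_le_card_of_injOn
    (fun w : ((Fin r → ι) × (Fin (h + 1) → κ)) × ((Fin r → ι) × (Fin (h + 1) → κ)) =>
      (w.1.2 i, ((w.1.1, fun l => w.1.2 (i.succAbove l)), (w.2.1, fun l => w.2.2 (j.succAbove l)))))
    ?_ ?_
  · rintro ⟨⟨x, u⟩, y, v⟩ hw
    simp only [coe_filter, mem_product, Set.mem_ofPred_eq] at hw
    obtain ⟨⟨⟨hx, hu⟩, hy, hv⟩, he, hij⟩ := hw
    simp only [mem_coe, mem_product, mem_filter]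
    refine ⟨mem_tup.1 hu i, ⟨⟨hx, mem_tup.2 fun l => mem_tup.1 hu _⟩, hy,
      mem_tup.2 fun l => mem_tup.1 hv _⟩, ?_⟩
    rw [sm_succAbove g u i, sm_succAbove g v j, hij] at he
    have h2 : g (v j) + (sm' f x + sm' g (fun l => u (i.succAbove l))) =
        g (v j) + (sm' f y + sm' g (fun l => v (j.succAbove l))) := by
      calc g (v j) + (sm' f x + sm' g (fun l => u (i.succAbove l)))
          = sm' f x + (g (v j) + sm' g (fun l => u (i.succAbove l))) := by abel
        _ = sm' f y + (g (v j) + sm' g (fun l => v (j.succAbove l))) := he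
        _ = _ := by abel
    exact add_left_cancel h2
  · rintro ⟨⟨x, u⟩, y, v⟩ hw ⟨⟨x', u'⟩, y', v'⟩ hw' heq
    simp only [coe_filter, mem_product, Set.mem_ofPred_eq, Prod.mk.injEq] at hw hw' heq
    obtain ⟨h1, ⟨h2, h3⟩, h4, h5⟩ := heq
    subst h2 h4
    have hu : u = u' := eq_of_succAbove u u' i h1 h3
    have hv : v = v' := eq_of_succAbove v v' j (by rw [← hw.2.2, ← hw'.2.2, h1]) h5
    rw [hu, hv]

private theorem part_two_key {κ A : Type*} [AddCommGroup A] (K : Finset κ) (g : κ → A) (h : ℕ)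
    (hS : ∀ u ∈ tup K (h + 2), ∀ v ∈ tup K (h + 2), sm' g u = sm' g v →
      (univ : Finset (Fin (h + 2))).val.map u = (univ : Finset (Fin (h + 2))).val.map v)
    (a b : A) (u u' v v' : Fin (h + 1) → κ) (hu : u ∈ tup K (h + 1)) (hu' : u' ∈ tup K (h + 1))
    (hv : v ∈ tup K (h + 1)) (hv' : v' ∈ tup K (h + 1)) (h1 : a + sm' g u = b + sm' g v)
    (h2 : a + sm' g u' = b + sm' g v')
    (h3 : (fun j : Fin h => u j.castSucc) = fun j : Fin h => u' j.castSucc)
    (h4 : ∀ i j, u i ≠ v j) : u = u' ∧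
      (univ : Finset (Fin (h + 1))).val.map v = (univ : Finset (Fin (h + 1))).val.map v' := by
  rw [sm_last g u] at h1
  rw [sm_last g u', ← h3] at h2
  have h5 : g (u (Fin.last h)) + sm' g v' = g (u' (Fin.last h)) + sm' g v := by
    have h6 : (a + (sm' g (fun j : Fin h => u j.castSucc) + g (u (Fin.last h)))) + (b + sm' g v') =
        (b + sm' g v) + (a + (sm' g (fun j : Fin h => u j.castSucc) + g (u' (Fin.last h)))) := by
      rw [h1, h2]
    have h7 : (a + sm' g (fun j : Fin h => u j.castSucc) + b) +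
        (g (u (Fin.last h)) + sm' g v') = (a + sm' g (fun j : Fin h => u j.castSucc) + b) +
        (g (u' (Fin.last h)) + sm' g v) := by
      calc _ = (a + (sm' g (fun j : Fin h => u j.castSucc) + g (u (Fin.last h)))) +
            (b + sm' g v') := by abel
        _ = _ := h6
        _ = _ := by abel
    exact add_left_cancel h7
  have hm : ∀ (c : κ) (w : Fin (h + 1) → κ), c ∈ K → w ∈ tup K (h + 1) →
      (Fin.cons c w : Fin (h + 2) → κ) ∈ tup K (h + 2) := by
    intro c w hc hw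
    rw [mem_tup]
    intro i
    refine Fin.cases ?_ (fun j => ?_) i
    · exact hc
    · exact mem_tup.1 hw j
  have h8 := hS _ (hm _ _ (mem_tup.1 hu (Fin.last h)) hv') _ (hm _ _ (mem_tup.1 hu' (Fin.last h)) hv)
    (by rw [sm_cons, sm_cons, h5])
  rw [ms_cons, ms_cons] at h8
  have h9 : u (Fin.last h) = u' (Fin.last h) := by
    have h10 : u (Fin.last h) ∈ u' (Fin.last h) ::ₘ (univ : Finset (Fin (h + 1))).val.map v := by
      rw [← h8]
      exact Multiset.mem_cons_self _ _
    rcases Multiset.mem_cons.1 h10 with h11 | h11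
    · exact h11
    · obtain ⟨j, _, hj⟩ := Multiset.mem_map.1 h11
      exact absurd hj.symm (h4 _ j)
  refine ⟨?_, ?_⟩
  · funext i
    refine Fin.lastCases ?_ (fun j => ?_) i
    · exact h9
    · exact congrFun h3 j
  · rw [h9] at h8
    exact ((Multiset.cons_inj_right _).1 h8).symm

theorem key_rec {ι κ A : Type*} [DecidableEq κ] [AddCommGroup A] [DecidableEq A] (I : Finset ι)
    (f : ι → A) (K : Finset κ) (g : κ → A) (h : ℕ)
    (hS : ∀ u ∈ tup K (h + 2), ∀ v ∈ tup K (h + 2), sm' g u = sm' g v →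
      (univ : Finset (Fin (h + 2))).val.map u = (univ : Finset (Fin (h + 2))).val.map v) :
    mom I f K g (h + 2) (h + 1) ≤ (h + 1) ^ 2 * #K * mom I f K g (h + 2) h +
      #I ^ (2 * (h + 2)) * (h + 1).factorial * #K ^ h := by
  classical
  have hsub : {w ∈ (tup I (h + 2) ×ˢ tup K (h + 1)) ×ˢ (tup I (h + 2) ×ˢ tup K (h + 1)) |
      sm' f w.1.1 + sm' g w.1.2 = sm' f w.2.1 + sm' g w.2.2} ⊆
      ((univ : Finset (Fin (h + 1) × Fin (h + 1))).biUnion fun q =>
        {w ∈ (tup I (h + 2) ×ˢ tup K (h + 1)) ×ˢ (tup I (h + 2) ×ˢ tup K (h + 1)) |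
          sm' f w.1.1 + sm' g w.1.2 = sm' f w.2.1 + sm' g w.2.2 ∧ w.1.2 q.1 = w.2.2 q.2}) ∪
      {w ∈ (tup I (h + 2) ×ˢ tup K (h + 1)) ×ˢ (tup I (h + 2) ×ˢ tup K (h + 1)) |
        sm' f w.1.1 + sm' g w.1.2 = sm' f w.2.1 + sm' g w.2.2 ∧ ∀ i j, w.1.2 i ≠ w.2.2 j} := by
    intro w hw
    rw [mem_filter] at hw
    rw [mem_union, mem_biUnion, mem_filter]
    by_cases hc : ∃ i j, w.1.2 i = w.2.2 j
    · obtain ⟨i, j, hij⟩ := hc
      left
      exact ⟨(i, j), mem_univ _, mem_filter.2 ⟨hw.1, hw.2, hij⟩⟩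
    · right
      push Not at hc
      exact ⟨hw.1, hw.2, hc⟩
  have h1 : mom I f K g (h + 2) (h + 1) = #{w ∈ (tup I (h + 2) ×ˢ tup K (h + 1)) ×ˢ
      (tup I (h + 2) ×ˢ tup K (h + 1)) |
      sm' f w.1.1 + sm' g w.1.2 = sm' f w.2.1 + sm' g w.2.2} := rfl
  rw [h1]
  refine (card_le_card hsub).trans ((card_union_le _ _).trans (Nat.add_le_add ?_ ?_))
  · refine (card_biUnion_le).trans ((sum_le_card_nsmul _ _ _
      (fun q _ => part_one I f K g (h + 2) h q.1 q.2)).trans (le_of_eq ?_))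
    rw [card_univ, Fintype.card_prod, Fintype.card_fin, smul_eq_mul]
    ring
  · have h2 := card_le_mul_card_image_of_maps_to
      (s := {w ∈ (tup I (h + 2) ×ˢ tup K (h + 1)) ×ˢ (tup I (h + 2) ×ˢ tup K (h + 1)) |
        sm' f w.1.1 + sm' g w.1.2 = sm' f w.2.1 + sm' g w.2.2 ∧ ∀ i j, w.1.2 i ≠ w.2.2 j})
      (t := (tup I (h + 2) ×ˢ tup I (h + 2)) ×ˢ tup K h)
      (f := fun w => ((w.1.1, w.2.1), fun j : Fin h => w.1.2 j.castSucc)) (by
        rintro ⟨⟨x, u⟩, y, v⟩ hw
        rw [mem_filter, mem_product, mem_product, mem_product] at hw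
        simp only [mem_product]
        exact ⟨⟨hw.1.1.1, hw.1.2.1⟩, mem_tup.2 fun j => mem_tup.1 hw.1.1.2 _⟩)
      (h + 1).factorial (by
        intro q _
        rcases eq_empty_or_nonempty {w ∈ {w ∈ (tup I (h + 2) ×ˢ tup K (h + 1)) ×ˢ
            (tup I (h + 2) ×ˢ tup K (h + 1)) |
            sm' f w.1.1 + sm' g w.1.2 = sm' f w.2.1 + sm' g w.2.2 ∧ ∀ i j, w.1.2 i ≠ w.2.2 j} |
            ((w.1.1, w.2.1), fun j : Fin h => w.1.2 j.castSucc) = q} with hE | ⟨w0, hw0⟩
        · rw [hE]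
          exact Nat.zero_le _
        · obtain ⟨⟨x0, u0⟩, y0, v0⟩ := w0
          rw [mem_filter, mem_filter, mem_product, mem_product, mem_product] at hw0
          obtain ⟨⟨⟨⟨hx0, hu0⟩, hy0, hv0⟩, he0, hn0⟩, hq0⟩ := hw0
          have key : ∀ x u y v, (((x, u), (y, v)) : ((Fin (h + 2) → ι) × (Fin (h + 1) → κ)) ×
              ((Fin (h + 2) → ι) × (Fin (h + 1) → κ))) ∈
              {w ∈ {w ∈ (tup I (h + 2) ×ˢ tup K (h + 1)) ×ˢ
              (tup I (h + 2) ×ˢ tup K (h + 1)) |
              sm' f w.1.1 + sm' g w.1.2 = sm' f w.2.1 + sm' g w.2.2 ∧ ∀ i j, w.1.2 i ≠ w.2.2 j} |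
              ((w.1.1, w.2.1), fun j : Fin h => w.1.2 j.castSucc) = q} →
              x = x0 ∧ y = y0 ∧ u = u0 ∧ v ∈ tup K (h + 1) ∧
                (univ : Finset (Fin (h + 1))).val.map v0 =
                  (univ : Finset (Fin (h + 1))).val.map v := by
            intro x u y v hw
            rw [mem_filter, mem_filter, mem_product, mem_product, mem_product] at hw
            obtain ⟨⟨⟨⟨hx, hu⟩, hy, hv⟩, he, hn⟩, hq⟩ := hw
            have h3 := hq0.trans hq.symm
            simp only [Prod.mk.injEq] at h3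
            obtain ⟨⟨h4, h5⟩, h6⟩ := h3
            subst h4 h5
            have h7 := part_two_key K g h hS _ _ u0 u v0 v hu0 hu hv0 hv he0 he h6 hn0
            exact ⟨rfl, rfl, h7.1.symm, hv, h7.2⟩
          refine le_trans ?_ (card_same_multiset K v0)
          refine card_le_card_of_injOn (fun w => w.2.2) ?_ ?_
          · rintro ⟨⟨x, u⟩, y, v⟩ hw
            have h8 := key x u y v hw
            exact mem_coe.2 (mem_filter.2 ⟨h8.2.2.2.1, h8.2.2.2.2⟩)
          · rintro ⟨⟨x, u⟩, y, v⟩ hw ⟨⟨x', u'⟩, y', v'⟩ hw' heq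
            have h8 := key x u y v hw
            have h9 := key x' u' y' v' hw'
            have h10 : v = v' := heq
            rw [h8.1, h8.2.1, h8.2.2.1, h9.1, h9.2.1, h9.2.2.1, h10])
    refine h2.trans (le_of_eq ?_)
    rw [card_product, card_product, card_tup, card_tup]
    ring

end Pool.Agent.Helper58.LT
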