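import Mathlib
import Pool.Agent.Helper58.LT.KeyRec
import Pool.Agent.Helper58.LT.Convex

/-!
# KB5: the KEY estimate and the bound for the main energy

`key_bound`: write `V = mom I f K g r (h+1)`, `V' = mom I f K g r h`, `V0 = mom I f K g r 0 = Js I f r`,
`r = h + 2`.  `mom_convex_int` with `(r, h) = h/(h+1) (r, h+1) + 1/(h+1) (r, 0)`:
`V' ≤ V^(h/(h+1)) V0^(1/(h+1))`.  With `key_rec`: `V ≤ (h+1)^2 #K V' + R`, `R = #I^(2r) (h+1)! #K^h`.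
If `(h+1)^2 #K V' ≤ V/2` then `V ≤ 2 R`.  Otherwise `V < 2 (h+1)^2 #K V^(h/(h+1)) V0^(1/(h+1))`, hence
(`V > 0`) `V^(1/(h+1)) ≤ 2 (h+1)^2 #K V0^(1/(h+1))`, `V ≤ (2 (h+1)^2 #K)^(h+1) V0`.

`energy_bound`: `mom_convex_int` for
`(1, r) = (1/r) (r, r-1) + (1 - 1/r - γ) (0, r) + γ (0, s)`, `γ = 1/(r (s - r))`, `r = h + 2 < s`.
-/

namespace Pool.Agent.Helper58.LT

open Finset

private theorem kb_real (h : ℕ) (V V' V0 C R : ℝ) (hV : 0 ≤ V) (hV' : 0 ≤ V') (hV0 : 0 ≤ V0)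
    (hC : 0 ≤ C) (hR : 0 ≤ R) (h1 : V ≤ C * V' + R)
    (h2 : V' ≤ V ^ ((h : ℝ) / ((h : ℝ) + 1)) * V0 ^ (1 / ((h : ℝ) + 1))) :
    V ≤ 2 * R + (2 * C) ^ (h + 1) * V0 := by
  have hX : 0 ≤ (2 * C) ^ (h + 1) * V0 := by positivity
  rcases le_or_gt (C * V') (V / 2) with hc | hc
  · linarith
  · rcases eq_or_lt_of_le hV with hV1 | hVp
    · rw [← hV1]; linarith
    have hh : (0 : ℝ) < (h : ℝ) + 1 := by positivity
    have h3 : V = V ^ ((h : ℝ) / ((h : ℝ) + 1)) * V ^ (1 / ((h : ℝ) + 1)) := by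
      rw [← Real.rpow_add hVp]
      have : (h : ℝ) / ((h : ℝ) + 1) + 1 / ((h : ℝ) + 1) = 1 := by field_simp
      rw [this, Real.rpow_one]
    have hA : 0 < V ^ ((h : ℝ) / ((h : ℝ) + 1)) := Real.rpow_pos_of_pos hVp _
    have h4 : V ^ ((h : ℝ) / ((h : ℝ) + 1)) * V ^ (1 / ((h : ℝ) + 1)) <
        V ^ ((h : ℝ) / ((h : ℝ) + 1)) * (2 * C * V0 ^ (1 / ((h : ℝ) + 1))) := by
      rw [← h3]
      have : C * V' ≤ C * (V ^ ((h : ℝ) / ((h : ℝ) + 1)) * V0 ^ (1 / ((h : ℝ) + 1))) :=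
        mul_le_mul_of_nonneg_left h2 hC
      nlinarith
    have h5 : V ^ (1 / ((h : ℝ) + 1)) < 2 * C * V0 ^ (1 / ((h : ℝ) + 1)) :=
      lt_of_mul_lt_mul_left h4 hA.le
    have hroot : ∀ x : ℝ, 0 ≤ x → (x ^ (1 / ((h : ℝ) + 1))) ^ (h + 1) = x := by
      intro x hx
      rw [← Real.rpow_natCast, ← Real.rpow_mul hx]
      have : 1 / ((h : ℝ) + 1) * ((h + 1 : ℕ) : ℝ) = 1 := by push_cast; field_simp
      rw [this, Real.rpow_one]
    have h6 : (V ^ (1 / ((h : ℝ) + 1))) ^ (h + 1) ≤ (2 * C * V0 ^ (1 / ((h : ℝ) + 1))) ^ (h + 1) :=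
      pow_le_pow_left₀ (Real.rpow_nonneg hV _) h5.le _
    rw [hroot V hV, mul_pow, hroot V0 hV0] at h6
    linarith

theorem key_bound {ι κ : Type*} [DecidableEq κ] (I : Finset ι)
    (f : ι → ℤ) (K : Finset κ) (g : κ → ℤ) (h : ℕ)
    (hS : ∀ u ∈ tup K (h + 2), ∀ v ∈ tup K (h + 2), sm' g u = sm' g v →
      (univ : Finset (Fin (h + 2))).val.map u = (univ : Finset (Fin (h + 2))).val.map v) :
    (mom I f K g (h + 2) (h + 1) : ℝ) ≤
      2 * ((#I : ℝ) ^ (2 * (h + 2)) * (h + 1).factorial * (#K : ℝ) ^ h) +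
      (2 * ((h : ℝ) + 1) ^ 2 * #K) ^ (h + 1) * (Js I f (h + 2) : ℝ) := by
  have h1 : (mom I f K g (h + 2) (h + 1) : ℝ) ≤ (((h : ℝ) + 1) ^ 2 * #K) * (mom I f K g (h + 2) h : ℝ) +
      ((#I : ℝ) ^ (2 * (h + 2)) * (h + 1).factorial * (#K : ℝ) ^ h) := by
    have h0 := key_rec I f K g h hS
    exact_mod_cast h0
  have hh : (0 : ℝ) < (h : ℝ) + 1 := by positivity
  have h2 := mom_convex_int I f K g (h + 2) h (h + 2) (h + 1) (h + 2) 0 (h + 2) 0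
    ((h : ℝ) / ((h : ℝ) + 1)) (1 / ((h : ℝ) + 1)) 0 (by positivity) (by positivity) le_rfl
    (by field_simp; ring) (by field_simp; push_cast; ring) (by push_cast; field_simp; ring)
  rw [Real.rpow_zero, mul_one, mom_zero_right] at h2
  have h3 := kb_real h _ _ _ _ _ (Nat.cast_nonneg _) (Nat.cast_nonneg _) (Nat.cast_nonneg _)
    (by positivity) (by positivity) h1 h2
  refine h3.trans (le_of_eq ?_)
  ring

theorem energy_bound {ι κ : Type*} (I : Finset ι)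
    (f : ι → ℤ) (K : Finset κ) (g : κ → ℤ) (h s : ℕ) (hs : h + 2 < s) (γ : ℝ)
    (hγ : γ = 1 / (((h : ℝ) + 2) * ((s : ℝ) - (h + 2)))) :
    (mom I f K g 1 (h + 2) : ℝ) ≤ (mom I f K g (h + 2) (h + 1) : ℝ) ^ (1 / ((h : ℝ) + 2)) *
      (Js K g (h + 2) : ℝ) ^ (1 - 1 / ((h : ℝ) + 2) - γ) * (Js K g s : ℝ) ^ γ := by
  have hs' : (1 : ℝ) ≤ (s : ℝ) - (h + 2) := by
    have : ((h + 3 : ℕ) : ℝ) ≤ (s : ℝ) := by exact_mod_cast hs
    push_cast at this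
    linarith
  have hr : (2 : ℝ) ≤ (h : ℝ) + 2 := by
    have : (0 : ℝ) ≤ (h : ℝ) := Nat.cast_nonneg _
    linarith
  have hγ0 : 0 ≤ γ := by rw [hγ]; positivity
  have hγ1 : γ ≤ 1 / ((h : ℝ) + 2) := by
    rw [hγ]
    apply one_div_le_one_div_of_le (by positivity)
    nlinarith
  have h1r : 1 / ((h : ℝ) + 2) ≤ 1 / 2 := one_div_le_one_div_of_le (by norm_num) hr
  have hne : ((s : ℝ) - (h + 2)) ≠ 0 := by linarith
  have hγ2 : γ * (((h : ℝ) + 2) * ((s : ℝ) - (h + 2))) = 1 := by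
    rw [hγ]; field_simp
  have hγ3 : γ * ((s : ℝ) - (h + 2)) = 1 / ((h : ℝ) + 2) := by
    rw [eq_div_iff (by positivity)]
    linarith
  have h2 := mom_convex_int I f K g 1 (h + 2) (h + 2) (h + 1) 0 (h + 2) 0 s
    (1 / ((h : ℝ) + 2)) (1 - 1 / ((h : ℝ) + 2) - γ) γ (by positivity) (by linarith) hγ0
    (by ring) (by push_cast; field_simp; ring) (by
      push_cast
      have e1 : 1 / ((h : ℝ) + 2) * ((h : ℝ) + 1) = 1 - 1 / ((h : ℝ) + 2) := by field_simp; ring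
      have e2 : 1 / ((h : ℝ) + 2) * ((h : ℝ) + 2) = 1 := by field_simp
      rw [e1]
      linear_combination e2 - hγ3)
  rw [mom_zero_left, mom_zero_left] at h2
  exact h2

end Pool.Agent.Helper58.LT
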