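import Mathlib
import Pool.Agent.Helper58.LT.Pos
import Pool.Agent.Helper58.LT.FourG
import Pool.Agent.Helper58.LT.Holder3
import Pool.Agent.Helper58.LT.Transfer

/-!
# FW6: Hölder's inequality for a covering

Every `i ∈ I` lies in exactly `Y` of the sets `T q ⊆ I`, `q ∈ Q`.  Then
`Y * Sf I f χ = ∑ q ∈ Q, Sf (T q) f χ`, so `Y^(2s) ‖Sf I f χ‖^(2s) ≤ #Q^(2s-1) ∑ q, ‖Sf (T q) f χ‖^(2s)`
(`norm_sum_le`, `pow_sum_le` with `n = 2s`); multiply by `‖Sf U g χ‖^2` and sum over `χ`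
(`en_eq`, `Sf_prod`, `Sf_tup`).  `cover_holder`: the same over `ℤ^k`, by `exists_red`/`en_red` applied
to the differences of all families that occur.  `cover_holder_int`: over `ℤ`, for `Js` only: compose
with `ℤ →+ (Fin 1 → ℤ)` and take `U` a one-point set.
-/

namespace Pool.Agent.Helper58.LT

open Finset

theorem cover_holder_G {ι κ γ G : Type*} [DecidableEq ι] [AddCommGroup G] [Fintype G]
    [DecidableEq G] (I : Finset ι) (f : ι → G) (Q : Finset κ) (T : κ → Finset ι) (Y : ℕ)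
    (hTI : ∀ q ∈ Q, T q ⊆ I) (hT : ∀ i ∈ I, #{q ∈ Q | i ∈ T q} = Y)
    (U : Finset γ) (g : γ → G) (s : ℕ) (hs : 1 ≤ s) :
    Y ^ (2 * s) * en (U ×ˢ tup I s) (fun z => g z.1 + sm' f z.2) ≤
      #Q ^ (2 * s - 1) * ∑ q ∈ Q, en (U ×ˢ tup (T q) s) (fun z => g z.1 + sm' f z.2) := by
  classical
  have h1 : ∀ χ : AddChar G ℂ, (Y : ℂ) * Sf I f χ = ∑ q ∈ Q, Sf (T q) f χ := by
    intro χ
    unfold Sf
    have h2 : ∀ q ∈ Q, ∑ x ∈ T q, χ (f x) = ∑ x ∈ I, if x ∈ T q then χ (f x) else 0 := by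
      intro q hq
      rw [← Finset.sum_filter, Finset.filter_mem_eq_inter, Finset.inter_eq_right.mpr (hTI q hq)]
    rw [Finset.sum_congr rfl h2, Finset.sum_comm, Finset.mul_sum]
    refine Finset.sum_congr rfl fun i hi => ?_
    rw [← Finset.sum_filter, Finset.sum_const, hT i hi, nsmul_eq_mul]
  have h2 : ∀ χ : AddChar G ℂ, (Y : ℝ) ^ (2 * s) * ‖Sf I f χ‖ ^ (2 * s) ≤
      (#Q : ℝ) ^ (2 * s - 1) * ∑ q ∈ Q, ‖Sf (T q) f χ‖ ^ (2 * s) := by
    intro χ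
    rw [← mul_pow]
    have h3 : (Y : ℝ) * ‖Sf I f χ‖ ≤ ∑ q ∈ Q, ‖Sf (T q) f χ‖ := by
      have h4 : ‖(Y : ℂ) * Sf I f χ‖ = (Y : ℝ) * ‖Sf I f χ‖ := by
        rw [norm_mul, Complex.norm_natCast]
      rw [← h4, h1 χ]
      exact norm_sum_le _ _
    exact (pow_le_pow_left₀ (by positivity) h3 _).trans
      (pow_sum_le Q _ (fun q _ => norm_nonneg _) (2 * s) (by omega))
  have h3 : ∀ J : Finset ι, (en (U ×ˢ tup J s) (fun z => g z.1 + sm' f z.2) : ℝ) =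
      (Fintype.card G : ℝ)⁻¹ *
        ∑ χ : AddChar G ℂ, ‖Sf J f χ‖ ^ (2 * s) * ‖Sf U g χ‖ ^ 2 := by
    intro J
    rw [en_eq]
    congr 1
    refine Finset.sum_congr rfl fun χ _ => ?_
    rw [Sf_prod, Sf_tup, norm_mul, norm_pow, mul_pow, ← pow_mul, mul_comm s 2, mul_comm]
  have h4 : ((Y ^ (2 * s) * en (U ×ˢ tup I s) (fun z => g z.1 + sm' f z.2) : ℕ) : ℝ) ≤
      ((#Q ^ (2 * s - 1) * ∑ q ∈ Q, en (U ×ˢ tup (T q) s) (fun z => g z.1 + sm' f z.2) : ℕ) : ℝ) := by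
    push_cast
    rw [h3]
    simp only [h3]
    rw [← Finset.mul_sum, Finset.sum_comm, mul_left_comm, mul_left_comm ((#Q : ℝ) ^ (2 * s - 1))]
    refine mul_le_mul_of_nonneg_left ?_ (by positivity)
    rw [Finset.mul_sum, Finset.mul_sum]
    refine Finset.sum_le_sum fun χ _ => ?_
    rw [← Finset.sum_mul, ← mul_assoc, ← mul_assoc]
    exact mul_le_mul_of_nonneg_right (h2 χ) (by positivity)
  exact_mod_cast h4

private theorem cov_unit {τ A : Type*} [DecidableEq A] (T : Finset τ) (F : τ → A) :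
    en (({()} : Finset Unit) ×ˢ T) (fun z => F z.2) = en T F := by
  unfold en
  refine Finset.card_nbij' (fun z => (z.1.2, z.2.2)) (fun z => (((), z.1), ((), z.2)))
    ?_ ?_ ?_ ?_
  · intro z hz
    simp only [Finset.coe_filter, Finset.mem_product, Finset.mem_singleton, Set.mem_ofPred_eq] at hz ⊢
    exact ⟨⟨hz.1.1.2, hz.1.2.2⟩, hz.2⟩
  · intro z hz
    simp only [Finset.coe_filter, Finset.mem_product, Finset.mem_singleton, Set.mem_ofPred_eq] at hz ⊢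
    exact ⟨⟨⟨trivial, hz.1.1⟩, ⟨trivial, hz.1.2⟩⟩, hz.2⟩
  · intro z _
    rfl
  · intro z _
    rfl

theorem cover_holder {ι κ γ : Type*} [DecidableEq ι] {k : ℕ} (I : Finset ι) (f : ι → Fin k → ℤ)
    (Q : Finset κ) (T : κ → Finset ι) (Y : ℕ)
    (hTI : ∀ q ∈ Q, T q ⊆ I) (hT : ∀ i ∈ I, #{q ∈ Q | i ∈ T q} = Y)
    (U : Finset γ) (g : γ → Fin k → ℤ) (s : ℕ) (hs : 1 ≤ s) :
    Y ^ (2 * s) * en (U ×ˢ tup I s) (fun z => g z.1 + sm' f z.2) ≤
      #Q ^ (2 * s - 1) * ∑ q ∈ Q, en (U ×ˢ tup (T q) s) (fun z => g z.1 + sm' f z.2) := by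
  classical
  set F : γ × (Fin s → ι) → Fin k → ℤ := fun z => g z.1 + sm' f z.2 with hF
  obtain ⟨M, hM, hB⟩ := exists_red
    (((U ×ˢ tup I s) ×ˢ (U ×ˢ tup I s)).image (fun w => F w.1 - F w.2))
  have hM' : NeZero M := ⟨hM⟩
  have hred : ∀ x ∈ U ×ˢ tup I s, ∀ y ∈ U ×ˢ tup I s, red k M (F x - F y) = 0 → F x = F y := by
    intro x hx y hy h
    exact sub_eq_zero.1 (hB _ (Finset.mem_image.2 ⟨(x, y), Finset.mem_product.2 ⟨hx, hy⟩, rfl⟩) h)
  have hFr : (fun z => red k M (F z)) =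
      fun z => (fun u => red k M (g u)) z.1 + sm' (fun i => red k M (f i)) z.2 := by
    funext z
    rw [hF]
    simp only
    rw [map_add, red_sm']
  have hen : ∀ J : Finset ι, J ⊆ I → en (U ×ˢ tup J s) F =
      en (U ×ˢ tup J s)
        (fun z => (fun u => red k M (g u)) z.1 + sm' (fun i => red k M (f i)) z.2) := by
    intro J hJ
    have hsub : U ×ˢ tup J s ⊆ U ×ˢ tup I s := by
      intro z hz
      rw [Finset.mem_product, mem_tup] at hz ⊢
      exact ⟨hz.1, fun i => hJ (hz.2 i)⟩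
    rw [← hFr]
    exact (en_red _ F fun x hx y hy h => hred x (hsub hx) y (hsub hy) h).symm
  rw [hen I (Finset.Subset.refl I), Finset.sum_congr rfl fun q hq => hen (T q) (hTI q hq)]
  exact cover_holder_G I (fun i => red k M (f i)) Q T Y hTI hT U (fun u => red k M (g u)) s hs

theorem cover_holder_int {ι κ : Type*} [DecidableEq ι] (I : Finset ι) (f : ι → ℤ)
    (Q : Finset κ) (T : κ → Finset ι) (Y : ℕ)
    (hTI : ∀ q ∈ Q, T q ⊆ I) (hT : ∀ i ∈ I, #{q ∈ Q | i ∈ T q} = Y) (s : ℕ) (hs : 1 ≤ s) :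
    Y ^ (2 * s) * Js I f s ≤ #Q ^ (2 * s - 1) * ∑ q ∈ Q, Js (T q) f s := by
  classical
  let φ : ℤ →+ (Fin 1 → ℤ) :=
    { toFun := fun x _ => x
      map_zero' := rfl
      map_add' := fun _ _ => rfl }
  have hφ : Function.Injective φ := fun x y h => congrFun h 0
  have h1 : ∀ J : Finset ι, Js J f s =
      en (({()} : Finset Unit) ×ˢ tup J s)
        (fun z => (fun _ : Unit => (0 : Fin 1 → ℤ)) z.1 + sm' (fun i => φ (f i)) z.2) := by
    intro J
    have h2 : (fun z : Unit × (Fin s → ι) =>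
        (fun _ : Unit => (0 : Fin 1 → ℤ)) z.1 + sm' (fun i => φ (f i)) z.2) =
        fun z => (fun x : Fin s → ι => φ (sm' f x)) z.2 := by
      funext z
      simp only [zero_add]
      unfold sm'
      rw [map_sum]
    rw [h2, cov_unit (tup J s) (fun x : Fin s → ι => φ (sm' f x)), en_comp_injective φ hφ]
    rfl
  simp only [h1]
  exact cover_holder I (fun i => φ (f i)) Q T Y hTI hT {()} (fun _ => 0) s hs

end Pool.Agent.Helper58.LT
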