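import Mathlib
import Pool.Agent.Helper58.LT.ClassDefs
import Pool.Agent.Helper58.LT.Spacing
import Pool.Agent.Helper78.ST.Pre

/-!
# From the structure theorem to the class data

`n` a Lehmer number of index `k`, `2^(l-1) < n ≤ 2^l`, `ω(n) ≤ W`, NS holds with `t = W`.  Apply the crossing
lemma with `S = n.primeFactors`, `X = l log 2`, `Λ = log (2W)` (`Idx.prime_le`), `t = W`; `A`, `C` the small
set and the cluster, `r = #C`, `a = ∏ A = sm (min C) n`, `τ = 1/(512 W^4)`,
`β = Nat.log 2 P`, `α = Nat.log 2 a`.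
* `ls A ≤ (1+τ) log P` and `r ≥ 2`: `DataA`, `ConA`.
* `ls A ≤ (1+τ) log P` and `r = 1`: `DataR`, `ConA`; `f = n / (a P)` has all its prime factors `> P`,
  `log f ≤ X/2 - log P/2 + t ≤ log a + 2t < 2 log P`, so it is one prime.
* otherwise the greedy lemma with `c = 2t`: `q`, `J₁`, `J₂`: `DataB` with `m = sm q n`, `θ = Nat.log 2 q`,
  `μ = Nat.log 2 m`, `b_i = ∏ J_i`, `g = ∏ C`, `ν = Nat.log 2 g`, `f = ∏` of the primes `> P`;
  `λ(D)` for `D = sm P⁺ n`, `P⁺` the next prime (`IsInit` at `P⁺`, `H = 2^β ≤ P⁺`).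
All constraints of `ConA`, `ConB` have slack.
-/

namespace Pool.Agent.Helper58.LT

open Finset Pool.Agent.Helper6.Lehmer Pool.Agent.Helper6.LehmerCount Pool.Agent.Helper78.ST

/-- the initial segment below the first cluster prime -/
private theorem bridge_seg {n P p₁ : ℕ} {A C : Finset ℕ} (hAC : A ∪ C = n.primeFactors.filter (fun a => a ≤ P))
    (hlt : ∀ a ∈ A, ∀ c ∈ C, a < c) (hp₁ : p₁ ∈ C) (hmin : ∀ c ∈ C, p₁ ≤ c) :
    n.primeFactors.filter (fun a => a < p₁) = A := by
  ext a
  rw [mem_filter]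
  constructor
  · rintro ⟨h1, h2⟩
    have h3 : p₁ ∈ A ∪ C := mem_union_right _ hp₁
    rw [hAC, mem_filter] at h3
    have h4 : a ∈ A ∪ C := by
      rw [hAC, mem_filter]
      exact ⟨h1, by omega⟩
    rcases mem_union.1 h4 with h5 | h5
    · exact h5
    · exact absurd (hmin a h5) (by omega)
  · intro ha
    have h4 : a ∈ A ∪ C := mem_union_left _ ha
    rw [hAC, mem_filter] at h4
    exact ⟨h4.1, hlt a ha p₁ hp₁⟩

theorem bridge : ∃ W₀ : ℕ, ∀ (l W k n : ℕ), W₀ ≤ W → W ^ 60 ≤ l → Idx n k → n ≤ 2 ^ l →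
    2 ^ (l - 1) < n → n.primeFactors.card ≤ W → ¬ NSfail n l W →
    (∃ r α β : ℕ, 2 ≤ r ∧ r ≤ W ∧ α ≤ l ∧ β ≤ l ∧ ConA l W r α β ∧ DataA n l W k r α β) ∨
    (∃ α β : ℕ, α ≤ l ∧ β ≤ l ∧ ConA l W 1 α β ∧ DataR n W k α β) ∨
    (∃ μ ν θ β : ℕ, μ ≤ l ∧ ν ≤ l ∧ θ ≤ l ∧ β ≤ l ∧ ConB l W μ ν θ β ∧
      DataB n l W k μ ν θ β) := by
  classical
  refine ⟨4, ?_⟩
  intro l W k n hW hl h hn hn2 hc hNS
  obtain ⟨P, hP, ⟨q', hq', hPq'⟩, hb, hlogP, A, C, hAC, hdisj, hPC, hCw, hAw, hltAC, hAlow, halt⟩ :=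
    idx_structure hW hl h hn hn2 hc hNS
  have hWR : (4 : ℝ) ≤ W := by exact_mod_cast hW
  have hW0 : (0 : ℝ) < W := by linarith
  have hn1 := h.lehmer.one_lt
  have hn0 : 0 < n := by omega
  have hnR : (0 : ℝ) < n := by exact_mod_cast hn0
  have hsq := h.lehmer.squarefree
  have l2 := Real.log_two_lt_d9
  have l2' := Real.log_two_gt_d9
  have l20 : 0 < Real.log 2 := by linarith
  obtain ⟨X, hX⟩ : ∃ X, X = (l : ℝ) * Real.log 2 := ⟨_, rfl⟩
  rw [← hX] at hb hlogP
  -- size of log P
  have hPbig : 16 * (W : ℝ) ^ 6 * 1024 * W ≤ Real.log P := by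
    refine le_trans ?_ hlogP
    rw [le_div_iff₀ (by positivity), hX]
    have h3 : (W : ℝ) ^ 60 ≤ l := by exact_mod_cast hl
    have h6 : (4 : ℝ) ^ 52 ≤ (W : ℝ) ^ 52 := pow_le_pow_left₀ (by norm_num) hWR 52
    have h8 : (0 : ℝ) < (W : ℝ) ^ 8 := by positivity
    calc 16 * (W : ℝ) ^ 6 * 1024 * W * (2 * W) = 32768 * (W : ℝ) ^ 8 := by ring
      _ ≤ ((W : ℝ) ^ 52 / 2) * (W : ℝ) ^ 8 := by
          apply mul_le_mul_of_nonneg_right _ h8.le
          have : (65536 : ℝ) ≤ 4 ^ 52 := by norm_num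
          linarith
      _ = (W : ℝ) ^ 60 * (1 / 2) := by ring
      _ ≤ (l : ℝ) * Real.log 2 := by
          apply mul_le_mul h3 (by linarith) (by norm_num)
          positivity
  have hW1 : (1 : ℝ) ≤ (W : ℝ) ^ 6 := one_le_pow₀ (by linarith)
  have hPbig' : 16384 * (W : ℝ) ≤ Real.log P := by
    refine le_trans ?_ hPbig
    nlinarith only [hW1, hWR, hW0]
  -- membership facts
  have hsubAC : A ∪ C ⊆ n.primeFactors := by rw [hAC]; exact filter_subset _ _
  have hAS : A ⊆ n.primeFactors := subset_union_left.trans hsubAC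
  have hCS : C ⊆ n.primeFactors := subset_union_right.trans hsubAC
  have hlePC : ∀ c ∈ C, c ≤ P := by
    intro c hc'
    have : c ∈ A ∪ C := mem_union_right _ hc'
    rw [hAC, mem_filter] at this
    exact this.2
  obtain ⟨p₁, hp₁⟩ : ∃ p₁, p₁ = C.min' ⟨P, hPC⟩ := ⟨_, rfl⟩
  have hp₁C : p₁ ∈ C := by rw [hp₁]; exact min'_mem _ _
  have hp₁min : ∀ c ∈ C, p₁ ≤ c := by
    intro c hc'
    rw [hp₁]
    exact min'_le _ _ hc'
  have hseg := bridge_seg hAC hltAC hp₁C hp₁min
  have hp₁S : p₁ ∈ n.primeFactors := hCS hp₁C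
  -- primes
  have hPp := Nat.prime_of_mem_primeFactors hP
  have hPR : (0 : ℝ) < P := by exact_mod_cast hPp.pos
  obtain ⟨β, hβ⟩ : ∃ β, β = Nat.log 2 P := ⟨_, rfl⟩
  obtain ⟨hβ1, hβ2⟩ := natlog_bounds hPp.pos
  rw [← hβ] at hβ1 hβ2
  have hPn : P ≤ n := Nat.le_of_mem_primeFactors hP
  have hβl : β ≤ l := by rw [hβ]; exact natlog_le (hPn.trans hn)
  have h2β : 2 ^ β ≤ P := by rw [hβ]; exact Nat.pow_log_le_self 2 hPp.pos.ne'
  have h2β' : P < 2 ^ (β + 1) := by rw [hβ]; exact Nat.lt_pow_succ_log_self (by norm_num) P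
  have h2βR : (2 : ℝ) ^ β ≤ P := by exact_mod_cast h2β
  have hβpos : 1 ≤ β := by
    by_contra hcon
    have : β = 0 := by omega
    rw [this] at hβ2
    push_cast at hβ2
    linarith only [hβ2, hPbig', hWR, l2]
  have hβR : (1 : ℝ) ≤ β := by exact_mod_cast hβpos
  -- the part up to P
  obtain ⟨D, hD⟩ : ∃ D, D = ∏ p ∈ n.primeFactors.filter (fun a => a ≤ P), p := ⟨_, rfl⟩
  obtain ⟨f, hf⟩ : ∃ f, f = ∏ p ∈ n.primeFactors.filter (fun a => ¬ a ≤ P), p := ⟨_, rfl⟩
  have hDf : n = D * f := by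
    rw [hD, hf, Finset.prod_filter_mul_prod_filter_not]
    exact (Nat.prod_primeFactors_of_squarefree hsq).symm
  have hD0 : 0 < D := by rw [hD]; exact prod_sub_pos (filter_subset _ _)
  have hf0 : 0 < f := by rw [hf]; exact prod_sub_pos (filter_subset _ _)
  have hDR : (0 : ℝ) < D := by exact_mod_cast hD0
  have hfR : (0 : ℝ) < f := by exact_mod_cast hf0
  have hf1 : 1 < f := by
    have h1 : q' ∣ f := by
      rw [hf]
      apply Finset.dvd_prod_of_mem (fun p => p)
      rw [mem_filter]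
      exact ⟨hq', by omega⟩
    have h2 := Nat.le_of_dvd hf0 h1
    have h3 := (Nat.prime_of_mem_primeFactors hq').two_le
    omega
  have hlsD : ls (n.primeFactors.filter (fun a => a ≤ P)) = Real.log D := by
    rw [ls_prod _ (sub_pos (filter_subset _ _)), hD]
  have hlsD2 : Real.log D = ls (n.primeFactors.filter (fun a => a < P)) + Real.log P := by
    rw [← hlsD]
    unfold ls
    exact sum_le_eq n.primeFactors (fun a : ℕ => Real.log (a : ℝ)) P hP
  have hb' := abs_le.1 hb
  have hlogD1 : X / 2 + Real.log P / 2 - W ≤ Real.log D := by rw [hlsD2]; linarith only [hb'.1]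
  have hlogD2 : Real.log D ≤ X / 2 + Real.log P / 2 + W := by rw [hlsD2]; linarith only [hb'.2]
  have hlogn : Real.log n ≤ X := by
    have h1 : (n : ℝ) ≤ 2 ^ l := by exact_mod_cast hn
    have h2 := Real.log_le_log hnR h1
    rw [Real.log_pow] at h2
    rw [hX]
    exact h2
  have hlogn2 : Real.log n = Real.log D + Real.log f := by
    rw [hDf]
    push_cast
    exact Real.log_mul hDR.ne' hfR.ne'
  have hlogf : Real.log f ≤ X / 2 - Real.log P / 2 + W := by linarith only [hlogn, hlogn2, hlogD1]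
  have hDsq : 2 ^ l ≤ D ^ 2 := by
    have h1 : X ≤ 2 * Real.log D := by linarith only [hlogD1, hPbig', hWR]
    rw [hX] at h1
    have h2 : Real.log ((2 : ℝ) ^ l) ≤ Real.log ((D : ℝ) ^ 2) := by
      rw [Real.log_pow, Real.log_pow]
      push_cast
      exact h1
    have h3 := (Real.log_le_log_iff (by positivity) (by positivity)).1 h2
    exact_mod_cast h3
  have hDAC : D = (∏ p ∈ A, p) * ∏ p ∈ C, p := by
    rw [hD, ← hAC, Finset.prod_union hdisj]
  have hlsDAC : Real.log D = ls A + ls C := by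
    rw [← hlsD, ← hAC]
    exact ls_union hdisj
  -- a
  obtain ⟨a, ha⟩ : ∃ a, a = ∏ p ∈ A, p := ⟨_, rfl⟩
  have hasm : sm p₁ n = a := by
    unfold sm
    rw [hseg, ha]
  have ha0 : 0 < a := by rw [ha]; exact prod_sub_pos hAS
  have haR : (0 : ℝ) < a := by exact_mod_cast ha0
  have hlsA : ls A = Real.log a := by rw [ha]; exact ls_prod _ (sub_pos hAS)
  obtain ⟨α, hα⟩ : ∃ α, α = Nat.log 2 a := ⟨_, rfl⟩
  obtain ⟨hα1, hα2⟩ := natlog_bounds ha0
  rw [← hα] at hα1 hα2
  have han : a ≤ n := by rw [ha]; exact prod_sub_le hn0 hAS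
  have hαl : α ≤ l := by rw [hα]; exact natlog_le (han.trans hn)
  have h2α : 2 ^ α ≤ a := by rw [hα]; exact Nat.pow_log_le_self 2 ha0.ne'
  have h2α' : a < 2 * 2 ^ α := by
    have : a < 2 ^ (α + 1) := by rw [hα]; exact Nat.lt_pow_succ_log_self (by norm_num) a
    rw [pow_succ] at this
    omega
  -- cluster primes
  have hCreal : ∀ c ∈ C, (2 : ℝ) ^ β * Real.exp (-4 * W) ≤ c := by
    intro c hc'
    have hcp := (Nat.prime_of_mem_primeFactors (hCS hc')).pos
    have hcR : (0 : ℝ) < c := by exact_mod_cast hcp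
    have h1 := hCw c hc'
    have h2 : Real.log ((2 : ℝ) ^ β * Real.exp (-4 * W)) ≤ Real.log c := by
      rw [Real.log_mul (by positivity) (Real.exp_pos _).ne', Real.log_exp, Real.log_pow]
      linarith only [h1, hβ1]
    exact (Real.log_le_log_iff (by positivity) hcR).1 h2
  have hH0 : 0 < (2 : ℝ) ^ β * Real.exp (-4 * W) := by positivity
  have big_of_log : ∀ p : ℕ, 0 < p → 2 * (W : ℝ) ≤ Real.log p → 2 * W ≤ p := by
    intro p hp0 hp
    have hpR : (0 : ℝ) < p := by exact_mod_cast hp0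
    have h1 := Real.log_le_sub_one_of_pos hpR
    have h2 : 2 * (W : ℝ) ≤ p := by linarith only [h1, hp]
    exact_mod_cast h2
  have hamem : a ∈ Lset k W ((2 : ℝ) ^ β * Real.exp (-4 * W)) (2 ^ α) := by
    rw [← hasm]
    have hp₁p := (Nat.prime_of_mem_primeFactors hp₁S).pos
    apply sm_mem h hc hp₁S _ hH0 (hCreal p₁ hp₁C)
    · rw [hasm]; exact h2α
    · rw [hasm]; exact h2α'
    · apply big_of_log p₁ hp₁p
      have := hCw p₁ hp₁C
      linarith only [this, hPbig', hWR]
  -- constraints for A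
  have hbig : l ≤ 4 * W * β := by
    have h1 : X ≤ 2 * W * Real.log P := by
      rw [div_le_iff₀ (by positivity)] at hlogP
      linarith only [hlogP]
    rw [hX] at h1
    have h2 : (l : ℝ) * Real.log 2 ≤ 2 * W * ((β : ℝ) + 1) * Real.log 2 := by
      calc (l : ℝ) * Real.log 2 ≤ 2 * W * Real.log P := h1
        _ ≤ 2 * W * (((β : ℝ) + 1) * Real.log 2) := mul_le_mul_of_nonneg_left hβ2 (by positivity)
        _ = _ := by ring
    have h3 : (l : ℝ) ≤ 2 * W * ((β : ℝ) + 1) := le_of_mul_le_mul_right h2 l20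
    have h4 : (l : ℝ) ≤ 4 * W * β := by nlinarith only [h3, hβR, hW0]
    exact_mod_cast h4
  have hcardC : #C ≤ W := (card_le_card hCS).trans hc
  have hrpos : 1 ≤ #C := card_pos.2 ⟨P, hPC⟩
  -- ls C
  have hlsC1 : ls C ≤ #C * Real.log P := by
    unfold ls
    rw [← nsmul_eq_mul]
    apply Finset.sum_le_card_nsmul
    intro c hc'
    have hcp := (Nat.prime_of_mem_primeFactors (hCS hc')).pos
    apply Real.log_le_log (by exact_mod_cast hcp)
    exact_mod_cast hlePC c hc'
  have hlsC2 : #C * (Real.log P - 4 * W) ≤ ls C := by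
    unfold ls
    rw [← nsmul_eq_mul]
    apply Finset.card_nsmul_le_sum
    exact hCw
  have hCR : (#C : ℝ) ≤ W := by exact_mod_cast hcardC
  have hCR1 : (1 : ℝ) ≤ #C := by exact_mod_cast hrpos
  have hlog2W : Real.log (2 * W) ≤ 2 * W := by
    have := Real.log_le_sub_one_of_pos (show (0 : ℝ) < 2 * W by positivity)
    linarith only [this]
  have hgrowA : (2 : ℝ) ^ β * Real.exp (-4 * W) ≤ 4 * W * 2 ^ α := by
    have h1 := h.prime_le hp₁S
    rw [hasm] at h1
    have h2 : p₁ ≤ 4 * W * 2 ^ α := by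
      calc p₁ ≤ 2 * n.primeFactors.card * a := h1.le
        _ ≤ 2 * W * a := Nat.mul_le_mul_right _ (by omega)
        _ ≤ 2 * W * (2 * 2 ^ α) := Nat.mul_le_mul_left _ h2α'.le
        _ = _ := by ring
    have h3 : (p₁ : ℝ) ≤ 4 * W * 2 ^ α := by exact_mod_cast h2
    exact (hCreal p₁ hp₁C).trans h3
  rcases halt with hsmall | ⟨q, hqA, hqlog, J₁, J₂, hJd, hJu, hJ1, hJ2⟩
  · -- case A
    have hconA : ConA l W (#C) α β := by
      refine ⟨?_, ?_, ?_, hbig, hgrowA⟩
      · -- size
        rw [← hX]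
        rw [hlsA] at hlsDAC
        have e1 : (#C : ℝ) * (4 * W) ≤ 4 * (W : ℝ) ^ 2 := by nlinarith only [hCR, hW0]
        obtain ⟨ε, hε⟩ : ∃ ε, ε = Real.log P - β * Real.log 2 := ⟨_, rfl⟩
        obtain ⟨ε', hε'⟩ : ∃ ε', ε' = Real.log a - α * Real.log 2 := ⟨_, rfl⟩
        obtain ⟨δ, hδ⟩ : ∃ δ, δ = #C * Real.log P - ls C := ⟨_, rfl⟩
        have hε0 : 0 ≤ ε := by rw [hε]; linarith only [hβ1]
        have hε1 : ε ≤ 1 := by rw [hε]; linarith only [hβ2, l2]
        have hε'0 : 0 ≤ ε' := by rw [hε']; linarith only [hα1]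
        have hε'1 : ε' ≤ 1 := by rw [hε']; linarith only [hα2, l2]
        have hδ0 : 0 ≤ δ := by rw [hδ]; linarith only [hlsC1]
        have hδ1 : δ ≤ 4 * (W : ℝ) ^ 2 := by rw [hδ]; linarith only [hlsC2, e1]
        have hrε0 : 0 ≤ (2 * (#C : ℝ) - 1) * ε := mul_nonneg (by linarith only [hCR1]) hε0
        have hrε1 : (2 * (#C : ℝ) - 1) * ε ≤ 2 * W := by
          calc (2 * (#C : ℝ) - 1) * ε ≤ (2 * (#C : ℝ) - 1) * 1 :=
                mul_le_mul_of_nonneg_left hε1 (by linarith only [hCR1])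
            _ ≤ 2 * W := by linarith only [hCR]
        have hWW : (W : ℝ) ≤ (W : ℝ) ^ 2 := by nlinarith only [hWR]
        have key : X - 2 * α * Real.log 2 - (2 * (#C : ℝ) - 1) * β * Real.log 2 =
            (X - (2 * Real.log D - Real.log P)) + 2 * ε' + (2 * (#C : ℝ) - 1) * ε - 2 * δ := by
          rw [hε, hε', hδ]
          have : Real.log a = Real.log D - ls C := by linarith only [hlsDAC]
          rw [this]
          ring
        rw [key, abs_le]
        constructor <;> linarith only [hlogD1, hlogD2, hε'0, hε'1, hrε0, hrε1, hδ0, hδ1, hWW, hWR]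
      · -- up
        rw [hlsA] at hsmall
        have hτ : 0 < 1 / (512 * (W : ℝ) ^ 4) := by positivity
        have hτ1 : 1 / (512 * (W : ℝ) ^ 4) ≤ 1 := by
          rw [div_le_one (by positivity)]
          have : (1 : ℝ) ≤ (W : ℝ) ^ 4 := one_le_pow₀ (by linarith only [hWR])
          linarith only [this]
        calc (α : ℝ) * Real.log 2 ≤ Real.log a := hα1
          _ ≤ (1 + 1 / (512 * (W : ℝ) ^ 4)) * Real.log P := hsmall
          _ ≤ (1 + 1 / (512 * (W : ℝ) ^ 4)) * (β * Real.log 2 + Real.log 2) := by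
              apply mul_le_mul_of_nonneg_left _ (by linarith only [hτ])
              linarith only [hβ2]
          _ ≤ _ := by nlinarith only [hτ, hτ1, l2, l20]
      · -- lo
        rw [hlsA] at hAlow
        linarith only [hAlow, hlog2W, hα2, hβ1, hWR, l2]
    have hf_le : (f : ℝ) ≤ (2 : ℝ) ^ ((l : ℝ) / 2 - (β : ℝ) / 2) * Real.exp (W + 1) := by
      have h1 : Real.log f ≤ Real.log ((2 : ℝ) ^ ((l : ℝ) / 2 - (β : ℝ) / 2) * Real.exp (W + 1)) := by
        rw [Real.log_mul (by positivity) (Real.exp_pos _).ne', Real.log_exp,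
          Real.log_rpow (by norm_num)]
        rw [hX] at hlogf
        linarith only [hlogf, hβ1, l2]
      exact (Real.log_le_log_iff hfR (by positivity)).1 h1
    by_cases hr : 2 ≤ #C
    · left
      refine ⟨#C, α, β, hr, hcardC, hαl, hβl, hconA, a, f, fun i => ((C.equivFin.symm i : C) : ℕ),
        ?_, hamem, ?_, ?_, hf1, ?_, hf_le⟩
      · have h1 : ∏ i : Fin (#C), ((C.equivFin.symm i : C) : ℕ) = ∏ p ∈ C, p := by
          rw [Equiv.prod_comp C.equivFin.symm (fun x : C => (x : ℕ))]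
          exact Finset.prod_coe_sort C (fun p => p)
        rw [h1, ha, ← hDAC]
        exact hDf
      · intro i
        have hmem : ((C.equivFin.symm i : C) : ℕ) ∈ C := (C.equivFin.symm i).2
        refine ⟨Nat.prime_of_mem_primeFactors (hCS hmem), hCreal _ hmem, ?_⟩
        exact lt_of_le_of_lt (hlePC _ hmem) h2β'
      · intro i j hij
        have := Subtype.ext hij
        exact C.equivFin.symm.injective this
      · have h1 : ∏ i : Fin (#C), ((C.equivFin.symm i : C) : ℕ) = ∏ p ∈ C, p := by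
          rw [Equiv.prod_comp C.equivFin.symm (fun x : C => (x : ℕ))]
          exact Finset.prod_coe_sort C (fun p => p)
        rw [h1, ha, ← hDAC]
        exact hDsq
    · right; left
      have hr1 : #C = 1 := by omega
      rw [hr1] at hconA
      have hCP : C = {P} := by
        rw [card_eq_one] at hr1
        obtain ⟨c, hc'⟩ := hr1
        rw [hc', mem_singleton] at hPC
        rw [hc', hPC]
      have hlsCP : ls C = Real.log P := by
        rw [hCP]
        unfold ls
        exact Finset.sum_singleton _ _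
      -- the upper part is one prime
      have hfil : n.primeFactors.filter (fun a => ¬ a ≤ P) = {q'} := by
        by_contra hne
        have h1 : q' ∈ n.primeFactors.filter (fun a => ¬ a ≤ P) := by
          rw [mem_filter]; exact ⟨hq', by omega⟩
        have h2 : ∃ q'' ∈ n.primeFactors.filter (fun a => ¬ a ≤ P), q'' ≠ q' := by
          by_contra hcon
          apply hne
          rw [Finset.eq_singleton_iff_unique_mem]
          exact ⟨h1, fun x hx => by_contra (fun hxq => hcon ⟨x, hx, hxq⟩)⟩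
        obtain ⟨q'', hq'', hne'⟩ := h2
        have h3 : ({q', q''} : Finset ℕ) ⊆ n.primeFactors.filter (fun a => ¬ a ≤ P) := by
          intro x hx
          rw [mem_insert, mem_singleton] at hx
          rcases hx with rfl | rfl
          · exact h1
          · exact hq''
        have h4 : Real.log q' + Real.log q'' ≤ Real.log f := by
          have h5 : ls {q', q''} = Real.log q' + Real.log q'' := by
            unfold ls
            rw [Finset.sum_pair hne'.symm]
          rw [← h5, hf, ← ls_prod _ (sub_pos (filter_subset _ _))]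
          unfold ls
          exact Finset.sum_le_sum_of_subset_of_nonneg h3 (fun p _ _ => Real.log_natCast_nonneg p)
        have h5 : Real.log P ≤ Real.log q' :=
          Real.log_le_log hPR (by exact_mod_cast hPq'.le)
        have h6 : Real.log P ≤ Real.log q'' := by
          rw [mem_filter] at hq''
          exact Real.log_le_log hPR (by exact_mod_cast (by omega : P ≤ q''))
        have h7 : X / 2 ≤ ls A + Real.log P / 2 + W := by linarith only [hlsDAC, hlsCP, hlogD1]
        have h8 : (1 + 1 / (512 * (W : ℝ) ^ 4)) * Real.log P ≤ (1 + 1 / 512) * Real.log P := by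
          apply mul_le_mul_of_nonneg_right _ (by linarith only [hPbig', hWR])
          have : (1 : ℝ) ≤ (W : ℝ) ^ 4 := one_le_pow₀ (by linarith only [hWR])
          have : 1 / (512 * (W : ℝ) ^ 4) ≤ 1 / 512 := by
            apply one_div_le_one_div_of_le (by norm_num)
            linarith only [this]
          linarith only [this]
        linarith only [h4, h5, h6, h7, h8, hsmall, hlogf, hPbig', hWR]
      have hfq : f = q' := by rw [hf, hfil, Finset.prod_singleton]
      refine ⟨α, β, hαl, hβl, hconA, a, P, q', ?_, hamem, hPp,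
        Nat.prime_of_mem_primeFactors hq', hPq', h2β⟩
      rw [← hfq, ha]
      conv_lhs => rw [hDf, hDAC, hCP, Finset.prod_singleton]
  · -- case B
    right; right
    have hqS : q ∈ n.primeFactors := hAS hqA
    have hqp := Nat.prime_of_mem_primeFactors hqS
    have hqR : (0 : ℝ) < q := by exact_mod_cast hqp.pos
    have hq0 : 0 < q := hqp.pos
    have hqn : q ≤ n := Nat.le_of_mem_primeFactors hqS
    -- log q is large
    have hqlog' : Real.log P ≤ 1024 * (W : ℝ) ^ 5 * Real.log q := by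
      have h1 : 1 / (512 * (W : ℝ) ^ 4) * Real.log P / (2 * W) =
          Real.log P / (1024 * (W : ℝ) ^ 5) := by
        field_simp
        ring
      rw [h1, div_le_iff₀ (by positivity)] at hqlog
      linarith only [hqlog]
    have hqbig : 16 * (W : ℝ) ≤ Real.log q := by
      have h1 : 1024 * (W : ℝ) ^ 5 * (16 * (W : ℝ)) ≤ 1024 * (W : ℝ) ^ 5 * Real.log q := by
        refine le_trans ?_ hqlog'
        refine le_trans ?_ hPbig
        have h2 : 1024 * (W : ℝ) ^ 5 * (16 * (W : ℝ)) = 16384 * (W : ℝ) ^ 6 := by ring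
        have h3 : 16 * (W : ℝ) ^ 6 * 1024 * W = 16384 * (W : ℝ) ^ 6 * W := by ring
        rw [h2, h3]
        nlinarith only [hW1, hWR]
      exact le_of_mul_le_mul_left h1 (by positivity)
    -- m
    obtain ⟨m, hm⟩ : ∃ m, m = sm q n := ⟨_, rfl⟩
    have hm0 : 0 < m := by rw [hm]; exact sm_pos q n
    have hmR : (0 : ℝ) < m := by exact_mod_cast hm0
    have hmn : m ≤ n := by rw [hm]; exact prod_sub_le hn0 (filter_subset _ _)
    obtain ⟨μ, hμ⟩ : ∃ μ, μ = Nat.log 2 m := ⟨_, rfl⟩
    obtain ⟨hμ1, hμ2⟩ := natlog_bounds hm0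
    rw [← hμ] at hμ1 hμ2
    have h2μ : 2 ^ μ ≤ m := by rw [hμ]; exact Nat.pow_log_le_self 2 hm0.ne'
    have h2μ' : m < 2 * 2 ^ μ := by
      have : m < 2 ^ (μ + 1) := by rw [hμ]; exact Nat.lt_pow_succ_log_self (by norm_num) m
      rw [pow_succ] at this
      omega
    -- θ
    obtain ⟨θ, hθ⟩ : ∃ θ, θ = Nat.log 2 q := ⟨_, rfl⟩
    obtain ⟨hθ1, hθ2⟩ := natlog_bounds hq0
    rw [← hθ] at hθ1 hθ2
    have h2θ : 2 ^ θ ≤ q := by rw [hθ]; exact Nat.pow_log_le_self 2 hq0.ne'
    have h2θ' : q < 2 ^ (θ + 1) := by rw [hθ]; exact Nat.lt_pow_succ_log_self (by norm_num) q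
    have hθpos : 1 ≤ θ := by
      by_contra hcon
      have : θ = 0 := by omega
      rw [this] at hθ2
      push_cast at hθ2
      linarith only [hθ2, hqbig, hWR, l2]
    have hθR : (1 : ℝ) ≤ θ := by exact_mod_cast hθpos
    -- g
    obtain ⟨g, hg⟩ : ∃ g, g = ∏ p ∈ C, p := ⟨_, rfl⟩
    have hg0 : 0 < g := by rw [hg]; exact prod_sub_pos hCS
    have hgR : (0 : ℝ) < g := by exact_mod_cast hg0
    have hgn : g ≤ n := by rw [hg]; exact prod_sub_le hn0 hCS
    have hlsCg : ls C = Real.log g := by rw [hg]; exact ls_prod _ (sub_pos hCS)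
    obtain ⟨ν, hν⟩ : ∃ ν, ν = Nat.log 2 g := ⟨_, rfl⟩
    obtain ⟨hν1, hν2⟩ := natlog_bounds hg0
    rw [← hν] at hν1 hν2
    have h2ν : 2 ^ ν ≤ g := by rw [hν]; exact Nat.pow_log_le_self 2 hg0.ne'
    have h2ν' : g < 2 ^ (ν + 1) := by rw [hν]; exact Nat.lt_pow_succ_log_self (by norm_num) g
    -- the decomposition of A
    have hAdec : A = (A.filter (fun a => a < q)) ∪ ({q} ∪ A.filter (fun a => q < a)) := by
      ext x
      simp only [mem_union, mem_filter, mem_singleton]
      constructor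
      · intro hx
        rcases lt_trichotomy x q with h1 | h1 | h1
        · exact Or.inl ⟨hx, h1⟩
        · exact Or.inr (Or.inl h1)
        · exact Or.inr (Or.inr ⟨hx, h1⟩)
      · rintro (⟨hx, _⟩ | rfl | ⟨hx, _⟩)
        · exact hx
        · exact hqA
        · exact hx
    have hd1 : Disjoint ({q} : Finset ℕ) (A.filter (fun a => q < a)) := by
      rw [disjoint_singleton_left, mem_filter]
      omega
    have hd2 : Disjoint (A.filter (fun a => a < q)) ({q} ∪ A.filter (fun a => q < a)) := by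
      rw [Finset.disjoint_left]
      intro x hx hx'
      rw [mem_filter] at hx
      rw [mem_union, mem_singleton, mem_filter] at hx'
      omega
    have hmA : A.filter (fun a => a < q) = n.primeFactors.filter (fun a => a < q) := by
      ext x
      rw [mem_filter, mem_filter]
      constructor
      · rintro ⟨h1, h2⟩
        exact ⟨hAS h1, h2⟩
      · rintro ⟨h1, h2⟩
        refine ⟨?_, h2⟩
        rw [← hseg, mem_filter]
        refine ⟨h1, ?_⟩
        have := hltAC q hqA p₁ hp₁C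
        omega
    have hmprod : ∏ p ∈ A.filter (fun a => a < q), p = m := by
      rw [hmA, hm]
      rfl
    obtain ⟨b₁, hb₁⟩ : ∃ b, b = ∏ p ∈ J₁, p := ⟨_, rfl⟩
    obtain ⟨b₂, hb₂⟩ : ∃ b, b = ∏ p ∈ J₂, p := ⟨_, rfl⟩
    have hJ₁S : J₁ ⊆ n.primeFactors := by
      have : J₁ ⊆ J₁ ∪ J₂ := subset_union_left
      rw [hJu] at this
      exact (this.trans (filter_subset _ _)).trans hAS
    have hJ₂S : J₂ ⊆ n.primeFactors := by
      have : J₂ ⊆ J₁ ∪ J₂ := subset_union_right
      rw [hJu] at this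
      exact (this.trans (filter_subset _ _)).trans hAS
    have hb₁0 : 0 < b₁ := by rw [hb₁]; exact prod_sub_pos hJ₁S
    have hb₂0 : 0 < b₂ := by rw [hb₂]; exact prod_sub_pos hJ₂S
    have hb₁R : (0 : ℝ) < b₁ := by exact_mod_cast hb₁0
    have hb₂R : (0 : ℝ) < b₂ := by exact_mod_cast hb₂0
    have hlsJ₁ : ls J₁ = Real.log b₁ := by rw [hb₁]; exact ls_prod _ (sub_pos hJ₁S)
    have hlsJ₂ : ls J₂ = Real.log b₂ := by rw [hb₂]; exact ls_prod _ (sub_pos hJ₂S)
    rw [hlsJ₁] at hJ1
    rw [hlsJ₂] at hJ2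
    have hJ1' := abs_le.1 hJ1
    have hJ2' := abs_le.1 hJ2
    have hadec : a = m * q * b₁ * b₂ := by
      rw [ha, hAdec, Finset.prod_union hd2, Finset.prod_union hd1, Finset.prod_singleton, hmprod,
        ← hJu, Finset.prod_union hJd, ← hb₁, ← hb₂]
      ring
    have hDdec : D = m * g * q * b₁ * b₂ := by
      rw [hDAC, ← ha, ← hg, hadec]
      ring
    have hlogD : Real.log D = Real.log m + Real.log g + Real.log q + Real.log b₁ + Real.log b₂ := by
      rw [hDdec]
      push_cast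
      rw [Real.log_mul (by positivity) (by positivity), Real.log_mul (by positivity) (by positivity),
        Real.log_mul (by positivity) (by positivity), Real.log_mul (by positivity) (by positivity)]
    have hbound : ∀ b : ℕ, 0 < b → Real.log b ≤ (Real.log P - Real.log q) / 2 + 2 * W →
        (b : ℝ) ≤ (2 : ℝ) ^ (((β : ℝ) - θ) / 2) * Real.exp (2 * W + 1) := by
      intro b hb0 hbl
      have hbR : (0 : ℝ) < b := by exact_mod_cast hb0
      have h1 : Real.log b ≤ Real.log ((2 : ℝ) ^ (((β : ℝ) - θ) / 2) * Real.exp (2 * W + 1)) := by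
        rw [Real.log_mul (by positivity) (Real.exp_pos _).ne', Real.log_exp,
          Real.log_rpow (by norm_num)]
        linarith only [hbl, hβ2, hθ1, l2]
      exact (Real.log_le_log_iff hbR (by positivity)).1 h1
    refine ⟨μ, ν, θ, β, ?_, ?_, ?_, hβl, ⟨?_, ?_, ?_, hbig, ?_⟩, m, g, q, b₁, b₂, f, ?_, ?_, h2ν,
      h2ν', hqp, h2θ, h2θ', hbound b₁ hb₁0 (by linarith only [hJ1'.2]), hbound b₂ hb₂0 (by linarith only [hJ2'.2]), hf1, ?_, ?_⟩
    · rw [hμ]; exact natlog_le (hmn.trans hn)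
    · rw [hν]; exact natlog_le (hgn.trans hn)
    · rw [hθ]; exact natlog_le (hqn.trans hn)
    · -- size
      rw [hX] at hlogD2
      linarith only [hlogD2, hlogD, hJ1'.1, hJ2'.1, hμ1, hν1, hβ1, hWR]
    · -- theta
      have h1 : (β : ℝ) * Real.log 2 ≤ 1024 * (W : ℝ) ^ 5 * (((θ : ℝ) + 1) * Real.log 2) :=
        calc (β : ℝ) * Real.log 2 ≤ Real.log P := hβ1
          _ ≤ 1024 * (W : ℝ) ^ 5 * Real.log q := hqlog'
          _ ≤ _ := mul_le_mul_of_nonneg_left hθ2 (by positivity)
      have h2 : (β : ℝ) * Real.log 2 ≤ (1024 * (W : ℝ) ^ 5 * ((θ : ℝ) + 1)) * Real.log 2 := by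
        linarith only [h1]
      have h3 : (β : ℝ) ≤ 1024 * (W : ℝ) ^ 5 * ((θ : ℝ) + 1) := le_of_mul_le_mul_right h2 l20
      have h4 : 1024 * (W : ℝ) ^ 5 * ((θ : ℝ) + 1) ≤ 2048 * (W : ℝ) ^ 5 * θ := by
        have : (0 : ℝ) < (W : ℝ) ^ 5 := by positivity
        nlinarith only [this, hθR]
      have h5 := h3.trans h4
      exact_mod_cast h5
    · -- third
      have := hAw q hqA
      linarith only [this, hθ1, hβ2, l2, hWR]
    · -- grow
      have h1 := h.prime_le hqS
      rw [← hm] at h1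
      have h2 : 2 ^ θ ≤ 4 * W * 2 ^ μ := by
        calc 2 ^ θ ≤ q := h2θ
          _ ≤ 2 * n.primeFactors.card * m := h1.le
          _ ≤ 2 * W * m := Nat.mul_le_mul_right _ (by omega)
          _ ≤ 2 * W * (2 * 2 ^ μ) := Nat.mul_le_mul_left _ h2μ'.le
          _ = _ := by ring
      exact_mod_cast h2
    · rw [← hDdec]; exact hDf
    · rw [hm]
      apply sm_mem h hc hqS (big_of_log q hq0 (by linarith only [hqbig, hWR])) (by positivity) (by exact_mod_cast h2θ)
      · rw [← hm]; exact h2μ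
      · rw [← hm]; exact h2μ'
    · rw [← hDdec]; exact hDsq
    · -- lam
      rw [← hDdec]
      obtain ⟨F, hF⟩ : ∃ F, F = n.primeFactors.filter (fun a => ¬ a ≤ P) := ⟨_, rfl⟩
      have hFne : F.Nonempty := ⟨q', by rw [hF, mem_filter]; exact ⟨hq', by omega⟩⟩
      obtain ⟨P', hP'⟩ : ∃ P', P' = F.min' hFne := ⟨_, rfl⟩
      have hP'F : P' ∈ F := by rw [hP']; exact min'_mem _ _
      have hP'm := hP'F
      rw [hF, mem_filter] at hP'm
      have hsmP' : sm P' n = D := by
        rw [hD]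
        unfold sm
        congr 1
        ext x
        rw [mem_filter, mem_filter]
        constructor
        · rintro ⟨h1, h2⟩
          refine ⟨h1, ?_⟩
          by_contra hcon
          have h3 : x ∈ F := by rw [hF, mem_filter]; exact ⟨h1, hcon⟩
          have h4 := min'_le F x h3
          rw [← hP'] at h4
          omega
        · rintro ⟨h1, h2⟩
          exact ⟨h1, by omega⟩
      have hPP' : Real.log P ≤ Real.log P' :=
        Real.log_le_log hPR (by exact_mod_cast (by omega : P ≤ P'))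
      have hmem : D ∈ Lset k W ((2 : ℝ) ^ β) (2 ^ Nat.log 2 D) := by
        rw [← hsmP']
        apply sm_mem h hc hP'm.1
          (big_of_log P' (Nat.prime_of_mem_primeFactors hP'm.1).pos (by linarith only [hPP', hPbig', hWR])) (by positivity)
        · calc (2 : ℝ) ^ β ≤ P := h2βR
            _ ≤ P' := by exact_mod_cast (by omega : P ≤ P')
        · rw [hsmP']; exact Nat.pow_log_le_self 2 hD0.ne'
        · rw [hsmP']
          have : D < 2 ^ (Nat.log 2 D + 1) := Nat.lt_pow_succ_log_self (by norm_num) D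
          rw [pow_succ] at this
          omega
      unfold Lset at hmem
      rw [mem_filter] at hmem
      exact hmem.2.2.2.1

end Pool.Agent.Helper58.LT
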