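import Mathlib
import Pool.Agent.Helper58.LT.ClassDefs
import Pool.Agent.Helper58.LT.Spacing
import Pool.Agent.Helper58.LT.KeyBound
import Pool.Agent.Helper72.CA.Main

/-!
# Case A, one class (stub of the interface; helper69/helper72 write the sub-stubs)

Parameters: `k_A = 8 W`, `s = k_A^3 = 512 W^3`, `N = 2^l`, `H0 = 2^β e^{-4W}`,
`Λ = Lset k W H0 (2^α)`, `K` = primes in `[H0, 2^{β+1})`, `γ = 1 / (r (s - r))`.
(1) `#S^2 ≤ F (2 r + 11) mom Λ ψ K ψ 1 r`, `F = 2^{l/2-β/2} e^{W+1}`: for every `n ∈ S` choose data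
`(a, c, f)`; `f` takes at most `F` values, Cauchy-Schwarz over `f`; a pair `(n, n')` with the same `f`
gives `(a, c), (a', c')` (injective by `eq_of_divisor`, `D = a ∏ c`) with
`λ(a) + ∑ λ(c i) = λ(n) - λ(f)`, `λ(n) ∈ (log k, log k + 2/n]`, `n ≥ D f`... (use `2^l ≤ D^2`, `n ≥ D`;
`2/n` is not `O(2^{-l})` unless `n ≥ 2^{l-1}`, which is among the hypotheses), so
`|∑ψ - ∑ψ'| ≤ 4 + (r+1)` + rounding: at most `2 r + 11` integer values, each at most the energy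
(`en_shift_le`).
(2) `energy_bound`, `key_bound` (Sidon: `sidon_primes` with `P = 2^{β+1}`), `Js_primes`, `Js_sqfree`
(`a < 2^{α+1}`: `2 r (2^{α+1})^{2r} ≤ 2^l` because `(2r-2)(1+τ) < 2r-1`), `HM` with `k = k_A`,
`Q = ⌈H0⌉`, `H = ⌈2^{β+1}/Q⌉ ≤ 4 e^{4W}`, and `card_Lset`.
(3) numerics, see section 5 of the blackboard: the total is
`2^l exp (-(5/4 - small) γ β log 2 + τ β log 2 + O(W^2) + γ C k_A^10)` with `τ = 1/(512 W^4) ≤ γ`.
-/

namespace Pool.Agent.Helper58.LT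

open Finset Pool.Agent.Helper6.Lehmer Pool.Agent.Helper6.LehmerCount

theorem classA : ∃ W₀ : ℕ, ∀ (l W k r α β : ℕ) (S : Finset ℕ), W₀ ≤ W → W ^ 60 ≤ l → 2 ≤ r → r ≤ W →
    ConA l W r α β →
    (∀ n ∈ S, Idx n k ∧ n ≤ 2 ^ l ∧ 2 ^ (l - 1) < n ∧ DataA n l W k r α β) →
    (#S : ℝ) ≤ (2 : ℝ) ^ ((l : ℝ) / 2) * Real.exp (-((l : ℝ) / (W : ℝ) ^ 7)) :=
  Pool.Agent.Helper72.CA.classA

end Pool.Agent.Helper58.LT
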