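import Mathlib
import Pool.Agent.Helper58.LT.ClassDefs
import Pool.Agent.Helper58.LT.Spacing
import Pool.Agent.Helper58.LT.Convex
import Pool.Agent.Helper73.HM.Main
import Pool.Agent.Helper84.CB.Count
import Pool.Agent.Helper84.CB.Inject
import Pool.Agent.Helper84.CB.Numeric

/-!
# Case B, one class

Parameters: `k_B = 4096 W^5`, `s = k_B^3`, `N = 2^β`, `Q = 2^θ`, `𝒬` = primes in `[2^θ, 2^{θ+1})`,
`𝓑` = squarefree positive integers `≤ B := 2^{(β-θ)/2} e^{2W+1}`.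
(1) For real `v` the number of `(q, b₁, b₂) ∈ 𝒬 × 𝓑 × 𝓑` with
`v - 2W/2^β < λ(q) + λ(b₁) + λ(b₂) < v` is at most `(2 W + 6)` times the maximum over integers `u` of
`#{ψ(q)+ψ(b₁)+ψ(b₂) = u}` (`ψ = psi N`, floors), and by `card_sum_sq_le` this number is
`≤ (mom 𝓑 ψ 𝒬 ψ 1 1 * Js 𝓑 ψ 1)^{1/2}`; `mom 1 1 ≤ (mom 1 s)^{1/s} (mom 1 0)^{1-1/s}`
(`mom_convex_int`), `mom 1 s ≤ #𝓑^2 Js 𝒬 ψ s` (`en_prod_le`), `mom 1 0 = Js 𝓑 ψ 1 = #𝓑`
(`spacing_psi`: `2 B^2 ≤ N` because `2^θ ≥ 2 e^{4W+2}`).  Result `#𝓑 (#𝓑 Js 𝒬 ψ s)^{1/(2s)}`.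
(2) `HM` (`psi_prime`, `k = k_B`, `H = 2`): `Js 𝒬 ψ s ≤ exp(C k^10) 2^{4s} Q^{2s+7/4}/N`.
(3) `n ↦ (m, g, q, b₁, b₂)` is injective (`eq_of_divisor`, `D = m g q b₁ b₂ < n`),
`λ(q)+λ(b₁)+λ(b₂) = λ(D) - λ(m) - λ(g)` (`n` squarefree), `#Lset ≤ 24 W^2 2^μ / 2^{θ/2}`, `g < 2^{ν+1}`.
(4) numerics, section 4 of the blackboard: total
`≤ 2^{l/2} exp (O(W) - θ log 2/(8 s) + C k_B^10/(2 s))`.
-/

namespace Pool.Agent.Helper58.LT

open Finset Pool.Agent.Helper6.Lehmer Pool.Agent.Helper6.LehmerCount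

private theorem cb_exp (n : ℕ) : (2 : ℝ) ^ n = Real.exp (n * Real.log 2) := by
  rw [← Real.rpow_natCast, Real.rpow_def_of_pos (by norm_num), mul_comm]

private theorem cb_exp' (t : ℝ) : (2 : ℝ) ^ t = Real.exp (t * Real.log 2) := by
  rw [Real.rpow_def_of_pos (by norm_num), mul_comm]

/-- `ψ` is injective on the squarefree numbers up to `R`, `2 R ^ 2 ≤ N` -/
private theorem cb_inj (R : ℝ) (hR : 0 ≤ R) (N : ℕ) (hN : 2 * R ^ 2 ≤ N) :
    Js (Helper84.CB.Bs R) (psi N) 1 ≤ #(Helper84.CB.Bs R) := by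
  classical
  unfold Js en
  refine card_le_card_of_injOn (fun z => z.1 0) ?_ ?_
  · rintro ⟨x, y⟩ hz
    simp only [coe_filter, mem_product, Set.mem_ofPred_eq] at hz
    exact mem_coe.2 (mem_tup.1 hz.1.1 0)
  · have key : ∀ x y : Fin 1 → ℕ, x ∈ tup (Helper84.CB.Bs R) 1 → y ∈ tup (Helper84.CB.Bs R) 1 →
        sm' (psi N) x = sm' (psi N) y → x = y := by
      intro x y hx hy h
      have hx0 := mem_tup.1 hx 0
      have hy0 := mem_tup.1 hy 0
      unfold Helper84.CB.Bs at hx0 hy0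
      rw [mem_filter, mem_Icc] at hx0 hy0
      have h1 : ∏ i, x i = ∏ i, y i := by
        refine spacing_psi (Z := R ^ 2) x y ?_ ?_ le_rfl ?_ ?_ h
        · intro i
          rw [Subsingleton.elim i 0]
          exact hx0.2
        · intro i
          rw [Subsingleton.elim i 0]
          exact hy0.2
        · rw [univ_unique, prod_singleton, prod_singleton, sq]
          have a1 : ((x default : ℕ) : ℝ) ≤ R := (Nat.le_floor_iff hR).1 hx0.1.2
          have a2 : ((y default : ℕ) : ℝ) ≤ R := (Nat.le_floor_iff hR).1 hy0.1.2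
          exact mul_le_mul a1 a2 (Nat.cast_nonneg _) hR
        · push_cast
          linarith
      rw [univ_unique, prod_singleton, prod_singleton] at h1
      funext i
      rw [Subsingleton.elim i 0]
      exact h1
    rintro ⟨x, y⟩ hz ⟨x', y'⟩ hz' heq
    simp only [coe_filter, mem_product, Set.mem_ofPred_eq] at hz hz'
    have e1 := key x y hz.1.1 hz.1.2 hz.2
    have e2 := key x' y' hz'.1.1 hz'.1.2 hz'.2
    have e3 : x = x' := by
      funext i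
      rw [Subsingleton.elim i 0]
      exact heq
    rw [← e1, ← e2, e3]

private theorem cb_card (R : ℝ) (hR : 0 ≤ R) : (#(Helper84.CB.Bs R) : ℝ) ≤ R := by
  classical
  unfold Helper84.CB.Bs
  have h1 : #((Icc 1 ⌊R⌋₊).filter Squarefree) ≤ ⌊R⌋₊ := by
    refine (card_filter_le _ _).trans ?_
    rw [Nat.card_Icc]
    omega
  exact le_trans (by exact_mod_cast h1) (Nat.floor_le hR)

/-- `ψ` agrees with `psq` on the primes -/
private theorem cb_js (θ N s : ℕ) : Js (Helper84.CB.Qs θ) (psi N) s =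
    Js (Helper84.CB.Qs θ) (Helper73.HM.psq N) s := by
  unfold Js en
  congr 1
  refine filter_congr ?_
  rintro ⟨x, y⟩ hz
  rw [mem_product] at hz
  have key : ∀ x : Fin s → ℕ, x ∈ tup (Helper84.CB.Qs θ) s →
      sm' (psi N) x = sm' (Helper73.HM.psq N) x := by
    intro x hx
    unfold sm'
    refine sum_congr rfl fun i _ => ?_
    have h1 := mem_tup.1 hx i
    unfold Helper84.CB.Qs at h1
    exact psi_prime (mem_filter.1 h1).2
  simp only
  rw [key x hz.1, key y hz.2]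

theorem classB : ∃ W₀ : ℕ, ∀ (l W k μ ν θ β : ℕ) (S : Finset ℕ), W₀ ≤ W → W ^ 60 ≤ l →
    ConB l W μ ν θ β →
    (∀ n ∈ S, Idx n k ∧ n ≤ 2 ^ l ∧ 2 ^ (l - 1) < n ∧ DataB n l W k μ ν θ β) →
    (#S : ℝ) ≤ (2 : ℝ) ^ ((l : ℝ) / 2) * Real.exp (-((l : ℝ) / (W : ℝ) ^ 23)) := by
  obtain ⟨C, hC, hHM⟩ := Helper73.HM.HM
  obtain ⟨W₀, hW₀, hnum⟩ := Helper84.CB.numeric C hC
  refine ⟨W₀, ?_⟩
  intro l W k μ ν θ β S hW hl hcon hS
  have hL : 0 < Real.log 2 := Real.log_pos (by norm_num)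
  have hL1 : Real.log 2 ≤ 1 := by
    have := Real.log_two_lt_d9
    linarith
  have hLh : 1 / 2 ≤ Real.log 2 := by
    have := Real.log_two_gt_d9
    linarith
  have hW2 : 2 ≤ W := by omega
  have hWR : (2 : ℝ) ≤ W := by exact_mod_cast hW2
  have hW1 : (1 : ℝ) ≤ W := by linarith
  have hW0 : (0 : ℝ) < W := by linarith
  have hlR : (W : ℝ) ^ 60 ≤ l := by exact_mod_cast hl
  -- size of θ
  have hθ : l ≤ 8192 * W ^ 6 * θ := by
    have h1 := hcon.big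
    have h2 := hcon.theta
    calc l ≤ 4 * W * β := h1
      _ ≤ 4 * W * (2048 * W ^ 5 * θ) := Nat.mul_le_mul_left _ h2
      _ = 8192 * W ^ 6 * θ := by ring
  have hθR : (l : ℝ) ≤ 8192 * (W : ℝ) ^ 6 * θ := by exact_mod_cast hθ
  have hθW : (W : ℝ) ^ 54 ≤ 8192 * θ := by
    have h1 : (W : ℝ) ^ 60 ≤ 8192 * (W : ℝ) ^ 6 * θ := hlR.trans hθR
    have h2 : (W : ℝ) ^ 60 = (W : ℝ) ^ 6 * (W : ℝ) ^ 54 := by ring
    rw [h2] at h1
    have h3 : (0 : ℝ) < (W : ℝ) ^ 6 := by positivity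
    nlinarith
  have hθbig : 16 * (W : ℝ) + 16 ≤ θ := by
    have h1 : (W : ℝ) ^ 54 = (W : ℝ) ^ 53 * W := by ring
    have h2 : (2 : ℝ) ^ 53 ≤ (W : ℝ) ^ 53 := pow_le_pow_left₀ (by norm_num) hWR 53
    have h3 : (2 : ℝ) ^ 53 * W ≤ 8192 * θ := by
      calc (2 : ℝ) ^ 53 * W ≤ (W : ℝ) ^ 53 * W := mul_le_mul_of_nonneg_right h2 hW0.le
        _ = (W : ℝ) ^ 54 := by ring
        _ ≤ _ := hθW
    have h4 : (8192 : ℝ) * (32 * W) ≤ (2 : ℝ) ^ 53 * W := by
      have : (8192 : ℝ) * 32 ≤ 2 ^ 53 := by norm_num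
      nlinarith
    linarith
  have hθ4 : 4 ≤ θ := by
    have : (4 : ℝ) ≤ θ := by linarith
    exact_mod_cast this
  -- parameters
  obtain ⟨κ, hκ⟩ : ∃ κ : ℕ, κ = 4096 * W ^ 5 := ⟨_, rfl⟩
  obtain ⟨s, hs⟩ : ∃ s : ℕ, s = κ ^ 3 := ⟨_, rfl⟩
  have hκ2 : 2 ≤ κ := by
    rw [hκ]
    have : 1 ≤ W ^ 5 := Nat.one_le_pow _ _ (by omega)
    omega
  have hs1 : 1 ≤ s := by
    rw [hs]
    exact Nat.one_le_pow _ _ (by omega)
  have hsR : (1 : ℝ) ≤ s := by exact_mod_cast hs1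
  have hs0 : (0 : ℝ) < s := by linarith
  set R : ℝ := (2 : ℝ) ^ (((β : ℝ) - θ) / 2) * Real.exp (2 * W + 1) with hR
  have hR0 : 0 ≤ R := by positivity
  have hRexp : R = Real.exp (((β : ℝ) - θ) / 2 * Real.log 2 + (2 * W + 1)) := by
    rw [hR, cb_exp', ← Real.exp_add]
  -- injectivity
  have hN : 2 * R ^ 2 ≤ ((2 ^ β : ℕ) : ℝ) := by
    have e2 : (2 : ℝ) = Real.exp (Real.log 2) := (Real.exp_log (by norm_num)).symm
    push_cast
    rw [cb_exp, hRexp, ← Real.exp_nat_mul]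
    nth_rewrite 1 [e2]
    rw [← Real.exp_add]
    apply Real.exp_le_exp.2
    push_cast
    nlinarith
  have hinj := cb_inj R hR0 (2 ^ β) hN
  -- HM
  have hβ : 1 ≤ 2 ^ β := Nat.one_le_two_pow
  have hJ : (Js (Helper84.CB.Qs θ) (psi (2 ^ β)) s : ℝ) ≤ Real.exp (C * (κ : ℝ) ^ 10 +
      4 * s * Real.log 2 + θ * Real.log 2 * (2 * s + 7 / 4) - β * Real.log 2) := by
    rw [cb_js, hs]
    have h1 := hHM κ (2 ^ θ) (2 ^ β) 2 hκ2 (by
        calc 16 = 2 ^ 4 := by norm_num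
          _ ≤ 2 ^ θ := Nat.pow_le_pow_right (by norm_num) hθ4) hβ (by norm_num) (by
        push_cast
        rw [cb_exp, cb_exp, ← Real.exp_mul]
        apply Real.exp_le_exp.2
        have h2 : (β : ℝ) ≤ 2048 * (W : ℝ) ^ 5 * θ := by exact_mod_cast hcon.theta
        have h3 : (κ : ℝ) = 4096 * (W : ℝ) ^ 5 := by
          rw [hκ]
          push_cast
          ring
        rw [h3]
        have h4 : (β : ℝ) * Real.log 2 ≤ 2048 * (W : ℝ) ^ 5 * θ * Real.log 2 :=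
          mul_le_mul_of_nonneg_right h2 hL.le
        have h5 : 0 ≤ (θ : ℝ) * Real.log 2 := by positivity
        nlinarith) (Helper84.CB.Qs θ) (by
        intro q hq
        unfold Helper84.CB.Qs at hq
        rw [mem_filter, mem_Ico] at hq
        rw [mem_Icc]
        refine ⟨hq.1.1, ?_⟩
        have : 2 ^ (θ + 1) = 2 * 2 ^ θ := by ring
        omega)
    refine h1.trans (le_of_eq ?_)
    push_cast
    rw [cb_exp (4 * κ ^ 3), cb_exp θ, cb_exp β, ← Real.exp_mul, ← Real.exp_add, ← Real.exp_add,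
      ← Real.exp_sub]
    congr 1
    push_cast
    ring
  -- the bound for one level
  set M₀ : ℝ := R * Real.exp ((((β : ℝ) - θ) / 2 * Real.log 2 + (2 * W + 1) +
    (C * (κ : ℝ) ^ 10 + 4 * s * Real.log 2 + θ * Real.log 2 * (2 * s + 7 / 4) -
      β * Real.log 2)) * (1 / (2 * (s : ℝ)))) with hM₀
  have hlevel : ∀ u : ℤ, (#{z ∈ Helper84.CB.Qs θ ×ˢ Helper84.CB.Bs R ×ˢ Helper84.CB.Bs R |
      psi (2 ^ β) z.1 + psi (2 ^ β) z.2.1 + psi (2 ^ β) z.2.2 = u} : ℝ) ≤ M₀ := by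
    intro u
    refine (Helper84.CB.level_le _ _ _ s hs1 hinj u).trans ?_
    have hc := cb_card R hR0
    rw [hM₀, Real.exp_mul, Real.exp_add, ← hRexp]
    refine mul_le_mul hc ?_ (by positivity) hR0
    refine Real.rpow_le_rpow (by positivity) ?_ (by positivity)
    exact mul_le_mul hc hJ (Nat.cast_nonneg _) hR0
  have hM₀0 : 0 ≤ M₀ := by
    rw [hM₀]
    positivity
  have hcount := Helper84.CB.card_S_le l W k μ ν θ β S
    (fun n hn => ⟨(hS n hn).1, (hS n hn).2.1, (hS n hn).2.2.2⟩) ((2 * W + 4) * M₀)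
    (fun v T hT => Helper84.CB.window_le (Helper84.CB.Qs θ) (Helper84.CB.Bs R) (2 ^ β) hβ v
      (2 * W) M₀ (by positivity) hlevel T hT)
  have hLs := card_Lset k W (2 ^ μ) ((2 : ℝ) ^ θ) (by omega) (one_le_pow₀ (by norm_num)) (by
    have h1 := hcon.grow
    push_cast
    exact h1)
  have hsqrt : Real.sqrt ((2 : ℝ) ^ θ) = Real.exp (θ * Real.log 2 / 2) := by
    rw [cb_exp, Real.exp_half]
  -- numerics
  have hn := hnum l W θ hW hl hθR
  have hκR : (κ : ℝ) = 4096 * (W : ℝ) ^ 5 := by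
    rw [hκ]
    push_cast
    ring
  have hsR2 : (s : ℝ) = (4096 * (W : ℝ) ^ 5) ^ 3 := by
    rw [hs]
    push_cast
    rw [hκR]
  have hpos24 : (0 : ℝ) < 24 * (W : ℝ) ^ 2 * (2 * W + 4) := by positivity
  have htot : (#S : ℝ) ≤ Real.exp (Real.log (24 * (W : ℝ) ^ 2 * (2 * W + 4)) +
      μ * Real.log 2 - θ * Real.log 2 / 2 + ν * Real.log 2 +
      (((β : ℝ) - θ) / 2 * Real.log 2 + (2 * W + 1)) +
      ((((β : ℝ) - θ) / 2 * Real.log 2 + (2 * W + 1) +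
    (C * (κ : ℝ) ^ 10 + 4 * s * Real.log 2 + θ * Real.log 2 * (2 * s + 7 / 4) -
      β * Real.log 2)) * (1 / (2 * (s : ℝ))))) := by
    refine hcount.trans ?_
    have h1 : (#(Lset k W ((2 : ℝ) ^ θ) (2 ^ μ)) : ℝ) ≤
        24 * (W : ℝ) ^ 2 * Real.exp (μ * Real.log 2) / Real.exp (θ * Real.log 2 / 2) := by
      refine hLs.trans (le_of_eq ?_)
      rw [hsqrt, ← cb_exp]
      push_cast
      ring
    calc (#(Lset k W ((2 : ℝ) ^ θ) (2 ^ μ)) : ℝ) * 2 ^ ν * ((2 * W + 4) * M₀)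
        ≤ 24 * (W : ℝ) ^ 2 * Real.exp (μ * Real.log 2) / Real.exp (θ * Real.log 2 / 2) *
          2 ^ ν * ((2 * W + 4) * M₀) := by
          apply mul_le_mul_of_nonneg_right _ (by positivity)
          exact mul_le_mul_of_nonneg_right h1 (by positivity)
      _ = _ := by
          rw [Real.exp_add, Real.exp_add, Real.exp_add, Real.exp_sub, Real.exp_add,
            Real.exp_log hpos24, hM₀, ← hRexp, ← cb_exp ν]
          ring
  refine htot.trans ?_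
  rw [cb_exp', ← Real.exp_add]
  apply Real.exp_le_exp.2
  have hsize := hcon.size
  have hthird := hcon.third
  have hexp : (((β : ℝ) - θ) / 2 * Real.log 2 + (2 * W + 1) +
    (C * (κ : ℝ) ^ 10 + 4 * s * Real.log 2 + θ * Real.log 2 * (2 * s + 7 / 4) -
      β * Real.log 2)) * (1 / (2 * (s : ℝ))) = 2 * Real.log 2 + θ * Real.log 2 +
      ((2 * W + 1) + C * (κ : ℝ) ^ 10 + (5 / 4 * (θ * Real.log 2) - β * Real.log 2 / 2)) /
        (2 * (s : ℝ)) := by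
    field_simp
    ring
  rw [hexp]
  have hfrac : ((2 * (W : ℝ) + 1) + C * (κ : ℝ) ^ 10 +
      (5 / 4 * (θ * Real.log 2) - β * Real.log 2 / 2)) / (2 * (s : ℝ)) ≤
      ((7 * (W : ℝ) + 1) + C * (4096 * (W : ℝ) ^ 5) ^ 10 - θ * Real.log 2 / 4) /
        (2 * (4096 * (W : ℝ) ^ 5) ^ 3) := by
    rw [hsR2, hκR]
    apply div_le_div_of_nonneg_right _ (by positivity)
    linarith
  linarith

end Pool.Agent.Helper58.LT
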