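import Mathlib
import Pool.Agent.Helper58.LT.ClassDefs
import Pool.Agent.Helper58.LT.Spacing
import Pool.Agent.Helper69.LT1.R1

/-!
# Case `r = 1`, one class (stub of the interface; helper69)

For `a ∈ Lset`: `a < k φ(a) ≤ 2 a` (`lam a < log k`, `lam a > log k - 2W/H`, `H = 2^β e^{-4W}` large), so by
`Pool.Agent.Helper69.LT1.r_one` the number of pairs `(p, q)` is at most `C a^{2/3}`;
`#S ≤ 24 W^2 2^α / √(2^β e^{-4W}) * C (2^{α+1})^{2/3}` and
`2^{l/2} ≥ 2^α 2^{β/2} e^{-20 W^2}`, `α ≤ (1 + τ) β + 5`.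
-/

namespace Pool.Agent.Helper58.LT

open Finset Pool.Agent.Helper6.Lehmer Pool.Agent.Helper6.LehmerCount

/-- For one `a` few `n`. -/
private lemma clr_fiber {C : ℝ}
    (hC : ∀ a k : ℕ, 1 ≤ a → a < k * Nat.totient a → k * Nat.totient a ≤ 2 * a →
      ∀ T : Finset (ℕ × ℕ),
        (∀ z ∈ T, z.1.Prime ∧ z.2.Prime ∧ z.1 < z.2 ∧
          a * z.1 * z.2 - 1 = k * Nat.totient a * (z.1 - 1) * (z.2 - 1)) →
        ((T.card : ℕ) : ℝ) ≤ C * (a : ℝ) ^ ((2 : ℝ) / 3))
    {k W a : ℕ} {H : ℝ} {A : ℕ} (hH : 2 * W / H ≤ Real.log 2) (ha : a ∈ Lset k W H A)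
    (S : Finset ℕ) (hS : ∀ n ∈ S, Idx n k ∧ ∃ p q : ℕ, n = a * p * q ∧ p.Prime ∧ q.Prime ∧ p < q) :
    (#S : ℝ) ≤ C * (a : ℝ) ^ ((2 : ℝ) / 3) := by
  classical
  rcases S.eq_empty_or_nonempty with he | ⟨n0, hn0⟩
  · subst he
    have h := hC
    simp only [card_empty, Nat.cast_zero]
    have h1 := hC 1 2 (by norm_num) (by simp) (by simp) ∅ (by simp)
    simp only [card_empty, Nat.cast_zero, Nat.cast_one, Real.one_rpow, mul_one] at h1
    positivity
  unfold Lset at ha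
  rw [mem_filter] at ha
  obtain ⟨ha1, hsq, -, hlo, hup, -⟩ := ha
  have ha0 : 0 < a := Nat.pos_of_ne_zero hsq.ne_zero
  have hφ0 : 0 < a.totient := Nat.totient_pos.2 ha0
  have haR : (0 : ℝ) < a := by exact_mod_cast ha0
  have hφR : (0 : ℝ) < a.totient := by exact_mod_cast hφ0
  have hk : 0 < k := by
    have := (hS n0 hn0).1.two_le
    omega
  have hkR : (0 : ℝ) < k := by exact_mod_cast hk
  have h1 : a < k * a.totient := by
    have h2 : Real.log ((a : ℝ) / a.totient) < Real.log k := hup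
    rw [Real.log_lt_log_iff (by positivity) hkR, div_lt_iff₀ hφR] at h2
    exact_mod_cast h2
  have h2 : k * a.totient ≤ 2 * a := by
    have h3 : Real.log k - Real.log 2 < Real.log ((a : ℝ) / a.totient) := by
      unfold lam at hlo
      linarith
    rw [← Real.log_div hkR.ne' (by norm_num), Real.log_lt_log_iff (by positivity) (by positivity),
      div_lt_div_iff₀ (by norm_num) hφR] at h3
    have h4 : (k : ℝ) * a.totient < 2 * a := by linarith
    have h5 : k * a.totient < 2 * a := by exact_mod_cast h4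
    omega
  have hex : ∀ n ∈ S, ∃ z : ℕ × ℕ, n = a * z.1 * z.2 ∧ z.1.Prime ∧ z.2.Prime ∧ z.1 < z.2 := by
    intro n hn
    obtain ⟨-, p, q, h⟩ := hS n hn
    exact ⟨(p, q), h⟩
  choose! f hf using hex
  have hinj : Set.InjOn f (S : Set ℕ) := by
    intro n hn n' hn' he
    rw [(hf n hn).1, (hf n' hn').1, he]
  have hcard : (S.image f).card = S.card := Finset.card_image_of_injOn hinj
  rw [← hcard]
  apply hC a k ha0 h1 h2
  intro z hz
  rw [mem_image] at hz
  obtain ⟨n, hn, rfl⟩ := hz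
  obtain ⟨hn1, hp, hq, hpq⟩ := hf n hn
  refine ⟨hp, hq, hpq, ?_⟩
  have hidx := (hS n hn).1
  have hsqn : Squarefree (a * (f n).1 * (f n).2) := by
    rw [← hn1]; exact hidx.lehmer.squarefree
  have hc1 : (a * (f n).1).Coprime (f n).2 := Nat.coprime_of_squarefree_mul hsqn
  have hc2 : a.Coprime (f n).1 :=
    Nat.coprime_of_squarefree_mul (hsqn.squarefree_of_dvd (Dvd.intro _ rfl))
  have htot : n.totient = a.totient * ((f n).1 - 1) * ((f n).2 - 1) := by
    conv_lhs => rw [hn1]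
    rw [Nat.totient_mul hc1, Nat.totient_mul hc2, Nat.totient_prime hp, Nat.totient_prime hq]
  have heq := hidx.eq
  rw [htot] at heq
  rw [← hn1]
  have : n - 1 = k * (a.totient * ((f n).1 - 1) * ((f n).2 - 1)) := by omega
  rw [this]
  ring

theorem classR : ∃ W₀ : ℕ, ∀ (l W k α β : ℕ) (S : Finset ℕ), W₀ ≤ W → W ^ 60 ≤ l →
    ConA l W 1 α β →
    (∀ n ∈ S, Idx n k ∧ n ≤ 2 ^ l ∧ 2 ^ (l - 1) < n ∧ DataR n W k α β) →
    (#S : ℝ) ≤ (2 : ℝ) ^ ((l : ℝ) / 2) * Real.exp (-((l : ℝ) / (W : ℝ) ^ 7)) := by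
  classical
  obtain ⟨C, hC0, hC⟩ := Pool.Agent.Helper69.LT1.r_one
  refine ⟨max 10 ⌈C⌉₊, ?_⟩
  intro l W k α β S hW0 hWl hcon hS
  have hW10 : 10 ≤ W := (le_max_left _ _).trans hW0
  have hWC : C ≤ W := by
    have h1 : ⌈C⌉₊ ≤ W := (le_max_right _ _).trans hW0
    exact (Nat.le_ceil C).trans (by exact_mod_cast h1)
  have hWR : (10 : ℝ) ≤ W := by exact_mod_cast hW10
  set L : ℝ := Real.log 2 with hL
  have hL1 : 0.69 < L := by have := Real.log_two_gt_d9; rw [hL]; linarith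
  have hL2 : L < 0.7 := by have := Real.log_two_lt_d9; rw [hL]; linarith
  -- `β` is large
  have hβW : 1000 * (W : ℝ) ^ 2 ≤ β := by
    have h1 : (W : ℝ) ^ 60 ≤ 4 * W * β := by exact_mod_cast hWl.trans hcon.big
    have h2 : (W : ℝ) ^ 60 = W * (W ^ 57 * W ^ 2) := by ring
    have h3 : (10 : ℝ) ^ 57 ≤ (W : ℝ) ^ 57 := pow_le_pow_left₀ (by norm_num) hWR 57
    have h4 : (W : ℝ) ^ 57 * W ^ 2 ≤ 4 * β := by
      have h5 : (W : ℝ) * ((W : ℝ) ^ 57 * W ^ 2) ≤ W * (4 * β) := by rw [← h2]; linarith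
      exact le_of_mul_le_mul_left h5 (by linarith)
    have h6 : (10 : ℝ) ^ 57 * (W : ℝ) ^ 2 ≤ (W : ℝ) ^ 57 * W ^ 2 :=
      mul_le_mul_of_nonneg_right h3 (by positivity)
    have h7 : (4000 : ℝ) * (W : ℝ) ^ 2 ≤ (10 : ℝ) ^ 57 * (W : ℝ) ^ 2 :=
      mul_le_mul_of_nonneg_right (by norm_num) (by positivity)
    linarith
  have hβ1 : (1 : ℝ) ≤ β := by nlinarith
  -- the size of `H`
  set H : ℝ := (2 : ℝ) ^ β * Real.exp (-4 * W) with hH
  have h2β : (2 : ℝ) ^ β = Real.exp (β * L) := by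
    rw [hL, mul_comm, Real.exp_mul, Real.exp_log (by norm_num), Real.rpow_natCast]
  have h2α : (2 : ℝ) ^ α = Real.exp (α * L) := by
    rw [hL, mul_comm, Real.exp_mul, Real.exp_log (by norm_num), Real.rpow_natCast]
  have hHe : H = Real.exp (β * L - 4 * W) := by
    rw [hH, h2β, ← Real.exp_add]; congr 1; ring
  have hHexp : (4 : ℝ) * W ≤ H := by
    rw [hHe]
    have h1 := Real.add_one_le_exp (β * L - 4 * W)
    have h2 : 0.69 * (β : ℝ) ≤ β * L := by nlinarith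
    nlinarith
  have hH0 : 0 < H := by linarith
  have hHlog : 2 * W / H ≤ Real.log 2 := by
    rw [div_le_iff₀ hH0]
    have : 0.69 * H ≤ Real.log 2 * H := mul_le_mul_of_nonneg_right hL1.le hH0.le
    linarith
  -- fibres
  have hex : ∀ n ∈ S, ∃ a : ℕ, a ∈ Lset k W H (2 ^ α) ∧
      ∃ p q : ℕ, n = a * p * q ∧ p.Prime ∧ q.Prime ∧ p < q := by
    intro n hn
    obtain ⟨-, -, -, a, p, q, h1, h2, h3, h4, h5, -⟩ := hS n hn
    exact ⟨a, h2, p, q, h1, h3, h4, h5⟩
  choose! a ha hpq using hex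
  have hsum : #S = ∑ b ∈ Lset k W H (2 ^ α), #{n ∈ S | a n = b} :=
    Finset.card_eq_sum_card_fiberwise (fun n hn => ha n hn)
  have hfib : ∀ b ∈ Lset k W H (2 ^ α), ((#{n ∈ S | a n = b} : ℕ) : ℝ) ≤
      C * ((2 : ℝ) * 2 ^ α) ^ ((2 : ℝ) / 3) := by
    intro b hb
    have h1 := clr_fiber hC hHlog hb {n ∈ S | a n = b} (by
      intro n hn
      rw [mem_filter] at hn
      obtain ⟨hn1, rfl⟩ := hn
      exact ⟨(hS n hn1).1, hpq n hn1⟩)
    refine h1.trans ?_
    apply mul_le_mul_of_nonneg_left _ hC0.le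
    apply Real.rpow_le_rpow (Nat.cast_nonneg _) _ (by norm_num)
    have h2 : b < 2 * 2 ^ α := by
      unfold Lset at hb
      rw [mem_filter, mem_Ico] at hb
      exact hb.1.2
    exact_mod_cast h2.le
  have htot : (#S : ℝ) ≤ (#(Lset k W H (2 ^ α)) : ℝ) * (C * ((2 : ℝ) * 2 ^ α) ^ ((2 : ℝ) / 3)) := by
    rw [hsum]
    push_cast
    calc ∑ b ∈ Lset k W H (2 ^ α), ((#{n ∈ S | a n = b} : ℕ) : ℝ)
        ≤ ∑ b ∈ Lset k W H (2 ^ α), C * ((2 : ℝ) * 2 ^ α) ^ ((2 : ℝ) / 3) := Finset.sum_le_sum hfib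
      _ = _ := by rw [Finset.sum_const, nsmul_eq_mul]
  have hLset := card_Lset k W (2 ^ α) H (by omega) (by linarith) (by
    have := hcon.grow
    push_cast
    exact this)
  push_cast at hLset
  -- pass to exponentials
  have hsqrt : Real.sqrt H = Real.exp ((β * L - 4 * W) / 2) := by
    rw [hHe, Real.sqrt_eq_iff_mul_self_eq (Real.exp_pos _).le (Real.exp_pos _).le, ← Real.exp_add]
    congr 1; ring
  have hr : ((2 : ℝ) * 2 ^ α) ^ ((2 : ℝ) / 3) ≤ Real.exp (2 / 3 * (α * L) + 1) := by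
    have h1 : (2 : ℝ) * 2 ^ α = Real.exp (L + α * L) := by
      rw [Real.exp_add, ← h2α, hL, Real.exp_log (by norm_num)]
    rw [h1, ← Real.exp_mul, Real.exp_le_exp]
    nlinarith
  have hW2 : (24 : ℝ) * (W : ℝ) ^ 2 ≤ Real.exp (4 + 2 * W) := by
    have h1 : (24 : ℝ) ≤ Real.exp 4 := by
      have h2 := Real.exp_one_gt_d9
      have h3 : Real.exp 4 = Real.exp 1 ^ 4 := by rw [← Real.exp_nat_mul]; norm_num
      rw [h3]
      have h4 : (2.7 : ℝ) ^ 4 ≤ Real.exp 1 ^ 4 := pow_le_pow_left₀ (by norm_num) (by linarith) 4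
      norm_num at h4
      linarith
    have h5 : (W : ℝ) ≤ Real.exp W := by
      have := Real.add_one_le_exp (W : ℝ); linarith
    have h6 : (W : ℝ) ^ 2 ≤ Real.exp (2 * W) := by
      have : Real.exp (2 * (W : ℝ)) = Real.exp W ^ 2 := by rw [← Real.exp_nat_mul]; norm_num
      rw [this]
      exact pow_le_pow_left₀ (by positivity) h5 2
    rw [Real.exp_add]
    exact mul_le_mul h1 h6 (by positivity) (Real.exp_pos _).le
  have hCe : C ≤ Real.exp W := by
    have := Real.add_one_le_exp (W : ℝ); linarith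
  have hLs : (#(Lset k W H (2 ^ α)) : ℝ) ≤ Real.exp (4 + 2 * W + α * L - (β * L - 4 * W) / 2) := by
    refine hLset.trans ?_
    rw [hsqrt, div_le_iff₀ (Real.exp_pos _), ← Real.exp_add]
    calc 24 * (W : ℝ) ^ 2 * 2 ^ α ≤ Real.exp (4 + 2 * W) * Real.exp (α * L) := by
          rw [h2α]; exact mul_le_mul_of_nonneg_right hW2 (Real.exp_pos _).le
      _ = _ := by rw [← Real.exp_add]; congr 1; ring
  have h2l : (2 : ℝ) ^ ((l : ℝ) / 2) = Real.exp (l * L / 2) := by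
    rw [Real.rpow_def_of_pos (by norm_num), ← hL]; congr 1; ring
  calc (#S : ℝ) ≤ (#(Lset k W H (2 ^ α)) : ℝ) * (C * ((2 : ℝ) * 2 ^ α) ^ ((2 : ℝ) / 3)) := htot
    _ ≤ Real.exp (4 + 2 * W + α * L - (β * L - 4 * W) / 2) *
        (Real.exp W * Real.exp (2 / 3 * (α * L) + 1)) := by
        apply mul_le_mul hLs _ (by positivity) (Real.exp_pos _).le
        exact mul_le_mul hCe hr (by positivity) (Real.exp_pos _).le
    _ = Real.exp (5 + 5 * W + 5 / 3 * (α * L) - β * L / 2) := by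
        rw [← Real.exp_add, ← Real.exp_add]; congr 1; ring
    _ ≤ Real.exp (l * L / 2 + -((l : ℝ) / (W : ℝ) ^ 7)) := by
        rw [Real.exp_le_exp]
        have hsize := (abs_le.1 hcon.size).1
        have hup := hcon.up
        rw [← hL] at hsize hup
        push_cast at hsize
        -- `l / W^7 ≤ 4 β / W^6 ≤ β / 1000`
        have hl7 : (l : ℝ) / (W : ℝ) ^ 7 ≤ β / 1000 := by
          rw [div_le_iff₀ (by positivity)]
          have h1 : (l : ℝ) ≤ 4 * W * β := by exact_mod_cast hcon.big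
          have h2 : (4000 : ℝ) * W ≤ (W : ℝ) ^ 7 := by
            have h3 : (10 : ℝ) ^ 6 ≤ (W : ℝ) ^ 6 := pow_le_pow_left₀ (by norm_num) hWR 6
            calc (4000 : ℝ) * W ≤ 10 ^ 6 * W := by nlinarith
              _ ≤ (W : ℝ) ^ 6 * W := mul_le_mul_of_nonneg_right h3 (by linarith)
              _ = _ := by ring
          nlinarith
        have hτ : (1 + 1 / (512 * (W : ℝ) ^ 4)) * (β * L) ≤ (1 + 1 / 512) * (β * L) := by
          apply mul_le_mul_of_nonneg_right _ (by positivity)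
          have h3 : (1 : ℝ) / (512 * (W : ℝ) ^ 4) ≤ 1 / 512 := by
            apply div_le_div_of_nonneg_left (by norm_num) (by norm_num)
            have : (1 : ℝ) ≤ (W : ℝ) ^ 4 := one_le_pow₀ (by linarith)
            linarith
          linarith
        have hβL : 0.69 * (β : ℝ) ≤ β * L := by nlinarith
        nlinarith
    _ = (2 : ℝ) ^ ((l : ℝ) / 2) * Real.exp (-((l : ℝ) / (W : ℝ) ^ 7)) := by
        rw [Real.exp_add, h2l]

end Pool.Agent.Helper58.LT
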