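import Mathlib
import Pool.Agent.Helper58.LT.ClassA
import Pool.Agent.Helper58.LT.ClassR
import Pool.Agent.Helper58.LT.ClassB
import Pool.Agent.Helper58.LT.Bridge

/-!
# FA1: the bound for the numbers with few prime factors satisfying NS

`good_part`: `n ∈ S` are Lehmer numbers with `ω(n) ≤ W` for which NS holds.  Every `n` has an index
`k ≤ W + 1` (`exists_idx`, `Idx.index_le`); by `bridge` it belongs to one of the classes, so
`S ⊆ ⋃_{k ≤ W+1} (⋃_{r ≤ W, α, β ≤ l} S_A ∪ ⋃_{α, β ≤ l} S_R ∪ ⋃_{μ, ν, θ, β ≤ l} S_B)` where e.g.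
`S_A = {n ∈ S | Idx n k ∧ DataA n l W k r α β}` if `ConA l W r α β` holds and `2 ≤ r`, and `∅` otherwise
(`Finset.card_biUnion_le`).  By `classA`, `classR`, `classB` every class has at most
`2^(l/2) exp (-l/W^23)` elements (`W ≥ 1`: `l/W^7 ≥ l/W^23`); the number of classes is at most
`(W+2) ((W+1)(l+1)^2 + (l+1)^2 + (l+1)^4) ≤ (W+2) (W+3) (l+1)^4 ≤ (W+3)^2 (l+1)^4`.
-/

namespace Pool.Agent.Helper58.LT

open Finset Pool.Agent.Helper6.Lehmer Pool.Agent.Helper6.LehmerCount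

private theorem gp_union {ι : Type*} (I : Finset ι) (B : ι → Finset ℕ) (M : ℝ)
    (h : ∀ i ∈ I, (#(B i) : ℝ) ≤ M) : (#(I.biUnion B) : ℝ) ≤ #I * M := by
  classical
  calc (#(I.biUnion B) : ℝ) ≤ ∑ i ∈ I, (#(B i) : ℝ) := by
        exact_mod_cast card_biUnion_le
    _ ≤ ∑ _i ∈ I, M := sum_le_sum h
    _ = #I * M := by rw [sum_const, nsmul_eq_mul]

theorem good_part : ∃ W₀ : ℕ, ∀ (l W : ℕ) (S : Finset ℕ), W₀ ≤ W → W ^ 60 ≤ l →
    (∀ n ∈ S, IsLehmer n ∧ n ≤ 2 ^ l ∧ 2 ^ (l - 1) < n ∧ n.primeFactors.card ≤ W ∧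
      ¬ NSfail n l W) →
    (#S : ℝ) ≤ ((W : ℝ) + 3) ^ 2 * ((l : ℝ) + 1) ^ 4 *
      ((2 : ℝ) ^ ((l : ℝ) / 2) * Real.exp (-((l : ℝ) / (W : ℝ) ^ 23))) := by
  classical
  obtain ⟨W₁, hA⟩ := classA
  obtain ⟨W₂, hR⟩ := classR
  obtain ⟨W₃, hB⟩ := classB
  obtain ⟨W₄, hbr⟩ := bridge
  refine ⟨max 1 (max (max W₁ W₂) (max W₃ W₄)), ?_⟩
  intro l W S hW hl hS
  rw [max_le_iff, max_le_iff, max_le_iff, max_le_iff] at hW
  obtain ⟨hW1, ⟨hWA, hWR⟩, hWB, hWb⟩ := hW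
  set M : ℝ := (2 : ℝ) ^ ((l : ℝ) / 2) * Real.exp (-((l : ℝ) / (W : ℝ) ^ 23)) with hM
  have hM0 : 0 ≤ M := by
    rw [hM]
    positivity
  have hW1R : (1 : ℝ) ≤ W := by exact_mod_cast hW1
  have hM7 : (2 : ℝ) ^ ((l : ℝ) / 2) * Real.exp (-((l : ℝ) / (W : ℝ) ^ 7)) ≤ M := by
    rw [hM]
    apply mul_le_mul_of_nonneg_left _ (by positivity)
    apply Real.exp_le_exp.2
    apply neg_le_neg
    exact div_le_div_of_nonneg_left (Nat.cast_nonneg _) (by positivity)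
      (pow_le_pow_right₀ hW1R (by norm_num))
  let SA : ℕ × ℕ × ℕ × ℕ → Finset ℕ := fun i =>
    if 2 ≤ i.2.1 ∧ i.2.1 ≤ W ∧ ConA l W i.2.1 i.2.2.1 i.2.2.2 then
      S.filter fun n => Idx n i.1 ∧ DataA n l W i.1 i.2.1 i.2.2.1 i.2.2.2 else ∅
  let SR : ℕ × ℕ × ℕ → Finset ℕ := fun i =>
    if ConA l W 1 i.2.1 i.2.2 then
      S.filter fun n => Idx n i.1 ∧ DataR n W i.1 i.2.1 i.2.2 else ∅
  let SB : ℕ × ℕ × ℕ × ℕ × ℕ → Finset ℕ := fun i =>
    if ConB l W i.2.1 i.2.2.1 i.2.2.2.1 i.2.2.2.2 then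
      S.filter fun n => Idx n i.1 ∧ DataB n l W i.1 i.2.1 i.2.2.1 i.2.2.2.1 i.2.2.2.2 else ∅
  let IA := range (W + 2) ×ˢ range (W + 1) ×ˢ range (l + 1) ×ˢ range (l + 1)
  let IR := range (W + 2) ×ˢ range (l + 1) ×ˢ range (l + 1)
  let IB := range (W + 2) ×ˢ range (l + 1) ×ˢ range (l + 1) ×ˢ range (l + 1) ×ˢ range (l + 1)
  have hsub : S ⊆ (IA.biUnion SA ∪ IR.biUnion SR) ∪ IB.biUnion SB := by
    intro n hn
    obtain ⟨h1, h2, h3, h4, h5⟩ := hS n hn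
    obtain ⟨k, hk⟩ := exists_idx h1
    have hkW : k < W + 2 := by
      have := hk.index_le
      omega
    rw [mem_union, mem_union]
    rcases hbr l W k n hWb hl hk h2 h3 h4 h5 with h | h | h
    · obtain ⟨r, α, β, h6, h7, h8, h9, h10, h11⟩ := h
      left
      left
      refine mem_biUnion.2 ⟨(k, r, α, β), ?_, ?_⟩
      · simp only [IA, mem_product, mem_range]
        omega
      · simp only [SA]
        rw [if_pos ⟨h6, h7, h10⟩]
        exact mem_filter.2 ⟨hn, hk, h11⟩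
    · obtain ⟨α, β, h8, h9, h10, h11⟩ := h
      left
      right
      refine mem_biUnion.2 ⟨(k, α, β), ?_, ?_⟩
      · simp only [IR, mem_product, mem_range]
        omega
      · simp only [SR]
        rw [if_pos h10]
        exact mem_filter.2 ⟨hn, hk, h11⟩
    · obtain ⟨μ, ν, θ, β, h6, h7, h8, h9, h10, h11⟩ := h
      right
      refine mem_biUnion.2 ⟨(k, μ, ν, θ, β), ?_, ?_⟩
      · simp only [IB, mem_product, mem_range]
        omega
      · simp only [SB]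
        rw [if_pos h10]
        exact mem_filter.2 ⟨hn, hk, h11⟩
  have cA : (#(IA.biUnion SA) : ℝ) ≤ #IA * M := by
    apply gp_union
    rintro ⟨k, r, α, β⟩ _
    simp only [SA]
    split_ifs with h
    · refine le_trans (hA l W k r α β _ hWA hl h.1 h.2.1 h.2.2 ?_) hM7
      intro n hn
      rw [mem_filter] at hn
      obtain ⟨h1, h2, h3, h4, h5⟩ := hS n hn.1
      exact ⟨hn.2.1, h2, h3, hn.2.2⟩
    · simpa using hM0
  have cR : (#(IR.biUnion SR) : ℝ) ≤ #IR * M := by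
    apply gp_union
    rintro ⟨k, α, β⟩ _
    simp only [SR]
    split_ifs with h
    · refine le_trans (hR l W k α β _ hWR hl h ?_) hM7
      intro n hn
      rw [mem_filter] at hn
      obtain ⟨h1, h2, h3, h4, h5⟩ := hS n hn.1
      exact ⟨hn.2.1, h2, h3, hn.2.2⟩
    · simpa using hM0
  have cB : (#(IB.biUnion SB) : ℝ) ≤ #IB * M := by
    apply gp_union
    rintro ⟨k, μ, ν, θ, β⟩ _
    simp only [SB]
    split_ifs with h
    · refine hB l W k μ ν θ β _ hWB hl h ?_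
      intro n hn
      rw [mem_filter] at hn
      obtain ⟨h1, h2, h3, h4, h5⟩ := hS n hn.1
      exact ⟨hn.2.1, h2, h3, hn.2.2⟩
    · simpa using hM0
  have nA : (#IA : ℝ) = ((W : ℝ) + 2) * (((W : ℝ) + 1) * (((l : ℝ) + 1) * ((l : ℝ) + 1))) := by
    simp only [IA, card_product, card_range]
    push_cast
    ring
  have nR : (#IR : ℝ) = ((W : ℝ) + 2) * (((l : ℝ) + 1) * ((l : ℝ) + 1)) := by
    simp only [IR, card_product, card_range]
    push_cast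
    ring
  have nB : (#IB : ℝ) = ((W : ℝ) + 2) * ((l : ℝ) + 1) ^ 4 := by
    simp only [IB, card_product, card_range]
    push_cast
    ring
  have htot : (#S : ℝ) ≤ (#IA + #IR + #IB) * M := by
    have h1 : (#S : ℝ) ≤ #(IA.biUnion SA) + #(IR.biUnion SR) + #(IB.biUnion SB) := by
      exact_mod_cast (card_le_card hsub).trans ((card_union_le _ _).trans
        (Nat.add_le_add_right (card_union_le _ _) _))
    linarith
  refine htot.trans (mul_le_mul_of_nonneg_right ?_ hM0)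
  rw [nA, nR, nB]
  have hlR : (0 : ℝ) ≤ l := Nat.cast_nonneg _
  have h1 : ((l : ℝ) + 1) * ((l : ℝ) + 1) ≤ ((l : ℝ) + 1) ^ 4 := by
    have : (1 : ℝ) ≤ ((l : ℝ) + 1) := by linarith
    calc ((l : ℝ) + 1) * ((l : ℝ) + 1) = ((l : ℝ) + 1) ^ 2 := by ring
      _ ≤ ((l : ℝ) + 1) ^ 4 := pow_le_pow_right₀ this (by norm_num)
  set Z : ℝ := ((l : ℝ) + 1) ^ 4 with hZ
  have hZ0 : 0 ≤ Z := by positivity
  have h2 : ((W : ℝ) + 2) * (((W : ℝ) + 1) * (((l : ℝ) + 1) * ((l : ℝ) + 1))) ≤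
      ((W : ℝ) + 2) * (((W : ℝ) + 1) * Z) := by gcongr
  have h3 : ((W : ℝ) + 2) * (((l : ℝ) + 1) * ((l : ℝ) + 1)) ≤ ((W : ℝ) + 2) * Z := by gcongr
  have h4 : ((W : ℝ) + 2) * (((W : ℝ) + 1) * Z) + ((W : ℝ) + 2) * Z + ((W : ℝ) + 2) * Z =
      ((W : ℝ) + 2) * ((W : ℝ) + 3) * Z := by ring
  have h5 : ((W : ℝ) + 2) * ((W : ℝ) + 3) * Z ≤ ((W : ℝ) + 3) ^ 2 * Z := by
    apply mul_le_mul_of_nonneg_right _ hZ0
    nlinarith
  linarith

end Pool.Agent.Helper58.LT
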