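import Mathlib
import Pool.Agent.Helper58.LT.Spacing
import Pool.Agent.Helper6.LehmerCount.Rare
import Pool.Agent.Helper16.UB.Mert

/-!
# LC3: few Lehmer numbers have many prime factors

Let `L = 2 l`, so `2 ω(n) ≤ L` (`card_primeFactors_lt`), `s = Nat.sqrt (2^l)`.  By `Idx.dense'` with
`Y = L s` there is a divisor `u ∣ n` with `u ≤ L s < L u`, i.e. `s < u ≤ L s`; `n = u u'`, `u' ≤ 2^l / u`.
`ω(u) + ω(u') = ω(n) > W`, so one of the two has more than `W / 2` prime factors.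
(1) `ω(u) > W/2`: `u ≤ L s`, the number of such `u` is `≤ ∑_{u ≤ L s} 4^{ω(u)} / 4^{W/2}`, and by
`sum_pow_om` with `V` = primes `≤ L s` and exponent base `4`:
`∑ 4^{ω(u)} ≤ L s exp (3 ∑_{p ≤ L s} 1/p) ≤ L s exp (3 (1 + log (L s)))` is too weak; use instead
the base `u₀ = 4` and `∑_{p ≤ y} 1/p ≤ log log y + C` - or avoid prime sums: `4^{ω(m)} ≤ τ(m)^2` and
`∑_{m ≤ Y} τ(m)^2 ≤ Y (1 + log Y)^3 …` (elementary: `2^{ω(m)} ≤ τ(m)`, `τ(m)^2 ≤ τ_4(m)`, or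
directly `4^{ω(m)} = #{(a,b,c,d) : abcd = m}` for squarefree `m`, so that
`∑_{m ≤ Y squarefree} 4^{ω(m)} ≤ #{(a,b,c,d) : abcd ≤ Y} ≤ Y (1 + log Y)^3`).
Each `u` carries at most `2 * 2^l / u^2 + 1 ≤ 4` numbers `n` of given index (`card_divisor`), and there
are at most `l + 1` indices.
(2) `ω(u') > W/2`: the same with `u'`; `u' ≤ 2^l / s`, `u' = n / u ≥ 2^(l-1) / (L s)`, each `u'` carries at
most `2 * 2^l / u'^2 + 1 ≤ C L^2` numbers `n`.
Total `≤ C (l+1)^C 2^(l/2) 4^(-W/2)`.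
-/

namespace Pool.Agent.Helper58.LT

open Finset Pool.Agent.Helper6.Lehmer Pool.Agent.Helper6.LehmerCount

theorem mpr_cnt : ∃ C : ℝ, 0 < C ∧ ∀ Y W : ℕ, 2 ≤ Y →
    (#{e ∈ Icc 1 Y | (W : ℝ) / 2 ≤ (e.primeFactors.card : ℝ)} : ℝ) ≤
      C * Y * Real.log Y ^ 3 * Real.exp (-(W : ℝ) / 2) := by
  classical
  obtain ⟨C, hC⟩ := Pool.Agent.Helper16.UB.exists_W_le
  refine ⟨Real.exp (3 * C), Real.exp_pos _, ?_⟩
  intro Y W hY
  have hYR : (2 : ℝ) ≤ Y := by exact_mod_cast hY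
  have hlogY : 0 < Real.log Y := Real.log_pos (by linarith)
  have h1 := rare (Pool.Agent.Helper16.UB.PL Y)
    (fun p hp => (Pool.Agent.Helper16.UB.mem_PL.1 hp).2) Y 4 ((W : ℝ) / 2) (by norm_num)
  have h2 : ∀ e ∈ Icc 1 Y, om (Pool.Agent.Helper16.UB.PL Y) e = e.primeFactors.card := by
    intro e he
    rw [mem_Icc] at he
    unfold om
    congr 1
    ext p
    rw [mem_filter, Pool.Agent.Helper16.UB.mem_PL, Nat.mem_primeFactors]
    constructor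
    · rintro ⟨⟨h3, h4⟩, h5⟩
      exact ⟨h4, h5, by omega⟩
    · rintro ⟨h3, h4, h5⟩
      exact ⟨⟨(Nat.le_of_dvd (by omega) h4).trans he.2, h3⟩, h4⟩
  have h3 : {e ∈ Icc 1 Y | (W : ℝ) / 2 ≤ (om (Pool.Agent.Helper16.UB.PL Y) e : ℝ)} =
      {e ∈ Icc 1 Y | (W : ℝ) / 2 ≤ (e.primeFactors.card : ℝ)} := by
    apply Finset.filter_congr
    intro e he
    rw [h2 e he]
  rw [h3] at h1
  refine h1.trans ?_
  have h4 : ∑ p ∈ Pool.Agent.Helper16.UB.PL Y, 1 / (p : ℝ) ≤ Real.log (Real.log Y) + C := hC Y hY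
  have h5 : (1 : ℝ) ≤ Real.log 4 := by
    rw [Real.le_log_iff_exp_le (by norm_num)]
    have := Real.exp_one_lt_d9
    linarith
  have hW0 : (0 : ℝ) ≤ W := by positivity
  have h6 : ((4 : ℝ) - 1) * ∑ p ∈ Pool.Agent.Helper16.UB.PL Y, 1 / (p : ℝ) - (W : ℝ) / 2 * Real.log 4 ≤
      3 * C + 3 * Real.log (Real.log Y) + (-(W : ℝ) / 2) := by
    nlinarith
  have h7 : Real.exp (3 * C + 3 * Real.log (Real.log Y) + (-(W : ℝ) / 2)) =
      Real.exp (3 * C) * Real.log Y ^ 3 * Real.exp (-(W : ℝ) / 2) := by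
    rw [Real.exp_add, Real.exp_add]
    congr 2
    rw [show (3 : ℝ) * Real.log (Real.log Y) = ((3 : ℕ) : ℝ) * Real.log (Real.log Y) by norm_num,
      Real.exp_nat_mul, Real.exp_log hlogY]
  calc (Y : ℝ) * Real.exp (((4 : ℝ) - 1) * ∑ p ∈ Pool.Agent.Helper16.UB.PL Y, 1 / (p : ℝ) -
        (W : ℝ) / 2 * Real.log 4)
      ≤ Y * Real.exp (3 * C + 3 * Real.log (Real.log Y) + (-(W : ℝ) / 2)) :=
        mul_le_mul_of_nonneg_left (Real.exp_le_exp.2 h6) (by positivity)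
    _ = _ := by rw [h7]; ring

open scoped Classical in
theorem mpr_fib {S K A : Finset ℕ} {B : ℝ}
    (h : ∀ n ∈ S, ∃ k ∈ K, ∃ u ∈ A, Idx n k ∧ u ∣ n)
    (hf : ∀ k ∈ K, ∀ u ∈ A, (#{n ∈ S | Idx n k ∧ u ∣ n} : ℝ) ≤ B) :
    (#S : ℝ) ≤ #K * #A * B := by
  have h1 : S ⊆ (K ×ˢ A).biUnion (fun x => {n ∈ S | Idx n x.1 ∧ x.2 ∣ n}) := by
    intro n hn
    obtain ⟨k, hk, u, hu, h2⟩ := h n hn
    rw [mem_biUnion]
    exact ⟨(k, u), mem_product.2 ⟨hk, hu⟩, mem_filter.2 ⟨hn, h2⟩⟩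
  have h2 : #S ≤ ∑ x ∈ K ×ˢ A, #{n ∈ S | Idx n x.1 ∧ x.2 ∣ n} :=
    (Finset.card_le_card h1).trans Finset.card_biUnion_le
  have h3 : (#S : ℝ) ≤ ∑ x ∈ K ×ˢ A, (#{n ∈ S | Idx n x.1 ∧ x.2 ∣ n} : ℝ) := by exact_mod_cast h2
  calc (#S : ℝ) ≤ ∑ x ∈ K ×ˢ A, (#{n ∈ S | Idx n x.1 ∧ x.2 ∣ n} : ℝ) := h3
    _ ≤ ∑ _x ∈ K ×ˢ A, B := by
        apply Finset.sum_le_sum
        intro x hx
        rw [mem_product] at hx
        exact hf x.1 hx.1 x.2 hx.2
    _ = #K * #A * B := by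
        rw [Finset.sum_const, nsmul_eq_mul, Finset.card_product]
        push_cast
        ring

theorem many_primes : ∃ C : ℕ, ∀ (l W : ℕ) (S : Finset ℕ), 1 ≤ l →
    (∀ n ∈ S, IsLehmer n ∧ n ≤ 2 ^ l ∧ 2 ^ (l - 1) < n ∧ W < n.primeFactors.card) →
    (#S : ℝ) ≤ C * ((l : ℝ) + 1) ^ C * (2 : ℝ) ^ ((l : ℝ) / 2) * Real.exp (-(W : ℝ) / 2) := by
  classical
  obtain ⟨C0, hC0, hcnt⟩ := mpr_cnt
  obtain ⟨C, hC⟩ := exists_nat_gt (3888 * C0 + 7)
  refine ⟨C, ?_⟩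
  intro l W S hl hS
  -- parameters
  obtain ⟨L, hL⟩ : ∃ L, L = 2 * (l + 1) := ⟨_, rfl⟩
  obtain ⟨s, hs⟩ : ∃ s, s = Nat.sqrt (2 ^ l) := ⟨_, rfl⟩
  have hs1 : s * s ≤ 2 ^ l := by rw [hs]; exact Nat.sqrt_le _
  have hs2 : 2 ^ l < (s + 1) * (s + 1) := by rw [hs]; exact Nat.lt_succ_sqrt _
  have h2l : 2 ≤ 2 ^ l := by
    calc 2 = 2 ^ 1 := by norm_num
      _ ≤ 2 ^ l := Nat.pow_le_pow_right (by norm_num) hl
  have hs0 : 1 ≤ s := by
    rcases Nat.eq_zero_or_pos s with h0 | h0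
    · rw [h0] at hs2; omega
    · exact h0
  have hL4 : 4 ≤ L := by omega
  have hY2 : 2 ≤ L * s := by nlinarith
  have h2l1 : 2 * 2 ^ (l - 1) = 2 ^ l := by
    rw [← pow_succ', Nat.sub_add_cancel hl]
  set N1 : Finset ℕ := {e ∈ Icc 1 (L * s) | (W : ℝ) / 2 ≤ (e.primeFactors.card : ℝ)} with hN1
  set A1 : Finset ℕ := N1.filter (fun u => s < u) with hA1
  set A2 : Finset ℕ := N1.filter (fun v => 2 ≤ v ∧ 2 ^ l < 4 * L ^ 2 * v ^ 2) with hA2
  obtain ⟨P1, hP1⟩ : ∃ P : ℕ → Prop, ∀ n, P n ↔ ∃ k ∈ range (l + 2), ∃ u ∈ A1, Idx n k ∧ u ∣ n :=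
    ⟨_, fun _ => Iff.rfl⟩
  obtain ⟨P2, hP2⟩ : ∃ P : ℕ → Prop, ∀ n, P n ↔ ∃ k ∈ range (l + 2), ∃ u ∈ A2, Idx n k ∧ u ∣ n :=
    ⟨_, fun _ => Iff.rfl⟩
  set S1 : Finset ℕ := S.filter P1 with hS1
  set S2 : Finset ℕ := S.filter P2 with hS2
  have hcover : S ⊆ S1 ∪ S2 := by
    intro n hn
    obtain ⟨h1, h2, h3, h4⟩ := hS n hn
    have hsq := h1.squarefree
    have hn0 : 0 < n := by have := h1.one_lt; omega
    obtain ⟨k, hk⟩ := exists_idx h1
    have hom : n.primeFactors.card < l + 1 := card_primeFactors_lt hsq (by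
      calc n ≤ 2 ^ l := h2
        _ < 2 ^ (l + 1) := Nat.pow_lt_pow_right (by norm_num) (by omega))
    have hkl : k ∈ range (l + 2) := by
      rw [mem_range]
      have := hk.index_le
      omega
    have hLn : 2 * n.primeFactors.card ≤ L := by omega
    -- L s < L n
    have hsn : s < n := by
      have e1 : 2 ^ l < 2 * n := by omega
      by_contra hcon
      rw [not_lt] at hcon
      -- n ≤ s, s * s ≤ 2 ^ l < 2 n ≤ 2 s
      have e2 : s * s < 2 * s := by omega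
      have e3 : s < 2 := lt_of_mul_lt_mul_right e2 (Nat.zero_le s)
      have := h1.one_lt
      omega
    obtain ⟨u, hu1, hu2, hu3⟩ := hk.dense' hLn (Y := L * s) (by omega)
      (Nat.mul_lt_mul_of_pos_left hsn (by omega))
    have hsu : s < u := Nat.lt_of_mul_lt_mul_left hu3
    obtain ⟨v, hv⟩ := hu1
    have hcop : u.Coprime v := by
      rw [hv] at hsq
      exact Nat.coprime_of_squarefree_mul hsq
    have hv0 : 0 < v := by
      rcases Nat.eq_zero_or_pos v with h0 | h0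
      · rw [h0] at hv; omega
      · exact h0
    have hcard : n.primeFactors.card = u.primeFactors.card + v.primeFactors.card := by
      rw [hv, hcop.primeFactors_mul, Finset.card_union_of_disjoint hcop.disjoint_primeFactors]
    have hvs : v ≤ s := by
      by_contra hcon
      rw [not_le] at hcon
      have e1 : (s + 1) * (s + 1) ≤ u * v := Nat.mul_le_mul hsu hcon
      omega
    have hvl : 2 ^ l < 4 * L ^ 2 * v ^ 2 := by
      have e1 : 2 ^ l < 2 * (L * s) * v := by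
        calc 2 ^ l = 2 * 2 ^ (l - 1) := h2l1.symm
          _ < 2 * n := by omega
          _ = 2 * (u * v) := by rw [← hv]
          _ = 2 * u * v := by ring
          _ ≤ 2 * (L * s) * v := by gcongr
      have e2 : 2 ^ l * 2 ^ l < (4 * L ^ 2 * v ^ 2) * 2 ^ l := by
        calc 2 ^ l * 2 ^ l < (2 * (L * s) * v) * (2 * (L * s) * v) :=
              Nat.mul_lt_mul_of_lt_of_lt e1 e1
          _ = (4 * L ^ 2 * v ^ 2) * (s * s) := by ring
          _ ≤ (4 * L ^ 2 * v ^ 2) * 2 ^ l := Nat.mul_le_mul_left _ hs1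
      exact lt_of_mul_lt_mul_right e2 (Nat.zero_le _)
    rcases Nat.lt_or_ge W (2 * u.primeFactors.card) with hc | hc
    · apply Finset.mem_union_left
      rw [hS1, mem_filter]
      refine ⟨hn, (hP1 n).2 ⟨k, hkl, u, ?_, hk, ⟨v, hv⟩⟩⟩
      rw [hA1, mem_filter, hN1, mem_filter, mem_Icc]
      refine ⟨⟨⟨by omega, hu2⟩, ?_⟩, hsu⟩
      have : (W : ℝ) < 2 * (u.primeFactors.card : ℝ) := by exact_mod_cast hc
      linarith
    · have hc2 : W < 2 * v.primeFactors.card := by omega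
      apply Finset.mem_union_right
      rw [hS2, mem_filter]
      refine ⟨hn, (hP2 n).2 ⟨k, hkl, v, ?_, hk, ⟨u, by rw [hv]; ring⟩⟩⟩
      rw [hA2, mem_filter, hN1, mem_filter, mem_Icc]
      refine ⟨⟨⟨hv0, ?_⟩, ?_⟩, ?_, hvl⟩
      · calc v ≤ s := hvs
          _ ≤ L * s := Nat.le_mul_of_pos_left s (by omega)
      · have : (W : ℝ) < 2 * (v.primeFactors.card : ℝ) := by exact_mod_cast hc2
        linarith
      · by_contra hcon
        have e1 : v = 1 := by omega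
        rw [e1] at hc2
        simp at hc2
  have hlR : (1 : ℝ) ≤ l := by exact_mod_cast hl
  have hLR : (L : ℝ) = 2 * ((l : ℝ) + 1) := by rw [hL]; push_cast; ring
  have hA1c : (#A1 : ℝ) ≤ #N1 := by exact_mod_cast Finset.card_filter_le _ _
  have hA2c : (#A2 : ℝ) ≤ #N1 := by exact_mod_cast Finset.card_filter_le _ _
  have hpow : ((2 ^ l : ℕ) : ℝ) = (2 : ℝ) ^ l := by push_cast; rfl
  have hb1 : (#S1 : ℝ) ≤ #(range (l + 2)) * #A1 * 3 := by
    apply mpr_fib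
    · intro n hn
      exact (hP1 n).1 (mem_filter.1 hn).2
    · intro k _ u hu
      rw [hA1, mem_filter] at hu
      have hu2 : 2 ≤ u := by omega
      have h5 := card_divisor (S := {n ∈ S1 | Idx n k ∧ u ∣ n}) (k := k) (D := u) (X := 2 ^ l) hu2 (by
        intro n hn
        rw [mem_filter] at hn
        exact ⟨hn.2.1, (hS n (mem_filter.1 hn.1).1).2.1, hn.2.2⟩)
      refine h5.trans ?_
      have huR : (0 : ℝ) < u := by
        have : 0 < u := by omega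
        exact_mod_cast this
      have e1 : ((2 ^ l : ℕ) : ℝ) ≤ (u : ℝ) ^ 2 := by
        have : 2 ^ l ≤ u ^ 2 := by
          calc 2 ^ l ≤ (s + 1) * (s + 1) := hs2.le
            _ ≤ u * u := Nat.mul_le_mul hu.2 hu.2
            _ = u ^ 2 := by ring
        exact_mod_cast this
      have e2 : 2 * ((2 ^ l : ℕ) : ℝ) / (u : ℝ) ^ 2 ≤ 2 := by
        rw [div_le_iff₀ (by positivity)]
        linarith
      linarith
  have hb2 : (#S2 : ℝ) ≤ #(range (l + 2)) * #A2 * (8 * L ^ 2 + 1) := by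
    apply mpr_fib
    · intro n hn
      exact (hP2 n).1 (mem_filter.1 hn).2
    · intro k _ u hu
      rw [hA2, mem_filter] at hu
      have h5 := card_divisor (S := {n ∈ S2 | Idx n k ∧ u ∣ n}) (k := k) (D := u) (X := 2 ^ l)
        hu.2.1 (by
        intro n hn
        rw [mem_filter] at hn
        exact ⟨hn.2.1, (hS n (mem_filter.1 hn.1).1).2.1, hn.2.2⟩)
      refine h5.trans ?_
      have huR : (0 : ℝ) < u := by
        have : 0 < u := by omega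
        exact_mod_cast this
      have e1 : ((2 ^ l : ℕ) : ℝ) ≤ 4 * (L : ℝ) ^ 2 * (u : ℝ) ^ 2 := by
        exact_mod_cast hu.2.2.le
      have e2 : 2 * ((2 ^ l : ℕ) : ℝ) / (u : ℝ) ^ 2 ≤ 8 * (L : ℝ) ^ 2 := by
        rw [div_le_iff₀ (by positivity)]
        linarith
      linarith
  have hSc : (#S : ℝ) ≤ #S1 + #S2 := by
    have : #S ≤ #S1 + #S2 := (Finset.card_le_card hcover).trans (Finset.card_union_le _ _)
    exact_mod_cast this
  -- bound of the number of u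
  have hsR : (s : ℝ) ≤ (2 : ℝ) ^ ((l : ℝ) / 2) := by
    have e1 : (s : ℝ) * s ≤ (2 : ℝ) ^ l := by exact_mod_cast hs1
    have e2 : (2 : ℝ) ^ l = (2 : ℝ) ^ ((l : ℝ) / 2) * (2 : ℝ) ^ ((l : ℝ) / 2) := by
      rw [← Real.rpow_add (by norm_num), ← Real.rpow_natCast]
      congr 1
      ring
    have e3 : (0 : ℝ) < (2 : ℝ) ^ ((l : ℝ) / 2) := by positivity
    rw [e2] at e1
    exact abs_le_of_sq_le_sq' (by rw [sq, sq]; exact e1) e3.le |>.2
  have hsR0 : (1 : ℝ) ≤ s := by exact_mod_cast hs0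
  have hlog : Real.log ((L * s : ℕ) : ℝ) ≤ 3 * ((l : ℝ) + 1) := by
    rw [Nat.cast_mul, Real.log_mul (by rw [hLR]; positivity) (by positivity)]
    have e1 : Real.log (L : ℝ) ≤ 2 * ((l : ℝ) + 1) - 1 := by
      rw [hLR]
      exact Real.log_le_sub_one_of_pos (by positivity)
    have e2 : Real.log (s : ℝ) ≤ (l : ℝ) / 2 * Real.log 2 := by
      rw [← Real.log_rpow (by norm_num)]
      exact Real.log_le_log (by linarith) hsR
    have e3 : Real.log 2 ≤ 1 := by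
      have := Real.log_two_lt_d9
      linarith
    nlinarith
  have hlog0 : 0 ≤ Real.log ((L * s : ℕ) : ℝ) := Real.log_natCast_nonneg _
  have hE := Real.exp_pos (-(W : ℝ) / 2)
  set E := Real.exp (-(W : ℝ) / 2) with hEdef
  set R := (2 : ℝ) ^ ((l : ℝ) / 2) with hR
  have hR0 : 0 < R := by rw [hR]; positivity
  have hN1c : (#N1 : ℝ) ≤ 54 * C0 * ((l : ℝ) + 1) ^ 4 * R * E := by
    refine (hcnt (L * s) W hY2).trans ?_
    have e1 : ((L * s : ℕ) : ℝ) ≤ 2 * ((l : ℝ) + 1) * R := by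
      rw [Nat.cast_mul, hLR]
      exact mul_le_mul_of_nonneg_left hsR (by positivity)
    have e2 : Real.log ((L * s : ℕ) : ℝ) ^ 3 ≤ (3 * ((l : ℝ) + 1)) ^ 3 :=
      pow_le_pow_left₀ hlog0 hlog 3
    calc C0 * ((L * s : ℕ) : ℝ) * Real.log ((L * s : ℕ) : ℝ) ^ 3 * E
        ≤ C0 * (2 * ((l : ℝ) + 1) * R) * (3 * ((l : ℝ) + 1)) ^ 3 * E := by gcongr
      _ = 54 * C0 * ((l : ℝ) + 1) ^ 4 * R * E := by ring
  have hx : (2 : ℝ) ≤ (l : ℝ) + 1 := by linarith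
  set x : ℝ := (l : ℝ) + 1 with hxdef
  have hN10 : (0 : ℝ) ≤ #N1 := by positivity
  have hr : (#(range (l + 2)) : ℝ) ≤ 2 * x := by
    rw [Finset.card_range, hxdef]
    push_cast
    linarith
  have htot : (#S : ℝ) ≤ 2 * x * #N1 * (36 * x ^ 2) := by
    have e1 : (#(range (l + 2)) : ℝ) * #A1 * 3 ≤ 2 * x * #N1 * 3 := by gcongr
    have e2 : (#(range (l + 2)) : ℝ) * #A2 * (8 * (L : ℝ) ^ 2 + 1) ≤ 2 * x * #N1 * (8 * (L : ℝ) ^ 2 + 1) := by
      gcongr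
    have e3 : (3 : ℝ) + (8 * (L : ℝ) ^ 2 + 1) ≤ 36 * x ^ 2 := by
      rw [hLR]
      nlinarith
    calc (#S : ℝ) ≤ 2 * x * #N1 * 3 + 2 * x * #N1 * (8 * (L : ℝ) ^ 2 + 1) := by linarith
      _ = 2 * x * #N1 * (3 + (8 * (L : ℝ) ^ 2 + 1)) := by ring
      _ ≤ 2 * x * #N1 * (36 * x ^ 2) := by gcongr
  have hCR : 3888 * C0 ≤ (C : ℝ) := by linarith
  have hC7 : 7 ≤ C := by
    have : (7 : ℝ) < C := by linarith
    exact_mod_cast this.le
  calc (#S : ℝ) ≤ 2 * x * #N1 * (36 * x ^ 2) := htot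
    _ ≤ 2 * x * (54 * C0 * x ^ 4 * R * E) * (36 * x ^ 2) := by gcongr
    _ = 3888 * C0 * x ^ 7 * R * E := by ring
    _ ≤ C * x ^ C * R * E := by
        gcongr
        linarith

end Pool.Agent.Helper58.LT
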