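import Mathlib
import Pool.Agent.Helper58.LT.Spacing

/-!
# LC2: few Lehmer numbers violate NS

Every `n ∈ S` has an index `k ≤ W + 1` (`exists_idx`, `Idx.index_le`) and a witness `(p, g)` of `NSfail`,
with `log p > 2 W` (so `p > 2 W`).  Classify by `k` and the dyadic exponents
`a' = Nat.log 2 p`, `b = Nat.log 2 (sm p n)`, `c = Nat.log 2 (sm p n * g)`, all `≤ l`.
One class: `m = sm p n ∈ Lset k W (2^a') (2^b)` (`sm_mem`), `g < 2^(c+1-b)`; here `2^a' ≤ 4 W 2^b` by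
`Idx.prime_le` (if there is some `n` in the class).  Number of pairs `(m, g)`:
`≤ 24 W^2 2^b / 2^(a'/2) * 2^(c+1-b) = 48 W^2 2^c / 2^(a'/2)`.  For each pair `D = m g ≥ 2^c` divides
`n`; at most `2 * 2^l / D^2 + 1` values of `n` (`card_divisor`; `D = 1` does not occur, as
`|log D - X/2| < log p/2 - W` with `X = l log 2` would give `p > e^(2W) 2^l > n`).
The class has at most `48 W^2 (2 * 2^l / (2^c 2^(a'/2)) + 2^c / 2^(a'/2))` elements, and
`|log D - X / 2| < log p / 2 - W`, `2^c ≤ D < 2^(c+1)`, `2^a' ≤ p < 2^(a'+1)` give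
`2^c / 2^(a'/2) ≤ √2 2^(l/2) e^(-W)` and `2^l / (2^c 2^(a'/2)) ≤ 2 √2 2^(l/2) e^(-W)`.
There are at most `(W+1)(l+1)^3` classes.
-/

namespace Pool.Agent.Helper58.LT

open Finset Pool.Agent.Helper6.Lehmer Pool.Agent.Helper6.LehmerCount

/-- the data of a failure of NS with given index and dyadic exponents -/
private structure NSd (l W k a b c n p g : ℕ) : Prop where
  idx : Idx n k
  le : n ≤ 2 ^ l
  om : n.primeFactors.card ≤ W
  mem : p ∈ n.primeFactors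
  dvd : g ∣ lg p n
  ab : |Real.log (sm p n) + Real.log g - l * Real.log 2 / 2| < Real.log p / 2 - W
  ha : Nat.log 2 p = a
  hb : Nat.log 2 (sm p n) = b
  hc : Nat.log 2 (sm p n * g) = c

private theorem NSd.ppos {l W k a b c n p g : ℕ} (h : NSd l W k a b c n p g) : 0 < p :=
  (Nat.prime_of_mem_primeFactors h.mem).pos

private theorem NSd.gpos {l W k a b c n p g : ℕ} (h : NSd l W k a b c n p g) : 0 < g :=
  Nat.pos_of_dvd_of_pos h.dvd (lg_pos p n)

private theorem NSd.Dpos {l W k a b c n p g : ℕ} (h : NSd l W k a b c n p g) : 0 < sm p n * g :=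
  Nat.mul_pos (sm_pos p n) h.gpos

private theorem NSd.Ddvd {l W k a b c n p g : ℕ} (h : NSd l W k a b c n p g) : sm p n * g ∣ n := by
  conv_rhs => rw [← sm_mul_lg h.idx.lehmer.squarefree p]
  exact Nat.mul_dvd_mul_left _ h.dvd

private theorem NSd.logD {l W k a b c n p g : ℕ} (h : NSd l W k a b c n p g) :
    Real.log (sm p n) + Real.log g = Real.log ((sm p n * g : ℕ) : ℝ) := by
  have h1 : (0 : ℝ) < (sm p n : ℝ) := by exact_mod_cast sm_pos p n
  have h2 : (0 : ℝ) < (g : ℝ) := by exact_mod_cast h.gpos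
  push_cast
  rw [Real.log_mul h1.ne' h2.ne']

private theorem NSd.hi {l W k a b c n p g : ℕ} (h : NSd l W k a b c n p g) :
    Real.log ((sm p n * g : ℕ) : ℝ) < l * Real.log 2 / 2 + Real.log p / 2 - W := by
  have := (abs_lt.1 h.ab).2
  rw [h.logD] at this
  linarith

private theorem NSd.lo {l W k a b c n p g : ℕ} (h : NSd l W k a b c n p g) :
    l * Real.log 2 / 2 - Real.log p / 2 + W < Real.log ((sm p n * g : ℕ) : ℝ) := by
  have := (abs_lt.1 h.ab).1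
  rw [h.logD] at this
  linarith

private theorem NSd.logp {l W k a b c n p g : ℕ} (h : NSd l W k a b c n p g) :
    2 * (W : ℝ) < Real.log p := by
  have := lt_of_le_of_lt (abs_nonneg _) h.ab
  linarith

private theorem NSd.ple {l W k a b c n p g : ℕ} (h : NSd l W k a b c n p g) : 2 * W ≤ p := by
  have h1 : (0 : ℝ) < (p : ℝ) := by exact_mod_cast h.ppos
  have h2 := Real.log_le_sub_one_of_pos h1
  have h3 := h.logp
  have h4 : ((2 * W : ℕ) : ℝ) ≤ (p : ℝ) := by push_cast; linarith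
  exact_mod_cast h4

private theorem NSd.plen {l W k a b c n p g : ℕ} (h : NSd l W k a b c n p g) : p ≤ 2 ^ l :=
  (Nat.le_of_mem_primeFactors h.mem).trans h.le

private theorem NSd.two_le {l W k a b c n p g : ℕ} (hW : 1 ≤ W) (h : NSd l W k a b c n p g) :
    2 ≤ sm p n * g := by
  by_contra hlt
  have h1 : sm p n * g = 1 := by
    have := h.Dpos
    omega
  have h2 := h.lo
  rw [h1] at h2
  simp only [Nat.cast_one, Real.log_one] at h2
  have h3 : Real.log p ≤ l * Real.log 2 := by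
    rw [← Real.log_pow]
    apply Real.log_le_log (by exact_mod_cast h.ppos)
    exact_mod_cast h.plen
  have h4 : (1 : ℝ) ≤ W := by exact_mod_cast hW
  linarith

/-- one class -/
private theorem NS_class (l W k a b c : ℕ) (hW : 1 ≤ W) (S : Finset ℕ)
    (hS : ∀ n ∈ S, ∃ p g, NSd l W k a b c n p g) :
    (#S : ℝ) ≤ 500 * (W : ℝ) ^ 2 * Real.exp (l * Real.log 2 / 2) * Real.exp (-(W : ℝ)) := by
  classical
  rcases S.eq_empty_or_nonempty with hSe | ⟨n₀, hn₀⟩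
  · subst hSe
    simp only [card_empty, Nat.cast_zero]
    positivity
  obtain ⟨p₀, g₀, h₀⟩ := hS n₀ hn₀
  -- abbreviations
  set H : ℝ := (2 : ℝ) ^ a with hHdef
  have hH1 : (1 : ℝ) ≤ H := one_le_pow₀ (by norm_num)
  have hH0 : (0 : ℝ) < H := by linarith
  have hbc : b ≤ c := by
    rw [← h₀.hb, ← h₀.hc]
    exact Nat.log_mono_right (Nat.le_mul_of_pos_right _ h₀.gpos)
  have hpH : ∀ n p g, NSd l W k a b c n p g → H ≤ p ∧ (p : ℝ) < 2 * H := by
    intro n p g h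
    constructor
    · have := Nat.pow_log_le_self 2 h.ppos.ne'
      rw [h.ha] at this
      rw [hHdef]
      exact_mod_cast this
    · have := Nat.lt_pow_succ_log_self (b := 2) (by norm_num) p
      rw [h.ha, pow_succ] at this
      rw [hHdef]
      have h' : (p : ℝ) < 2 ^ a * 2 := by exact_mod_cast this
      linarith
  have hHb : H ≤ 4 * W * ((2 ^ b : ℕ) : ℝ) := by
    have h1 := h₀.idx.prime_le h₀.mem
    have h2 : sm p₀ n₀ < 2 ^ (b + 1) := by
      rw [← h₀.hb]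
      exact Nat.lt_pow_succ_log_self (by norm_num) _
    have h3 : 2 * n₀.primeFactors.card * sm p₀ n₀ ≤ 2 * W * 2 ^ (b + 1) :=
      Nat.mul_le_mul (Nat.mul_le_mul_left _ h₀.om) h2.le
    have h4 : (p₀ : ℝ) ≤ ((2 * W * 2 ^ (b + 1) : ℕ) : ℝ) := by
      exact_mod_cast (h1.le.trans h3)
    have h5 := (hpH _ _ _ h₀).1
    refine h5.trans (h4.trans (le_of_eq ?_))
    push_cast
    ring
  -- the pairs
  set P : Finset (ℕ × ℕ) := (Lset k W H (2 ^ b)) ×ˢ range (2 ^ (c + 1 - b)) with hP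
  have hPcard : (#P : ℝ) ≤ 48 * (W : ℝ) ^ 2 * 2 ^ c / Real.sqrt H := by
    rw [hP, card_product, card_range]
    have h1 := card_Lset k W (2 ^ b) H hW hH1 hHb
    push_cast at h1 ⊢
    calc (#(Lset k W H (2 ^ b)) : ℝ) * 2 ^ (c + 1 - b)
        ≤ (24 * (W : ℝ) ^ 2 * 2 ^ b / Real.sqrt H) * 2 ^ (c + 1 - b) :=
          mul_le_mul_of_nonneg_right h1 (by positivity)
      _ = 24 * (W : ℝ) ^ 2 * (2 ^ b * 2 ^ (c + 1 - b)) / Real.sqrt H := by ring
      _ = 24 * (W : ℝ) ^ 2 * (2 ^ (c + 1)) / Real.sqrt H := by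
          rw [← pow_add]
          congr 3
          omega
      _ = 48 * (W : ℝ) ^ 2 * 2 ^ c / Real.sqrt H := by
          rw [pow_succ]; ring
  -- fibres
  set F : ℕ × ℕ → Finset ℕ := fun z => {n ∈ S | Idx n k ∧ n ≤ 2 ^ l ∧ z.1 * z.2 ∣ n ∧
    2 ≤ z.1 * z.2 ∧ 2 ^ c ≤ z.1 * z.2} with hF
  have hcover : S ⊆ P.biUnion F := by
    intro n hn
    obtain ⟨p, g, h⟩ := hS n hn
    rw [mem_biUnion]
    have hm1 : 2 ^ b ≤ sm p n := by
      rw [← h.hb]
      exact Nat.pow_log_le_self 2 (sm_pos p n).ne'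
    have hm2 : sm p n < 2 * 2 ^ b := by
      have := Nat.lt_pow_succ_log_self (b := 2) (by norm_num) (sm p n)
      rw [h.hb, pow_succ] at this
      omega
    have hc1 : 2 ^ c ≤ sm p n * g := by
      rw [← h.hc]
      exact Nat.pow_log_le_self 2 h.Dpos.ne'
    have hc2 : sm p n * g < 2 ^ (c + 1) := by
      rw [← h.hc]
      exact Nat.lt_pow_succ_log_self (by norm_num) _
    refine ⟨(sm p n, g), ?_, ?_⟩
    · rw [hP, mem_product]
      constructor
      · exact sm_mem h.idx h.om h.mem h.ple hH0 (hpH _ _ _ h).1 hm1 hm2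
      · rw [mem_range]
        by_contra hge
        have hge' : 2 ^ (c + 1 - b) ≤ g := not_lt.1 hge
        have : 2 ^ b * 2 ^ (c + 1 - b) ≤ sm p n * g := Nat.mul_le_mul hm1 hge'
        rw [← pow_add, show b + (c + 1 - b) = c + 1 by omega] at this
        omega
    · rw [hF]
      simp only [mem_filter]
      exact ⟨hn, h.idx, h.le, h.Ddvd, h.two_le hW, hc1⟩
  have hfib : ∀ z ∈ P, (#(F z) : ℝ) ≤ 2 * 2 ^ l / (2 ^ c : ℝ) ^ 2 + 1 := by
    intro z _
    rcases (F z).eq_empty_or_nonempty with he | ⟨n₁, hn₁⟩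
    · rw [he]
      simp only [card_empty, Nat.cast_zero]
      positivity
    · have hz := hn₁
      rw [hF] at hz
      simp only [mem_filter] at hz
      obtain ⟨-, -, -, -, hz2, hzc⟩ := hz
      have h1 := card_divisor (S := F z) (k := k) (D := z.1 * z.2) (X := 2 ^ l) hz2 (by
        intro n hn
        rw [hF] at hn
        simp only [mem_filter] at hn
        exact ⟨hn.2.1, hn.2.2.1, hn.2.2.2.1⟩)
      refine h1.trans ?_
      have h2 : (2 : ℝ) ^ c ≤ ((z.1 * z.2 : ℕ) : ℝ) := by exact_mod_cast hzc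
      have h3 : ((2 : ℝ) ^ c) ^ 2 ≤ ((z.1 * z.2 : ℕ) : ℝ) ^ 2 :=
        pow_le_pow_left₀ (by positivity) h2 2
      have h4 : (2 * ((2 ^ l : ℕ) : ℝ)) / ((z.1 * z.2 : ℕ) : ℝ) ^ 2 ≤ 2 * 2 ^ l / (2 ^ c : ℝ) ^ 2 := by
        push_cast at h3 ⊢
        exact div_le_div_of_nonneg_left (by positivity) (by positivity) h3
      linarith
  have hcount : (#S : ℝ) ≤ #P * (2 * 2 ^ l / (2 ^ c : ℝ) ^ 2 + 1) := by
    have h1 : #S ≤ ∑ z ∈ P, #(F z) := (card_le_card hcover).trans card_biUnion_le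
    have h2 : (#S : ℝ) ≤ ∑ z ∈ P, (#(F z) : ℝ) := by exact_mod_cast h1
    refine h2.trans ((sum_le_sum hfib).trans (le_of_eq ?_))
    rw [sum_const, nsmul_eq_mul]
  -- the two bounds
  have hsqH : 0 < Real.sqrt H := Real.sqrt_pos.2 hH0
  have hp0 : (0 : ℝ) < p₀ := by exact_mod_cast h₀.ppos
  have hsqp : Real.sqrt p₀ ≤ 3 / 2 * Real.sqrt H := by
    rw [Real.sqrt_le_left (by positivity), mul_pow, Real.sq_sqrt hH0.le]
    have := (hpH _ _ _ h₀).2
    nlinarith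
  have hexpp : Real.exp (Real.log p₀ / 2) = Real.sqrt p₀ := by
    rw [Real.exp_half, Real.exp_log hp0]
  have hDpos : (0 : ℝ) < ((sm p₀ n₀ * g₀ : ℕ) : ℝ) := by exact_mod_cast h₀.Dpos
  set R : ℝ := Real.exp (l * Real.log 2 / 2) with hR
  set E : ℝ := Real.exp (-(W : ℝ)) with hE
  have hRpos : 0 < R := Real.exp_pos _
  have hEpos : 0 < E := Real.exp_pos _
  have hRR : R * R = 2 ^ l := by
    rw [hR, ← Real.exp_add, show (l : ℝ) * Real.log 2 / 2 + l * Real.log 2 / 2 = l * Real.log 2 by ring,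
      mul_comm, Real.exp_mul, Real.exp_log (by norm_num)]
    norm_cast
  have hD1 : ((sm p₀ n₀ * g₀ : ℕ) : ℝ) ≤ R * Real.sqrt p₀ * E := by
    have := Real.exp_le_exp.2 h₀.hi.le
    rw [Real.exp_log hDpos] at this
    refine this.trans (le_of_eq ?_)
    rw [hR, hE, ← hexpp, ← Real.exp_add, ← Real.exp_add]
    congr 1
  have hD2 : R ≤ ((sm p₀ n₀ * g₀ : ℕ) : ℝ) * (Real.sqrt p₀ * E) := by
    have := Real.exp_le_exp.2 h₀.lo.le
    rw [Real.exp_log hDpos] at this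
    have h2 : R = Real.exp (l * Real.log 2 / 2 - Real.log p₀ / 2 + W) * (Real.sqrt p₀ * E) := by
      rw [hR, hE, ← hexpp, ← Real.exp_add, ← Real.exp_add]
      congr 1
      ring
    rw [h2]
    exact mul_le_mul_of_nonneg_right this (by positivity)
  have hc1 : (2 : ℝ) ^ c ≤ ((sm p₀ n₀ * g₀ : ℕ) : ℝ) := by
    have := Nat.pow_log_le_self 2 h₀.Dpos.ne'
    rw [h₀.hc] at this
    exact_mod_cast this
  have hc2 : ((sm p₀ n₀ * g₀ : ℕ) : ℝ) ≤ 2 * 2 ^ c := by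
    have := Nat.lt_pow_succ_log_self (b := 2) (by norm_num) (sm p₀ n₀ * g₀)
    rw [h₀.hc, pow_succ] at this
    have h' : ((sm p₀ n₀ * g₀ : ℕ) : ℝ) < 2 ^ c * 2 := by exact_mod_cast this
    linarith
  have hb1 : (2 : ℝ) ^ c / Real.sqrt H ≤ 3 / 2 * (R * E) := by
    rw [div_le_iff₀ hsqH]
    calc (2 : ℝ) ^ c ≤ R * Real.sqrt p₀ * E := hc1.trans hD1
      _ = Real.sqrt p₀ * (R * E) := by ring
      _ ≤ (3 / 2 * Real.sqrt H) * (R * E) := mul_le_mul_of_nonneg_right hsqp (by positivity)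
      _ = 3 / 2 * (R * E) * Real.sqrt H := by ring
  have hb2 : (2 : ℝ) ^ l / (2 ^ c * Real.sqrt H) ≤ 3 * (R * E) := by
    rw [div_le_iff₀ (by positivity), ← hRR]
    have h1 : R ≤ 2 * 2 ^ c * ((3 / 2 * Real.sqrt H) * E) := by
      refine hD2.trans ?_
      exact mul_le_mul hc2 (mul_le_mul_of_nonneg_right hsqp hEpos.le) (by positivity) (by positivity)
    calc R * R ≤ R * (2 * 2 ^ c * ((3 / 2 * Real.sqrt H) * E)) := mul_le_mul_of_nonneg_left h1 hRpos.le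
      _ = 3 * (R * E) * (2 ^ c * Real.sqrt H) := by ring
  have h2c : (0 : ℝ) < 2 ^ c := by positivity
  calc (#S : ℝ) ≤ #P * (2 * 2 ^ l / (2 ^ c : ℝ) ^ 2 + 1) := hcount
    _ ≤ (48 * (W : ℝ) ^ 2 * 2 ^ c / Real.sqrt H) * (2 * 2 ^ l / (2 ^ c : ℝ) ^ 2 + 1) :=
        mul_le_mul_of_nonneg_right hPcard (by positivity)
    _ = 48 * (W : ℝ) ^ 2 * (2 * (2 ^ l / (2 ^ c * Real.sqrt H)) + 2 ^ c / Real.sqrt H) := by
        field_simp
    _ ≤ 48 * (W : ℝ) ^ 2 * (2 * (3 * (R * E)) + 3 / 2 * (R * E)) := by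
        apply mul_le_mul_of_nonneg_left _ (by positivity)
        linarith
    _ ≤ 500 * (W : ℝ) ^ 2 * R * E := by
        have : 0 ≤ (W : ℝ) ^ 2 * (R * E) := by positivity
        nlinarith

theorem NS_count (l W : ℕ) (hW : 1 ≤ W) (S : Finset ℕ)
    (hS : ∀ n ∈ S, IsLehmer n ∧ n ≤ 2 ^ l ∧ n.primeFactors.card ≤ W ∧ NSfail n l W) :
    (#S : ℝ) ≤ 4000 * (W : ℝ) ^ 3 * ((l : ℝ) + 1) ^ 3 * (2 : ℝ) ^ ((l : ℝ) / 2) *
      Real.exp (-(W : ℝ)) := by
  classical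
  set C : Finset (ℕ × ℕ × ℕ × ℕ) := range (W + 2) ×ˢ (range (l + 1) ×ˢ (range (l + 1) ×ˢ range (l + 1)))
    with hC
  set F : ℕ × ℕ × ℕ × ℕ → Finset ℕ := fun z =>
    {n ∈ S | ∃ p g, NSd l W z.1 z.2.1 z.2.2.1 z.2.2.2 n p g} with hF
  have hcover : S ⊆ C.biUnion F := by
    intro n hn
    obtain ⟨hL, hn2, hom, p, hp, g, hg, hab⟩ := hS n hn
    obtain ⟨k, hk⟩ := exists_idx hL
    have hd : NSd l W k (Nat.log 2 p) (Nat.log 2 (sm p n)) (Nat.log 2 (sm p n * g)) n p g :=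
      ⟨hk, hn2, hom, hp, hg, hab, rfl, rfl, rfl⟩
    rw [mem_biUnion]
    have hn0 : 0 < n := by
      have := hL.one_lt
      omega
    have hlog : ∀ x, x ≤ n → Nat.log 2 x < l + 1 := by
      intro x hx
      have := Nat.log_mono_right (b := 2) (hx.trans hn2)
      rw [Nat.log_pow (by norm_num)] at this
      omega
    refine ⟨(k, Nat.log 2 p, Nat.log 2 (sm p n), Nat.log 2 (sm p n * g)), ?_, ?_⟩
    · rw [hC]
      simp only [mem_product, mem_range]
      refine ⟨?_, hlog _ (Nat.le_of_mem_primeFactors hp), hlog _ (Nat.le_of_dvd hn0 (sm_dvd p)),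
        hlog _ (Nat.le_of_dvd hn0 hd.Ddvd)⟩
      have := hk.index_le
      omega
    · rw [hF]
      simp only [mem_filter]
      exact ⟨hn, p, g, hd⟩
  have hfib : ∀ z ∈ C, (#(F z) : ℝ) ≤
      500 * (W : ℝ) ^ 2 * Real.exp (l * Real.log 2 / 2) * Real.exp (-(W : ℝ)) := by
    intro z _
    refine NS_class l W z.1 z.2.1 z.2.2.1 z.2.2.2 hW (F z) ?_
    intro n hn
    rw [hF] at hn
    simp only [mem_filter] at hn
    exact hn.2
  have hcount : (#S : ℝ) ≤ #C *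
      (500 * (W : ℝ) ^ 2 * Real.exp (l * Real.log 2 / 2) * Real.exp (-(W : ℝ))) := by
    have h1 : #S ≤ ∑ z ∈ C, #(F z) := (card_le_card hcover).trans card_biUnion_le
    have h2 : (#S : ℝ) ≤ ∑ z ∈ C, (#(F z) : ℝ) := by exact_mod_cast h1
    refine h2.trans ((sum_le_sum hfib).trans (le_of_eq ?_))
    rw [sum_const, nsmul_eq_mul]
  have hCcard : (#C : ℝ) = ((W : ℝ) + 2) * ((l : ℝ) + 1) ^ 3 := by
    rw [hC]
    simp only [card_product, card_range]
    push_cast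
    ring
  have hR : Real.exp (l * Real.log 2 / 2) = (2 : ℝ) ^ ((l : ℝ) / 2) := by
    rw [Real.rpow_def_of_pos (by norm_num)]
    congr 1
    ring
  rw [hCcard, hR] at hcount
  refine hcount.trans ?_
  have hW1 : (1 : ℝ) ≤ W := by exact_mod_cast hW
  have hX : 0 ≤ (W : ℝ) ^ 2 * ((l : ℝ) + 1) ^ 3 * (2 : ℝ) ^ ((l : ℝ) / 2) * Real.exp (-(W : ℝ)) := by
    positivity
  have h8 : ((W : ℝ) + 2) ≤ 8 * W := by linarith
  calc ((W : ℝ) + 2) * ((l : ℝ) + 1) ^ 3 *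
        (500 * (W : ℝ) ^ 2 * (2 : ℝ) ^ ((l : ℝ) / 2) * Real.exp (-(W : ℝ)))
      = ((W : ℝ) + 2) * (500 * ((W : ℝ) ^ 2 * ((l : ℝ) + 1) ^ 3 * (2 : ℝ) ^ ((l : ℝ) / 2) *
        Real.exp (-(W : ℝ)))) := by ring
    _ ≤ (8 * W) * (500 * ((W : ℝ) ^ 2 * ((l : ℝ) + 1) ^ 3 * (2 : ℝ) ^ ((l : ℝ) / 2) *
        Real.exp (-(W : ℝ)))) := mul_le_mul_of_nonneg_right h8 (by positivity)
    _ = _ := by ring

end Pool.Agent.Helper58.LT
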