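import Mathlib
import Pool.Agent.Helper58.LT.GoodPart
import Pool.Agent.Helper58.LT.NSCount
import Pool.Agent.Helper58.LT.ManyPrimes

/-!
# FA2: the bound for a dyadic block

Split `S` into `ω(n) > W` (`many_primes`), `ω(n) ≤ W` and `NSfail` (`NS_count`), and the rest
(`good_part`).  With `l + 1 ≤ (W+1)^60 + 1 ≤ (W+2)^60` and `l / W^23 ≥ W^37 ≥ W`, everything is
`≤ C' (W+3)^C' 2^(l/2) exp (-W/2) ≤ 2^(l/2) exp (-W/4)` for large `W`.
-/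

namespace Pool.Agent.Helper58.LT

open Finset Pool.Agent.Helper6.Lehmer Pool.Agent.Helper6.LehmerCount

private theorem poly_exp (C : ℝ) (K : ℕ) : ∃ W₀ : ℕ, ∀ W : ℕ, W₀ ≤ W →
    C * ((W : ℝ) + 3) ^ K * Real.exp (-((W : ℝ) / 4)) ≤ 1 / 3 := by
  have h0 := Real.tendsto_pow_mul_exp_neg_atTop_nhds_zero K
  have h1 : Filter.Tendsto (fun W : ℕ => ((W : ℝ) + 3) / 4) Filter.atTop Filter.atTop :=
    (Filter.tendsto_atTop_add_const_right _ 3 tendsto_natCast_atTop_atTop).atTop_div_const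
      (by norm_num)
  have h2 := (h0.comp h1).const_mul (C * 4 ^ K * Real.exp (3 / 4))
  rw [mul_zero] at h2
  have h3 := h2.eventually (gt_mem_nhds (show (0 : ℝ) < 1 / 3 by norm_num))
  obtain ⟨W₀, hW₀⟩ := Filter.eventually_atTop.1 h3
  refine ⟨W₀, fun W hW => ?_⟩
  have h4 := hW₀ W hW
  simp only [Function.comp] at h4
  have h5 : C * ((W : ℝ) + 3) ^ K * Real.exp (-((W : ℝ) / 4)) =
      C * 4 ^ K * Real.exp (3 / 4) * ((((W : ℝ) + 3) / 4) ^ K * Real.exp (-(((W : ℝ) + 3) / 4))) := by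
    have e1 : Real.exp (-((W : ℝ) / 4)) = Real.exp (3 / 4) * Real.exp (-(((W : ℝ) + 3) / 4)) := by
      rw [← Real.exp_add]; congr 1; ring
    rw [e1, div_pow]
    field_simp
  rw [h5]
  exact h4.le

private theorem cast_pow_le (W l k : ℕ) (h : W ^ k ≤ l) : (W : ℝ) ^ k ≤ (l : ℝ) := by
  exact_mod_cast h

private theorem add_one_le_pow (W l k : ℕ) (hk : k ≠ 0) (h : l ≤ (W + 1) ^ k) :
    ((l : ℝ) + 1) ≤ ((W : ℝ) + 3) ^ k := by
  have h1 : (W + 1) ^ k < (W + 2) ^ k := Nat.pow_lt_pow_left (by omega) hk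
  have h2 : l + 1 ≤ (W + 2) ^ k := lt_of_le_of_lt h h1
  have hb : ((l + 1 : ℕ) : ℝ) ≤ (((W + 2) ^ k : ℕ) : ℝ) := by exact_mod_cast h2
  push_cast at hb
  refine hb.trans ?_
  exact pow_le_pow_left₀ (by positivity) (by linarith) k

theorem block : ∃ W₀ : ℕ, ∀ (l W : ℕ) (S : Finset ℕ), W₀ ≤ W → W ^ 60 ≤ l → l ≤ (W + 1) ^ 60 →
    (∀ n ∈ S, IsLehmer n ∧ n ≤ 2 ^ l ∧ 2 ^ (l - 1) < n) →
    (#S : ℝ) ≤ (2 : ℝ) ^ ((l : ℝ) / 2) * Real.exp (-((W : ℝ) / 4)) := by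
  classical
  obtain ⟨Wg, hg⟩ := good_part
  obtain ⟨C, hC⟩ := many_primes
  obtain ⟨W1, h1⟩ := poly_exp C (60 * C)
  obtain ⟨W2, h2⟩ := poly_exp 4000 183
  obtain ⟨W3, h3⟩ := poly_exp 1 242
  refine ⟨Wg + W1 + W2 + W3 + 1, ?_⟩
  intro l W S hW hl hl' hS
  have hW1 : 1 ≤ W := by omega
  have hWR : (1 : ℝ) ≤ W := by exact_mod_cast hW1
  have hW0 : (0 : ℝ) ≤ W := by linarith
  have hl1 : 1 ≤ l := (Nat.one_le_pow _ _ hW1).trans hl
  set X : ℝ := (2 : ℝ) ^ ((l : ℝ) / 2) with hX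
  have hX0 : 0 < X := by positivity
  set S1 := S.filter (fun n => W < n.primeFactors.card) with hS1
  set S2 := S.filter (fun n => n.primeFactors.card ≤ W ∧ NSfail n l W) with hS2
  set S3 := S.filter (fun n => n.primeFactors.card ≤ W ∧ ¬ NSfail n l W) with hS3
  have hcov : S ⊆ S1 ∪ S2 ∪ S3 := by
    intro n hn
    simp only [hS1, hS2, hS3, mem_union, mem_filter]
    by_cases ha : W < n.primeFactors.card
    · exact Or.inl (Or.inl ⟨hn, ha⟩)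
    · by_cases hb : NSfail n l W
      · exact Or.inl (Or.inr ⟨hn, not_lt.1 ha, hb⟩)
      · exact Or.inr ⟨hn, not_lt.1 ha, hb⟩
  have hcard : (#S : ℝ) ≤ (#S1 : ℝ) + (#S2 : ℝ) + (#S3 : ℝ) := by
    have ha : #S ≤ #S1 + #S2 + #S3 :=
      (card_le_card hcov).trans ((card_union_le _ _).trans
        (Nat.add_le_add_right (card_union_le _ _) _))
    exact_mod_cast ha
  have c1 : (#S1 : ℝ) ≤ C * ((l : ℝ) + 1) ^ C * X * Real.exp (-(W : ℝ) / 2) := by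
    refine hC l W S1 hl1 ?_
    intro n hn
    rw [hS1, mem_filter] at hn
    obtain ⟨ha, hb, hc⟩ := hS n hn.1
    exact ⟨ha, hb, hc, hn.2⟩
  have c2 : (#S2 : ℝ) ≤ 4000 * (W : ℝ) ^ 3 * ((l : ℝ) + 1) ^ 3 * X * Real.exp (-(W : ℝ)) := by
    refine NS_count l W hW1 S2 ?_
    intro n hn
    rw [hS2, mem_filter] at hn
    obtain ⟨ha, hb, hc⟩ := hS n hn.1
    exact ⟨ha, hb, hn.2.1, hn.2.2⟩
  have c3 : (#S3 : ℝ) ≤ ((W : ℝ) + 3) ^ 2 * ((l : ℝ) + 1) ^ 4 *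
      (X * Real.exp (-((l : ℝ) / (W : ℝ) ^ 23))) := by
    refine hg l W S3 (by omega) hl ?_
    intro n hn
    rw [hS3, mem_filter] at hn
    obtain ⟨ha, hb, hc⟩ := hS n hn.1
    exact ⟨ha, hb, hc, hn.2.1, hn.2.2⟩
  have hlb : (l : ℝ) + 1 ≤ ((W : ℝ) + 3) ^ 60 := add_one_le_pow W l 60 (by norm_num) hl'
  have hlR : (W : ℝ) ^ 60 ≤ (l : ℝ) := cast_pow_le W l 60 hl
  clear hl hl'
  have hl0 : (0 : ℝ) ≤ (l : ℝ) + 1 := by positivity
  -- exponentials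
  set e : ℝ := Real.exp (-((W : ℝ) / 4)) with he
  have he0 : 0 < e := Real.exp_pos _
  have ee : Real.exp (-(W : ℝ) / 2) = e * e := by
    rw [he, ← Real.exp_add]; congr 1; ring
  have e2 : Real.exp (-(W : ℝ)) ≤ e * e := by
    rw [← ee]; exact Real.exp_le_exp.2 (by linarith)
  have hlW : (W : ℝ) ≤ (l : ℝ) / (W : ℝ) ^ 23 := by
    rw [le_div_iff₀ (by positivity)]
    refine le_trans ?_ hlR
    calc (W : ℝ) * (W : ℝ) ^ 23 = (W : ℝ) ^ 24 := by ring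
      _ ≤ (W : ℝ) ^ 60 := pow_le_pow_right₀ hWR (by norm_num)
  have e3 : Real.exp (-((l : ℝ) / (W : ℝ) ^ 23)) ≤ e * e := by
    refine le_trans (Real.exp_le_exp.2 ?_) e2
    linarith
  have b1 := h1 W (by omega)
  have b2 := h2 W (by omega)
  have b3 := h3 W (by omega)
  have hWY : (W : ℝ) ≤ (W : ℝ) + 3 := by linarith
  have hY0 : (0 : ℝ) ≤ (W : ℝ) + 3 := by linarith
  rw [← he] at b1 b2 b3
  generalize (W : ℝ) + 3 = Y at b1 b2 b3 hWY hY0 hlb c3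
  generalize (l : ℝ) + 1 = M at hlb hl0 c1 c2 c3
  rw [ee] at c1
  have d1 : (#S1 : ℝ) ≤ X * e * (1 / 3) := by
    refine c1.trans ?_
    have ha : M ^ C ≤ Y ^ (60 * C) := by
      rw [pow_mul]; exact pow_le_pow_left₀ hl0 hlb C
    have hc : (C : ℝ) * M ^ C ≤ (C : ℝ) * Y ^ (60 * C) :=
      mul_le_mul_of_nonneg_left ha (Nat.cast_nonneg _)
    calc (C : ℝ) * M ^ C * X * (e * e) = (C : ℝ) * M ^ C * (X * (e * e)) := by ring
      _ ≤ (C : ℝ) * Y ^ (60 * C) * (X * (e * e)) := mul_le_mul_of_nonneg_right hc (by positivity)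
      _ = X * e * ((C : ℝ) * Y ^ (60 * C) * e) := by ring
      _ ≤ X * e * (1 / 3) := mul_le_mul_of_nonneg_left b1 (by positivity)
  have d2 : (#S2 : ℝ) ≤ X * e * (1 / 3) := by
    refine c2.trans ?_
    have ha : (W : ℝ) ^ 3 ≤ Y ^ 3 := pow_le_pow_left₀ hW0 hWY 3
    have hb : M ^ 3 ≤ (Y ^ 60) ^ 3 := pow_le_pow_left₀ hl0 hlb 3
    have hc : (W : ℝ) ^ 3 * M ^ 3 ≤ Y ^ 3 * (Y ^ 60) ^ 3 :=
      mul_le_mul ha hb (pow_nonneg hl0 3) (pow_nonneg hY0 3)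
    have hd : X * Real.exp (-(W : ℝ)) ≤ X * (e * e) := mul_le_mul_of_nonneg_left e2 hX0.le
    calc 4000 * (W : ℝ) ^ 3 * M ^ 3 * X * Real.exp (-(W : ℝ))
        = 4000 * (((W : ℝ) ^ 3 * M ^ 3) * (X * Real.exp (-(W : ℝ)))) := by ring
      _ ≤ 4000 * ((Y ^ 3 * (Y ^ 60) ^ 3) * (X * (e * e))) := by
          apply mul_le_mul_of_nonneg_left _ (by norm_num)
          exact mul_le_mul hc hd (by positivity) (by positivity)
      _ = X * e * (4000 * Y ^ 183 * e) := by ring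
      _ ≤ X * e * (1 / 3) := mul_le_mul_of_nonneg_left b2 (by positivity)
  have d3 : (#S3 : ℝ) ≤ X * e * (1 / 3) := by
    refine c3.trans ?_
    have hb : M ^ 4 ≤ (Y ^ 60) ^ 4 := pow_le_pow_left₀ hl0 hlb 4
    have hc : Y ^ 2 * M ^ 4 ≤ Y ^ 2 * (Y ^ 60) ^ 4 :=
      mul_le_mul_of_nonneg_left hb (pow_nonneg hY0 2)
    have hd : X * Real.exp (-((l : ℝ) / (W : ℝ) ^ 23)) ≤ X * (e * e) :=
      mul_le_mul_of_nonneg_left e3 hX0.le
    calc Y ^ 2 * M ^ 4 * (X * Real.exp (-((l : ℝ) / (W : ℝ) ^ 23)))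
        ≤ Y ^ 2 * (Y ^ 60) ^ 4 * (X * (e * e)) :=
          mul_le_mul hc hd (by positivity) (by positivity)
      _ = X * e * (1 * Y ^ 242 * e) := by ring
      _ ≤ X * e * (1 / 3) := mul_le_mul_of_nonneg_left b3 (by positivity)
  calc (#S : ℝ) ≤ (#S1 : ℝ) + (#S2 : ℝ) + (#S3 : ℝ) := hcard
    _ ≤ X * e * (1 / 3) + X * e * (1 / 3) + X * e * (1 / 3) := by linarith
    _ = X * e := by ring

end Pool.Agent.Helper58.LT
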