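import Mathlib
import Pool.Agent.Helper58.LT.Block
import Pool.Agent.Helper6.LehmerCount.Total

/-!
# FA3: summation over the dyadic blocks

`NL X` (helper6, LehmerCount/Total.lean) counts the Lehmer numbers `≤ X`.

`block_l`: for `l` large, `W := Nat.findGreatest (fun w => w ^ 60 ≤ l) l` has `W ^ 60 ≤ l < (W+1)^60`,
`W + 1 > l^(1/60)`, `W → ∞`; so every finite set of Lehmer numbers in `(2^(l-1), 2^l]` has at most
`2^(l/2) exp (-(l^(1/60) - 1)/4)` elements.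

`NL_bound_exp`: let `m = Nat.clog 2 X`, `2^(m-1) < X ≤ 2^m`.  The Lehmer numbers `≤ X` are among the numbers
`≤ 2^⌈m/4⌉` and the blocks `(2^(l-1), 2^l]`, `⌈m/4⌉ < l ≤ m`.  So
`NL X ≤ 2^(m/4+1) + ∑_{m/4 < l ≤ m} 2^(l/2) exp (-((m/4)^(1/60) - 1)/4)
  ≤ 2^(m/4+1) + 4 * 2^(m/2) exp (-((m/4)^(1/60) - 1)/4)` (geometric series with ratio `√2`),
`2^(m/2) ≤ √(2 X)`, `m ≥ log X / log 2 ≥ log X`, hence
`NL X ≤ √X (3 exp(-(m/4) log 2) + 6 e^{1/4} exp (-(log X / 4)^(1/60)/4))`, and this is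
`≤ √X exp (-(log X)^(1/61))` for large `X`, since `(log X)^(1/61) = o((log X)^(1/60))`.
-/

namespace Pool.Agent.Helper58.LT

open Finset Filter Pool.Agent.Helper6.Lehmer Pool.Agent.Helper6.LehmerCount

theorem root_le_of_le_powFA3 {l W : ℝ} (hl : 0 ≤ l) (hW : 0 ≤ W) (h : l ≤ W ^ 60) :
    l ^ ((1 : ℝ) / 60) ≤ W := by
  have h1 : ((1 : ℝ) / 60) = (((60 : ℕ) : ℝ))⁻¹ := by norm_num
  rw [h1, Real.rpow_inv_le_iff_of_pos hl hW (by norm_num), Real.rpow_natCast]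
  exact h

theorem block_l : ∃ l₀ : ℕ, ∀ (l : ℕ) (S : Finset ℕ), l₀ ≤ l →
    (∀ n ∈ S, IsLehmer n ∧ n ≤ 2 ^ l ∧ 2 ^ (l - 1) < n) →
    (#S : ℝ) ≤ (2 : ℝ) ^ ((l : ℝ) / 2) * Real.exp (-(((l : ℝ) ^ ((1 : ℝ) / 60) - 1) / 4)) := by
  obtain ⟨W₀, hW₀⟩ := block
  refine ⟨W₀ ^ 60 + W₀, ?_⟩
  intro l S hl hS
  obtain ⟨W, hW⟩ : ∃ W, W = Nat.findGreatest (fun w => w ^ 60 ≤ l) l := ⟨_, rfl⟩
  have h1 : W ^ 60 ≤ l := by
    rw [hW]
    exact Nat.findGreatest_spec (P := fun w => w ^ 60 ≤ l) (n := l) (m := 0) (Nat.zero_le _)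
      (by simp)
  have h2 : l < (W + 1) ^ 60 := by
    by_contra h
    push Not at h
    by_cases hWl : W + 1 ≤ l
    · exact Nat.findGreatest_is_greatest (P := fun w => w ^ 60 ≤ l) (n := l) (k := W + 1)
        (by rw [← hW]; exact Nat.lt_succ_self _) hWl h
    · have h3 : W + 1 ≤ (W + 1) ^ 60 := Nat.le_self_pow (by norm_num) _
      omega
  have h3 : W₀ ≤ W := by
    rw [hW]
    exact Nat.le_findGreatest (le_trans (Nat.le_add_left _ _) hl)
      (le_trans (Nat.le_add_right _ _) hl)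
  have h4 := hW₀ l W S h3 h1 h2.le hS
  have h6 : (l : ℝ) ≤ ((W : ℝ) + 1) ^ 60 := by exact_mod_cast h2.le
  have h5 := root_le_of_le_powFA3 (Nat.cast_nonneg l)
    (add_nonneg (Nat.cast_nonneg W) zero_le_one) h6
  clear h1 h2 h3 h6 hl hW hS
  refine h4.trans (mul_le_mul_of_nonneg_left (Real.exp_le_exp.mpr ?_)
    (Real.rpow_nonneg (by norm_num) _))
  linarith

/-- the dyadic blocks -/
theorem NL_le_sumFA3 (X m a : ℕ) (hX : X ≤ 2 ^ m) : ∃ S : ℕ → Finset ℕ,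
    (∀ l, ∀ n ∈ S l, IsLehmer n ∧ n ≤ 2 ^ l ∧ 2 ^ (l - 1) < n) ∧
    NL X ≤ 2 ^ a + ∑ l ∈ Ioc a m, #(S l) := by
  classical
  refine ⟨fun l => {n ∈ Ioc (2 ^ (l - 1)) (2 ^ l) | IsLehmer n}, ?_, ?_⟩
  · intro l n hn
    rw [mem_filter, mem_Ioc] at hn
    exact ⟨hn.2, hn.1.2, hn.1.1⟩
  · unfold NL
    have hsub : ({n ∈ Icc 1 X | IsLehmer n} : Finset ℕ) ⊆ Icc 1 (2 ^ a) ∪
        (Ioc a m).biUnion (fun l => {n ∈ Ioc (2 ^ (l - 1)) (2 ^ l) | IsLehmer n}) := by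
      intro n hn
      rw [mem_filter, mem_Icc] at hn
      rw [mem_union, mem_Icc]
      by_cases hna : n ≤ 2 ^ a
      · exact Or.inl ⟨hn.1.1, hna⟩
      · right
        push Not at hna
        rw [mem_biUnion]
        have h1 : 1 < n := lt_of_le_of_lt Nat.one_le_two_pow hna
        have h2 : n ≤ 2 ^ Nat.clog 2 n := Nat.le_pow_clog (by norm_num) n
        have h3 : 2 ^ (Nat.clog 2 n).pred < n := Nat.pow_pred_clog_lt_self (by norm_num) h1
        refine ⟨Nat.clog 2 n, ?_, ?_⟩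
        · rw [mem_Ioc]
          constructor
          · have h4 : 2 ^ a < 2 ^ Nat.clog 2 n := lt_of_lt_of_le hna h2
            exact (Nat.pow_lt_pow_iff_right (by norm_num)).mp h4
          · exact Nat.clog_le_of_le_pow (hn.1.2.trans hX)
        · rw [mem_filter, mem_Ioc]
          exact ⟨⟨h3, h2⟩, hn.2⟩
    refine (card_le_card hsub).trans ((card_union_le _ _).trans ?_)
    refine add_le_add ?_ card_biUnion_le
    rw [Nat.card_Icc, Nat.add_sub_cancel]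

theorem geom_leFA3 (a m : ℕ) :
    ∑ l ∈ Ioc a m, (2 : ℝ) ^ ((l : ℝ) / 2) ≤ 4 * (2 : ℝ) ^ ((m : ℝ) / 2) := by
  induction m with
  | zero => simp
  | succ m ih =>
    have h1 : (2 : ℝ) ^ (((m + 1 : ℕ) : ℝ) / 2) = (2 : ℝ) ^ ((m : ℝ) / 2) * Real.sqrt 2 := by
      rw [Real.sqrt_eq_rpow, ← Real.rpow_add (by norm_num)]
      congr 1
      push_cast
      ring
    have h2 : (4 : ℝ) / 3 ≤ Real.sqrt 2 := by
      apply Real.le_sqrt_of_sq_le
      norm_num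
    have h3 : 0 ≤ (2 : ℝ) ^ ((m : ℝ) / 2) := by positivity
    by_cases ham : a ≤ m
    · rw [Finset.sum_Ioc_succ_top ham, h1]
      nlinarith
    · rw [Finset.Ioc_eq_empty (by omega), Finset.sum_empty]
      positivity

theorem NL_bound_exp : ∃ X₀ : ℕ, ∀ X : ℕ, X₀ ≤ X →
    (NL X : ℝ) ≤ Real.sqrt X * Real.exp (-(Real.log X ^ ((1 : ℝ) / 61))) := by
  obtain ⟨l₀, hl₀⟩ := block_l
  -- the asymptotic requirements
  have hev : ∀ᶠ y : ℝ in atTop, 3 + y ^ ((1 : ℝ) / 61) ≤ y ^ ((1 : ℝ) / 60) / 20 ∧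
      15 ≤ y ∧ 5 * ((l₀ : ℝ) + 1) ≤ y := by
    have h1 : Tendsto (fun y : ℝ => y ^ ((1 : ℝ) / 60 - 1 / 61)) atTop atTop :=
      tendsto_rpow_atTop (by norm_num)
    filter_upwards [h1.eventually_ge_atTop 80, eventually_ge_atTop 15,
      eventually_ge_atTop (5 * ((l₀ : ℝ) + 1))] with y h2 h3 h4
    refine ⟨?_, h3, h4⟩
    have h5 : y ^ ((1 : ℝ) / 60) = y ^ ((1 : ℝ) / 61) * y ^ ((1 : ℝ) / 60 - 1 / 61) := by
      rw [← Real.rpow_add (by linarith)]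
      congr 1
      ring
    have h6 : 1 ≤ y ^ ((1 : ℝ) / 61) := Real.one_le_rpow (by linarith) (by norm_num)
    rw [h5]
    nlinarith
  have hev2 : ∀ᶠ X : ℕ in atTop, 3 + (Real.log X) ^ ((1 : ℝ) / 61) ≤
      (Real.log X) ^ ((1 : ℝ) / 60) / 20 ∧ 15 ≤ Real.log X ∧ 5 * ((l₀ : ℝ) + 1) ≤ Real.log X :=
    (Real.tendsto_log_atTop.comp tendsto_natCast_atTop_atTop).eventually hev
  obtain ⟨X₀, hX₀⟩ := eventually_atTop.mp hev2
  refine ⟨max X₀ 2, ?_⟩
  intro X hX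
  obtain ⟨hy1, hy2, hy3⟩ := hX₀ X ((le_max_left _ _).trans hX)
  have hX2 : 2 ≤ X := (le_max_right _ _).trans hX
  have hXpos : (0 : ℝ) < X := by
    have : (2 : ℝ) ≤ X := by exact_mod_cast hX2
    linarith
  set y : ℝ := Real.log X with hy
  set m : ℕ := Nat.clog 2 X with hm
  set a : ℕ := m / 4 with ha
  have hl2 : Real.log 2 < 0.7 := by have := Real.log_two_lt_d9; linarith
  have hl2' : 0 < Real.log 2 := Real.log_pos (by norm_num)
  -- bounds for `m`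
  have hm1 : X ≤ 2 ^ m := Nat.le_pow_clog (by norm_num) X
  have hm2 : 2 ^ m ≤ 2 * X := by
    have h1 : 2 ^ (Nat.clog 2 X).pred < X := Nat.pow_pred_clog_lt_self (by norm_num) (by omega)
    rw [← hm] at h1
    have h2 : 1 ≤ m := by
      by_contra h
      have h3 : m = 0 := by omega
      rw [h3, pow_zero] at hm1
      omega
    have h3 : 2 ^ m = 2 * 2 ^ m.pred := by
      obtain ⟨m', hm'⟩ : ∃ m', m = m' + 1 := ⟨m - 1, by omega⟩
      rw [hm', pow_succ]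
      simp [mul_comm]
    omega
  have hm3 : y ≤ m * Real.log 2 := by
    have h1 : (X : ℝ) ≤ (2 : ℝ) ^ m := by exact_mod_cast hm1
    have h2 := Real.log_le_log hXpos h1
    rwa [Real.log_pow] at h2
  have hm4 : m * Real.log 2 ≤ Real.log 2 + y := by
    have h1 : ((2 : ℝ) ^ m) ≤ 2 * X := by exact_mod_cast hm2
    have h2 := Real.log_le_log (by positivity) h1
    rwa [Real.log_pow, Real.log_mul (by norm_num) hXpos.ne'] at h2
  have hm5 : y ≤ m := by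
    have h1 : (m : ℝ) * Real.log 2 ≤ m * 1 :=
      mul_le_mul_of_nonneg_left (by linarith) (Nat.cast_nonneg _)
    linarith
  have ha1 : (y : ℝ) / 5 ≤ a := by
    have h1 : m ≤ 4 * a + 3 := by omega
    have h2 : (m : ℝ) ≤ 4 * (a : ℝ) + 3 := by exact_mod_cast h1
    linarith
  have ha2 : 4 * (a : ℝ) ≤ m := by
    have h1 : 4 * a ≤ m := by omega
    exact_mod_cast h1
  have ha3 : l₀ ≤ a := by
    have h1 : (l₀ : ℝ) + 1 ≤ a := by linarith
    have h2 : (l₀ : ℝ) ≤ a := by linarith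
    exact_mod_cast h2
  -- the sum over the blocks
  obtain ⟨S, hS, hNL⟩ := NL_le_sumFA3 X m a hm1
  have hNL' : (NL X : ℝ) ≤ (2 : ℝ) ^ a + ∑ l ∈ Ioc a m, (#(S l) : ℝ) := by exact_mod_cast hNL
  set D : ℝ := Real.exp (-(((a : ℝ) ^ ((1 : ℝ) / 60) - 1) / 4)) with hD
  have hblk : ∀ l ∈ Ioc a m, (#(S l) : ℝ) ≤ (2 : ℝ) ^ ((l : ℝ) / 2) * D := by
    intro l hl
    rw [mem_Ioc] at hl
    refine (hl₀ l (S l) (by omega) (hS l)).trans
      (mul_le_mul_of_nonneg_left (Real.exp_le_exp.mpr ?_) (by positivity))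
    have h1 : (a : ℝ) ^ ((1 : ℝ) / 60) ≤ (l : ℝ) ^ ((1 : ℝ) / 60) :=
      Real.rpow_le_rpow (Nat.cast_nonneg _) (by exact_mod_cast hl.1.le) (by norm_num)
    linarith
  have hsum : ∑ l ∈ Ioc a m, (#(S l) : ℝ) ≤ 4 * (2 : ℝ) ^ ((m : ℝ) / 2) * D := by
    refine (Finset.sum_le_sum hblk).trans ?_
    rw [← Finset.sum_mul]
    exact mul_le_mul_of_nonneg_right (geom_leFA3 a m) (Real.exp_pos _).le
  have hDle : D ≤ Real.exp (1 / 4 - (3 + y ^ ((1 : ℝ) / 61))) := by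
    refine Real.exp_le_exp.mpr ?_
    have h1 : (y / 5) ^ ((1 : ℝ) / 60) ≤ (a : ℝ) ^ ((1 : ℝ) / 60) :=
      Real.rpow_le_rpow (by linarith) ha1 (by norm_num)
    have h2 : y ^ ((1 : ℝ) / 60) / 5 ≤ (y / 5) ^ ((1 : ℝ) / 60) := by
      rw [Real.div_rpow (by linarith) (by norm_num)]
      refine div_le_div_of_nonneg_left (by positivity) (by positivity) ?_
      calc (5 : ℝ) ^ ((1 : ℝ) / 60) ≤ (5 : ℝ) ^ (1 : ℝ) :=
            Real.rpow_le_rpow_of_exponent_le (by norm_num) (by norm_num)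
        _ = 5 := Real.rpow_one _
    linarith
  have h2m : (2 : ℝ) ^ ((m : ℝ) / 2) ≤ Real.exp ((Real.log 2 + y) / 2) := by
    rw [Real.rpow_def_of_pos (by norm_num)]
    refine Real.exp_le_exp.mpr ?_
    linarith
  have h2a : (2 : ℝ) ^ a ≤ Real.exp ((Real.log 2 + y) / 4) := by
    rw [← Real.rpow_natCast, Real.rpow_def_of_pos (by norm_num)]
    refine Real.exp_le_exp.mpr ?_
    have h1 : 4 * (a : ℝ) * Real.log 2 ≤ m * Real.log 2 :=
      mul_le_mul_of_nonneg_right ha2 hl2'.le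
    linarith
  have hu : y ^ ((1 : ℝ) / 60) ≤ y := by
    calc y ^ ((1 : ℝ) / 60) ≤ y ^ (1 : ℝ) :=
          Real.rpow_le_rpow_of_exponent_le (by linarith) (by norm_num)
      _ = y := Real.rpow_one _
  set u : ℝ := y ^ ((1 : ℝ) / 61) with hu'
  have hsq : Real.sqrt X = Real.exp (y / 2) := by
    rw [hy, Real.sqrt_eq_rpow, Real.rpow_def_of_pos hXpos]
    congr 1
    ring
  have he1 : Real.exp (-2.4) ≤ 1 / 8 := by
    rw [Real.exp_neg, inv_le_comm₀ (Real.exp_pos _) (by norm_num)]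
    have h1 : Real.exp 2.4 = Real.exp 1 * Real.exp 1 * Real.exp 0.4 := by
      rw [← Real.exp_add, ← Real.exp_add]
      norm_num
    have h2 := Real.exp_one_gt_d9
    have h3 := Real.add_one_le_exp (0.4 : ℝ)
    rw [h1]
    nlinarith [mul_le_mul h2.le h2.le (by norm_num) (by linarith : (0 : ℝ) ≤ Real.exp 1)]
  have t1 : (2 : ℝ) ^ a ≤ 1 / 8 * Real.exp (y / 2 - u) := by
    refine h2a.trans ?_
    calc Real.exp ((Real.log 2 + y) / 4) ≤ Real.exp (-2.4 + (y / 2 - u)) :=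
          Real.exp_le_exp.mpr (by linarith)
      _ = Real.exp (-2.4) * Real.exp (y / 2 - u) := Real.exp_add _ _
      _ ≤ 1 / 8 * Real.exp (y / 2 - u) :=
          mul_le_mul_of_nonneg_right he1 (Real.exp_pos _).le
  have t2 : 4 * (2 : ℝ) ^ ((m : ℝ) / 2) * D ≤ 1 / 2 * Real.exp (y / 2 - u) := by
    calc 4 * (2 : ℝ) ^ ((m : ℝ) / 2) * D
        ≤ 4 * Real.exp ((Real.log 2 + y) / 2) * Real.exp (1 / 4 - (3 + u)) :=
          mul_le_mul (mul_le_mul_of_nonneg_left h2m (by norm_num)) hDle (Real.exp_pos _).le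
            (by positivity)
      _ = 4 * Real.exp ((Real.log 2 + y) / 2 + (1 / 4 - (3 + u))) := by
          rw [mul_assoc, ← Real.exp_add]
      _ ≤ 4 * Real.exp (-2.4 + (y / 2 - u)) :=
          mul_le_mul_of_nonneg_left (Real.exp_le_exp.mpr (by linarith)) (by norm_num)
      _ = 4 * Real.exp (-2.4) * Real.exp (y / 2 - u) := by rw [Real.exp_add]; ring
      _ ≤ 1 / 2 * Real.exp (y / 2 - u) := by
          refine mul_le_mul_of_nonneg_right ?_ (Real.exp_pos _).le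
          linarith
  have hfin : Real.sqrt X * Real.exp (-u) = Real.exp (y / 2 - u) := by
    rw [hsq, ← Real.exp_add]
    congr 1
  rw [hfin]
  have hpos := Real.exp_pos (y / 2 - u)
  linarith

end Pool.Agent.Helper58.LT
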